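import Mathlib

set_option autoImplicit false

open Module

namespace Pool.Agent.TH623.SA

universe u

section Mod

variable {K A : Type*} [Field K] [Ring A] [Algebra K A]

/-- the trace of an element of a `K`-algebra on a module -/
noncomputable def tr (K : Type*) [Field K] {A : Type*} [Ring A] [Algebra K A] (V : Type*)
    [AddCommGroup V] [Module K V] [Module A V] [IsScalarTower K A V] (a : A) : K :=
  LinearMap.trace K V (Algebra.lsmul K K V a)

theorem semisimple_prod (V W : Type*) [AddCommGroup V] [Module A V] [AddCommGroup W] [Module A W]
    [IsSemisimpleModule A V] [IsSemisimpleModule A W] : IsSemisimpleModule A (V × W) := by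
  have h1 : IsSemisimpleModule A (LinearMap.range (LinearMap.inl A V W)) :=
    IsSemisimpleModule.range _
  have h2 : IsSemisimpleModule A (LinearMap.range (LinearMap.inr A V W)) :=
    IsSemisimpleModule.range _
  have h3 := IsSemisimpleModule.sup h1 h2
  rw [LinearMap.sup_range_inl_inr] at h3
  exact IsSemisimpleModule.congr Submodule.topEquiv.symm

theorem tr_congr {V W : Type*} [AddCommGroup V] [Module K V] [Module A V] [IsScalarTower K A V]
    [AddCommGroup W] [Module K W] [Module A W] [IsScalarTower K A W] (e : V ≃ₗ[A] W) (a : A) :
    tr K V a = tr K W a := by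
  have h1 : (Algebra.lsmul K K W a) = (e.restrictScalars K).conj (Algebra.lsmul K K V a) := by
    ext w
    simp [LinearEquiv.conj_apply]
  unfold tr
  rw [h1, LinearMap.trace_conj']

theorem tr_prod {V W : Type*} [AddCommGroup V] [Module K V] [Module A V] [IsScalarTower K A V]
    [AddCommGroup W] [Module K W] [Module A W] [IsScalarTower K A W]
    [Module.Finite K V] [Module.Finite K W] (a : A) :
    tr K (V × W) a = tr K V a + tr K W a := by
  have h1 : (Algebra.lsmul K K (V × W) a) =
      (Algebra.lsmul K K V a : V →ₗ[K] V).prodMap (Algebra.lsmul K K W a) := by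
    ext w <;> simp
  unfold tr
  rw [h1, LinearMap.trace_prodMap']

/-- If there are no nonzero homomorphisms in either direction, then some element of the algebra
acts as the identity on the first module and as zero on the second. -/
theorem exists_separating {V W : Type*} [AddCommGroup V] [Module K V] [Module A V]
    [IsScalarTower K A V] [AddCommGroup W] [Module K W] [Module A W] [IsScalarTower K A W]
    [Module.Finite K V] [Module.Finite K W] [IsSemisimpleModule A V] [IsSemisimpleModule A W]
    (h1 : ∀ f : V →ₗ[A] W, f = 0) (h2 : ∀ f : W →ₗ[A] V, f = 0) :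
    ∃ a : A, (∀ v : V, a • v = v) ∧ ∀ w : W, a • w = 0 := by
  have := semisimple_prod (A := A) V W
  have key1 : ∀ (φ : End A (V × W)) (v : V), (φ (v, 0)).2 = 0 := by
    intro φ v
    have h3 := h1 ((LinearMap.snd A V W).comp (φ.comp (LinearMap.inl A V W)))
    have h4 := congrArg (fun f : V →ₗ[A] W => f v) h3
    simpa using h4
  have key2 : ∀ (φ : End A (V × W)) (w : W), (φ (0, w)).1 = 0 := by
    intro φ w
    have h3 := h2 ((LinearMap.fst A V W).comp (φ.comp (LinearMap.inr A V W)))
    have h4 := congrArg (fun f : W →ₗ[A] V => f w) h3
    simpa using h4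
  let f : End (End A (V × W)) (V × W) :=
    { toFun := fun m => (m.1, 0)
      map_add' := by intro x y; simp
      map_smul' := by
        intro φ m
        have hm : m = (m.1, 0) + (0, m.2) := by simp
        have h3 : φ m = φ (m.1, 0) + φ (0, m.2) := by
          conv_lhs => rw [hm]
          rw [map_add]
        show ((φ m).1, (0 : W)) = φ (m.1, 0)
        rw [h3]
        ext
        · simp [key2]
        · simp [key1] }
  obtain ⟨s, hs⟩ := (inferInstance : Module.Finite K (V × W)).fg_top
  obtain ⟨a, ha⟩ := jacobson_density f s
  have hall : ∀ m : V × W, (m.1, (0 : W)) = a • m := by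
    intro m
    have hm : m ∈ Submodule.span K (s : Set (V × W)) := by rw [hs]; trivial
    induction hm using Submodule.span_induction with
    | mem x hx => exact ha x hx
    | zero => simp
    | add x y _ _ hx hy =>
      rw [smul_add, ← hx, ← hy]; simp
    | smul c x _ hx =>
      rw [smul_comm, ← hx]
      simp
  refine ⟨a, fun v => ?_, fun w => ?_⟩
  · have := congrArg Prod.fst (hall (v, 0))
    simpa using this.symm
  · have := congrArg Prod.snd (hall (0, w))
    simpa using this.symm

/-- Two finite-dimensional semisimple modules with the same traces are isomorphic. -/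
theorem iso_of_tr [CharZero K] : ∀ (d : ℕ) (V W : Type u) [AddCommGroup V] [Module K V] [Module A V]
    [IsScalarTower K A V] [AddCommGroup W] [Module K W] [Module A W] [IsScalarTower K A W]
    [Module.Finite K V] [Module.Finite K W] [IsSemisimpleModule A V] [IsSemisimpleModule A W],
    finrank K V = d → (∀ a : A, tr K V a = tr K W a) → Nonempty (V ≃ₗ[A] W) := by
  intro d
  induction d using Nat.strong_induction_on with
  | _ d ih =>
  intro V W _ _ _ _ _ _ _ _ _ _ _ _ hd htr
  have h1 : ∀ (U : Type u) [AddCommGroup U] [Module K U] [Module A U] [IsScalarTower K A U]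
      [Module.Finite K U], tr K U (1 : A) = finrank K U := by
    intro U _ _ _ _ _
    unfold tr
    rw [map_one, LinearMap.trace_one]
  have hdim : finrank K V = finrank K W := by
    have := htr 1
    rw [h1, h1] at this
    exact_mod_cast this
  by_cases h0 : finrank K V = 0
  · have hV : Subsingleton V := finrank_zero_iff.1 h0
    have hW : Subsingleton W := finrank_zero_iff.1 (hdim ▸ h0)
    exact ⟨{ toFun := 0, map_add' := by simp, map_smul' := by simp, invFun := 0,
             left_inv := fun _ => Subsingleton.elim _ _,
             right_inv := fun _ => Subsingleton.elim _ _ }⟩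
  -- a general construction
  have step : ∀ (V W : Type u) [AddCommGroup V] [Module K V] [Module A V]
      [IsScalarTower K A V] [AddCommGroup W] [Module K W] [Module A W] [IsScalarTower K A W]
      [Module.Finite K V] [Module.Finite K W] [IsSemisimpleModule A V] [IsSemisimpleModule A W],
      finrank K V = d → (∀ a : A, tr K V a = tr K W a) → ∀ f : V →ₗ[A] W, f ≠ 0 →
      Nonempty (V ≃ₗ[A] W) := by
    intro V W _ _ _ _ _ _ _ _ _ _ _ _ hd htr f hf
    obtain ⟨C, hC⟩ := exists_isCompl (LinearMap.ker f)
    obtain ⟨T, hT⟩ := exists_isCompl (LinearMap.range f)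
    have e1 : (LinearMap.ker f × C) ≃ₗ[A] V := Submodule.prodEquivOfIsCompl _ _ hC
    have e2 : (LinearMap.range f × T) ≃ₗ[A] W := Submodule.prodEquivOfIsCompl _ _ hT
    have e3 : C ≃ₗ[A] LinearMap.range f :=
      (Submodule.quotientEquivOfIsCompl _ _ hC).symm.trans f.quotKerEquivRange
    have : Module.Finite K (LinearMap.ker f) :=
      inferInstanceAs (Module.Finite K ((LinearMap.ker f).restrictScalars K))
    have : Module.Finite K C := inferInstanceAs (Module.Finite K (C.restrictScalars K))
    have : Module.Finite K T := inferInstanceAs (Module.Finite K (T.restrictScalars K))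
    have : Module.Finite K (LinearMap.range f) :=
      inferInstanceAs (Module.Finite K ((LinearMap.range f).restrictScalars K))
    have h2 : ∀ a : A, tr K (LinearMap.ker f) a = tr K T a := by
      intro a
      have h3 := htr a
      rw [← tr_congr e1, ← tr_congr e2, tr_prod, tr_prod, tr_congr e3] at h3
      rw [add_comm] at h3
      exact add_left_cancel h3
    have h4 : finrank K (LinearMap.ker f) < d := by
      rw [← hd]
      have h5 : (LinearMap.ker f).restrictScalars K < ⊤ := by
        rw [lt_top_iff_ne_top]
        intro h6
        apply hf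
        ext v
        have h7 : v ∈ (LinearMap.ker f).restrictScalars K := by rw [h6]; trivial
        exact h7
      exact Submodule.finrank_lt h5.ne
    obtain ⟨e4⟩ := ih _ h4 (LinearMap.ker f) T rfl h2
    exact ⟨e1.symm.trans (((e4.prodCongr e3).trans (LinearEquiv.prodComm A _ _)).trans e2)⟩
  by_cases hf : ∀ f : V →ₗ[A] W, f = 0
  · by_cases hg : ∀ g : W →ₗ[A] V, g = 0
    · exfalso
      obtain ⟨a, ha1, ha2⟩ := exists_separating (K := K) hf hg
      have h3 := htr a
      have h4 : Algebra.lsmul K K V a = (1 : End K V) := by
        ext v; simpa using ha1 v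
      have h5 : Algebra.lsmul K K W a = (0 : End K W) := by
        ext w; simpa using ha2 w
      unfold tr at h3
      rw [h4, h5, LinearMap.trace_one, map_zero] at h3
      exact h0 (by exact_mod_cast h3)
    · push Not at hg
      obtain ⟨g, hg⟩ := hg
      obtain ⟨e⟩ := step W V (by rw [← hdim, hd]) (fun a => (htr a).symm) g hg
      exact ⟨e.symm⟩
  · push Not at hf
    obtain ⟨f, hf⟩ := hf
    exact step V W hd htr f hf

end Mod

open scoped MonoidAlgebra

/-- Two finite-dimensional semisimple representations with the same character are isomorphic. -/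
theorem rep_iso {K G : Type*} [Field K] [CharZero K] [Monoid G] {V W : Type u}
    [AddCommGroup V] [Module K V] [Module.Finite K V] [AddCommGroup W] [Module K W]
    [Module.Finite K W] (ρ : Representation K G V) (σ : Representation K G W)
    (hρ : ρ.IsSemisimpleRepresentation) (hσ : σ.IsSemisimpleRepresentation)
    (htr : ∀ g, LinearMap.trace K V (ρ g) = LinearMap.trace K W (σ g)) :
    ∃ e : V ≃ₗ[K] W, ∀ g v, e (ρ g v) = σ g (e v) := by
  have h1 : IsSemisimpleModule K[G] ρ.asModule :=
    (Representation.isSemisimpleRepresentation_iff_isSemisimpleModule_asModule ρ).1 hρ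
  have h2 : IsSemisimpleModule K[G] σ.asModule :=
    (Representation.isSemisimpleRepresentation_iff_isSemisimpleModule_asModule σ).1 hσ
  have key : ∀ {U : Type u} [AddCommGroup U] [Module K U] (τ : Representation K G U) (g : G)
      (c : K), tr K τ.asModule (MonoidAlgebra.single g c : K[G]) =
        c * LinearMap.trace K U (τ g) := by
    intro U _ _ τ g c
    unfold tr
    have h3 : (Algebra.lsmul K K τ.asModule (MonoidAlgebra.single g c : K[G]) :
        Module.End K τ.asModule) = τ.asModuleEquiv.symm.conj (c • τ g) := by
      ext v
      rw [LinearEquiv.conj_apply]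
      apply τ.asModuleEquiv.injective
      simp
      rfl
    rw [h3, LinearMap.trace_conj', map_smul, smul_eq_mul]
  have h3 : ∀ a : K[G], tr K ρ.asModule a = tr K σ.asModule a := by
    intro a
    induction a using MonoidAlgebra.induction_linear with
    | zero => unfold tr; simp
    | add x y hx hy =>
      unfold tr at hx hy ⊢
      rw [map_add, map_add, map_add, map_add, hx, hy]
    | single g c => rw [key, key, htr]
  obtain ⟨e⟩ := iso_of_tr (K := K) (A := K[G]) _ ρ.asModule σ.asModule rfl h3
  refine ⟨ρ.asModuleEquiv.symm.trans ((e.restrictScalars K).trans σ.asModuleEquiv),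
    fun g v => ?_⟩
  simp only [LinearEquiv.trans_apply, LinearEquiv.restrictScalars_apply]
  rw [Representation.asModuleEquiv_symm_map_rho, map_smul, Representation.asModuleEquiv_map_smul,
    Representation.asAlgebraHom_of]

end Pool.Agent.TH623.SA
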