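import Mathlib

set_option autoImplicit false

open Polynomial

attribute [local instance 100] LieRing.ofAssociativeRing

namespace Pool.Agent.TH623.SA

/-- polynomials without constant term of an endomorphism all of whose powers have trace zero -/
theorem trace_aeval_X_mul {K V : Type*} [Field K] [AddCommGroup V] [Module K V]
    (f : Module.End K V) (h : ∀ m : ℕ, 1 ≤ m → LinearMap.trace K V (f ^ m) = 0) (r : K[X]) :
    LinearMap.trace K V (aeval f (X * r)) = 0 := by
  induction r using Polynomial.induction_on' with
  | add p q hp hq => rw [mul_add, map_add, map_add, hp, hq, add_zero]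
  | monomial n a =>
    have h1 : (X : K[X]) * monomial n a = C a * X ^ (n + 1) := by
      rw [← C_mul_X_pow_eq_monomial]; ring
    rw [h1, map_mul, aeval_C, map_pow, aeval_X, Algebra.algebraMap_eq_smul_one, smul_mul_assoc,
      one_mul, map_smul, h (n + 1) (by omega), smul_zero]

theorem isNilpotent_of_trace {K V : Type*} [Field K] [CharZero K] [AddCommGroup V] [Module K V]
    [Module.Finite K V] (f : Module.End K V)
    (h : ∀ m : ℕ, 1 ≤ m → LinearMap.trace K V (f ^ m) = 0) : IsNilpotent f := by
  have hne : f.charpoly ≠ 0 := f.charpoly_monic.ne_zero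
  obtain ⟨q, hq, hX⟩ := Polynomial.exists_eq_pow_rootMultiplicity_mul_and_not_dvd f.charpoly hne 0
  set k := f.charpoly.rootMultiplicity 0
  rw [C_0, sub_zero] at hq hX
  have hcop : IsCoprime ((X : K[X]) ^ (k + 1)) q := by
    apply IsCoprime.pow_left
    exact (Polynomial.irreducible_X.coprime_iff_not_dvd).2 hX
  obtain ⟨u, v, huv⟩ := hcop
  have hCH : aeval f ((X : K[X]) ^ k * q) = 0 := by
    rw [← hq]; exact f.aeval_self_charpoly
  set e : Module.End K V := aeval f (u * X ^ (k + 1)) with he
  have hqv : aeval f (v * q) = 1 - e := by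
    have h1 := congrArg (aeval f) huv
    rw [map_add, map_one, ← he] at h1
    rw [← h1]; abel
  have hidem : IsIdempotentElem e := by
    have h1 : e * (1 - e) = 0 := by
      rw [← hqv, he, ← map_mul]
      have : u * X ^ (k + 1) * (v * q) = (u * v * X) * (X ^ k * q) := by ring
      rw [this, map_mul, hCH, mul_zero]
    have h2 : e * (1 - e) = e - e * e := by rw [mul_sub, mul_one]
    rw [h2, sub_eq_zero] at h1
    exact h1.symm
  have htr : LinearMap.trace K V e = 0 := by
    have : u * X ^ (k + 1) = X * (u * X ^ k) := by ring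
    rw [he, this]
    exact trace_aeval_X_mul f h _
  have he0 : e = 0 := LinearMap.IsIdempotentElem.eq_zero_of_trace_eq_zero hidem htr
  refine ⟨k, ?_⟩
  have h1 : f ^ k * aeval f (v * q) = 0 := by
    have h2 : f ^ k = aeval f ((X : K[X]) ^ k) := by rw [map_pow, aeval_X]
    rw [h2, ← map_mul]
    have : (X : K[X]) ^ k * (v * q) = v * (X ^ k * q) := by ring
    rw [this, map_mul, hCH, mul_zero]
  rw [hqv, he0, sub_zero, mul_one] at h1
  exact h1

/-- A finite family of endomorphisms of a nonzero space such that every nonempty word has trace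
zero has a common kernel vector in every nonzero invariant subspace. -/
theorem exists_common_kernel {K V ι : Type*} [Field K] [CharZero K] [AddCommGroup V] [Module K V]
    [Module.Finite K V] (a : ι → Module.End K V)
    (h : ∀ w : List ι, w ≠ [] → LinearMap.trace K V ((w.map a).prod) = 0)
    (W : Submodule K V) (hW : W ≠ ⊥) (hinv : ∀ s, ∀ v ∈ W, a s v ∈ W) :
    ∃ v ∈ W, v ≠ 0 ∧ ∀ s, a s v = 0 := by
  -- the span of the nonempty words
  set S : Submodule K (Module.End K V) :=
    Submodule.span K {M | ∃ w : List ι, w ≠ [] ∧ M = (w.map a).prod} with hS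
  have hmul : ∀ x ∈ S, ∀ y ∈ S, x * y ∈ S := by
    intro x hx y hy
    induction hx using Submodule.span_induction with
    | mem x hx =>
      obtain ⟨w, hw, rfl⟩ := hx
      induction hy using Submodule.span_induction with
      | mem y hy =>
        obtain ⟨w', hw', rfl⟩ := hy
        refine Submodule.subset_span ⟨w ++ w', by simp [hw], by simp⟩
      | zero => rw [mul_zero]; exact S.zero_mem
      | add y z _ _ hy hz => rw [mul_add]; exact S.add_mem hy hz
      | smul c y _ hy => rw [mul_smul_comm]; exact S.smul_mem c hy
    | zero => rw [zero_mul]; exact S.zero_mem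
    | add y z _ _ hy hz => rw [add_mul]; exact S.add_mem hy hz
    | smul c y _ hy => rw [smul_mul_assoc]; exact S.smul_mem c hy
  have htr : ∀ x ∈ S, LinearMap.trace K V x = 0 := by
    intro x hx
    induction hx using Submodule.span_induction with
    | mem x hx =>
      obtain ⟨w, hw, rfl⟩ := hx
      exact h w hw
    | zero => simp
    | add y z _ _ hy hz => rw [map_add, hy, hz, add_zero]
    | smul c y _ hy => rw [map_smul, hy, smul_zero]
  have hpow : ∀ x ∈ S, ∀ m : ℕ, 1 ≤ m → x ^ m ∈ S := by
    intro x hx m hm
    induction m, hm using Nat.le_induction with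
    | base => rw [pow_one]; exact hx
    | succ m _ ih => rw [pow_succ]; exact hmul _ ih _ hx
  have hnil : ∀ x ∈ S, IsNilpotent x := fun x hx =>
    isNilpotent_of_trace x fun m hm => htr _ (hpow x hx m hm)
  have hSW : ∀ x ∈ S, ∀ v ∈ W, x v ∈ W := by
    intro x hx
    induction hx using Submodule.span_induction with
    | mem x hx =>
      obtain ⟨w, hw, rfl⟩ := hx
      clear hw
      induction w with
      | nil => intro v hv; simpa using hv
      | cons s w ih =>
        intro v hv
        rw [List.map_cons, List.prod_cons, Module.End.mul_apply]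
        exact hinv s _ (ih v hv)
    | zero => intro v _; simp
    | add y z _ _ hy hz => intro v hv; exact W.add_mem (hy v hv) (hz v hv)
    | smul c y _ hy => intro v hv; exact W.smul_mem c (hy v hv)
  let L : LieSubalgebra K (Module.End K V) :=
    { S with
      lie_mem' := by
        intro x y hx hy
        rw [Ring.lie_def]
        exact S.sub_mem (hmul x hx y hy) (hmul y hy x hx) }
  let N : LieSubmodule K L V :=
    { W with
      lie_mem := by
        intro x v hv
        exact hSW x.1 x.2 v hv }
  have : LieModule.IsNilpotent L V := by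
    rw [LieModule.isNilpotent_iff_forall' (R := K)]
    intro x
    exact hnil x.1 x.2
  have : LieModule.IsNilpotent L N := by
    rw [LieModule.isNilpotent_iff_forall' (R := K)]
    intro x
    obtain ⟨k, hk⟩ := hnil x.1 x.2
    refine ⟨k, ?_⟩
    ext v
    have h1 : ∀ m : ℕ, ∀ v : N, (((LieModule.toEnd K L N x) ^ m) v : V) = (x.1 ^ m) (v : V) := by
      intro m
      induction m with
      | zero => intro v; simp
      | succ m ih =>
        intro v
        rw [pow_succ, pow_succ, Module.End.mul_apply, Module.End.mul_apply, ih]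
        rfl
    rw [h1, hk]
    simp
  have : Nontrivial N := by
    obtain ⟨v, hv, hv0⟩ := Submodule.exists_mem_ne_zero_of_ne_bot hW
    exact ⟨⟨⟨v, hv⟩, 0, fun h => hv0 (congrArg (fun z : N => (z : V)) h)⟩⟩
  obtain ⟨⟨v, hv⟩, hv0⟩ := @exists_ne _ (LieModule.nontrivial_max_triv_of_isNilpotent K L N) 0
  refine ⟨v.1, v.2, ?_, ?_⟩
  · intro h0
    apply hv0
    ext
    exact h0
  · intro s
    have h1 := hv
    rw [LieModule.mem_maxTrivSubmodule] at h1
    have h2 := h1 ⟨a s, Submodule.subset_span ⟨[s], by simp, by simp⟩⟩
    exact congrArg Subtype.val h2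

end Pool.Agent.TH623.SA
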