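import Pool.Agent.TH623.SA.KN

set_option autoImplicit false
set_option linter.unusedSectionVars false

open Matrix Filter Topology

namespace Pool.Agent.TH623.SA

variable {𝕜 : Type*} [RCLike 𝕜] {n ι : Type*} [Fintype n] [DecidableEq n] [Fintype ι]

theorem continuous_tsq : Continuous (tsq : (ι → Matrix n n 𝕜) → ℝ) := by
  unfold tsq nsq
  refine continuous_finsetSum _ fun s _ => continuous_finsetSum _ fun i _ =>
    continuous_finsetSum _ fun j _ => ?_
  exact ((((continuous_apply s).matrix_elem i j)).norm).pow 2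

theorem continuous_cj (g : (Matrix n n 𝕜)ˣ) :
    Continuous (cj g : (ι → Matrix n n 𝕜) → (ι → Matrix n n 𝕜)) := by
  refine continuous_pi fun s => ?_
  exact (continuous_const.mul (continuous_apply s)).mul continuous_const

theorem continuous_word (w : List ι) :
    Continuous (fun A : ι → Matrix n n 𝕜 => (w.map A).prod) := by
  induction w with
  | nil => simpa using continuous_const
  | cons s w ih =>
    simp only [List.map_cons, List.prod_cons]
    exact (continuous_apply s).mul ih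

theorem cj_mul (g h : (Matrix n n 𝕜)ˣ) (A : ι → Matrix n n 𝕜) : cj g (cj h A) = cj (g * h) A := by
  funext s
  show g.1 * (h.1 * A s * h⁻¹.1) * g⁻¹.1 = (g * h).1 * A s * (g * h)⁻¹.1
  rw [_root_.mul_inv_rev, Units.val_mul, Units.val_mul]
  simp only [Matrix.mul_assoc]

theorem cj_smul (g : (Matrix n n 𝕜)ˣ) (c : 𝕜) (A : ι → Matrix n n 𝕜) :
    cj g (c • A) = c • cj g A := by
  funext s
  show g.1 * (c • A s) * g⁻¹.1 = c • (g.1 * A s * g⁻¹.1)
  simp

theorem tsq_smul (c : 𝕜) (A : ι → Matrix n n 𝕜) : tsq (c • A) = ‖c‖ ^ 2 * tsq A := by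
  unfold tsq
  simp only [Pi.smul_apply, nsq_smul, Finset.mul_sum]

theorem word_cj (g : (Matrix n n 𝕜)ˣ) (A : ι → Matrix n n 𝕜) (w : List ι) :
    (w.map (cj g A)).prod = g.1 * (w.map A).prod * g⁻¹.1 := by
  induction w with
  | nil => simp
  | cons s w ih =>
    rw [List.map_cons, List.prod_cons, ih, List.map_cons, List.prod_cons]
    show g.1 * A s * g⁻¹.1 * (g.1 * (w.map A).prod * g⁻¹.1) = _
    have : g.1 * A s * g⁻¹.1 * (g.1 * (w.map A).prod * g⁻¹.1)
        = g.1 * A s * (g⁻¹.1 * g.1) * (w.map A).prod * g⁻¹.1 := by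
      simp only [Matrix.mul_assoc]
    rw [this, ← Units.val_mul, inv_mul_cancel]
    simp [Matrix.mul_assoc]

theorem trace_word_cj (g : (Matrix n n 𝕜)ˣ) (A : ι → Matrix n n 𝕜) (w : List ι) :
    trace ((w.map (cj g A)).prod) = trace ((w.map A).prod) := by
  rw [word_cj, Matrix.trace_mul_comm, ← Matrix.mul_assoc, ← Units.val_mul, inv_mul_cancel]
  simp

theorem word_smul (c : 𝕜) (A : ι → Matrix n n 𝕜) (w : List ι) :
    (w.map (c • A)).prod = c ^ w.length • (w.map A).prod := by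
  induction w with
  | nil => simp
  | cons s w ih =>
    rw [List.map_cons, List.prod_cons, ih, List.map_cons, List.prod_cons, List.length_cons]
    simp only [Pi.smul_apply, Matrix.smul_mul, Matrix.mul_smul, smul_smul]
    rw [pow_succ]

/-- A sequence of tuples of bounded norm has a convergent subsequence. -/
theorem exists_subseq {A : ℕ → ι → Matrix n n 𝕜} {R : ℝ} (hR : ∀ k, tsq (A k) ≤ R) :
    ∃ (B : ι → Matrix n n 𝕜) (φ : ℕ → ℕ), StrictMono φ ∧ Tendsto (A ∘ φ) atTop (𝓝 B) := by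
  have hK : IsCompact (Set.univ.pi fun _ : ι => Set.univ.pi fun _ : n => Set.univ.pi fun _ : n =>
      Metric.closedBall (0 : 𝕜) (Real.sqrt R)) :=
    isCompact_univ_pi fun _ => isCompact_univ_pi fun _ => isCompact_univ_pi fun _ =>
      isCompact_closedBall _ _
  have hmem : ∀ k, A k ∈ (Set.univ.pi fun _ : ι => Set.univ.pi fun _ : n => Set.univ.pi
      fun _ : n => Metric.closedBall (0 : 𝕜) (Real.sqrt R)) := by
    intro k s _ i _ j _
    rw [mem_closedBall_zero_iff]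
    apply Real.le_sqrt_of_sq_le
    refine le_trans ?_ (hR k)
    have h1 : ‖A k s i j‖ ^ 2 ≤ ∑ j, ‖A k s i j‖ ^ 2 :=
      Finset.single_le_sum (f := fun j => ‖A k s i j‖ ^ 2) (fun _ _ => by positivity)
        (Finset.mem_univ j)
    have h2 : ∑ j, ‖A k s i j‖ ^ 2 ≤ nsq (A k s) :=
      Finset.single_le_sum (f := fun i => ∑ j, ‖A k s i j‖ ^ 2)
        (fun _ _ => Finset.sum_nonneg fun _ _ => by positivity) (Finset.mem_univ i)
    have h3 : nsq (A k s) ≤ tsq (A k) :=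
      Finset.single_le_sum (f := fun s => nsq (A k s)) (fun _ _ => nsq_nonneg _)
        (Finset.mem_univ s)
    linarith
  obtain ⟨B, _, φ, hφ, hlim⟩ := hK.tendsto_subseq hmem
  exact ⟨B, φ, hφ, hlim⟩

/-- A family of tuples of matrices such that the traces of every fixed word are bounded can be
conjugated into a bounded set. -/
theorem exists_bound {α : Type*} (A : α → ι → Matrix n n 𝕜)
    (h : ∀ w : List ι, w ≠ [] → ∃ C : ℝ, ∀ a, ‖trace ((w.map (A a)).prod)‖ ≤ C) :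
    ∃ R : ℝ, ∀ a, ∃ g : (Matrix n n 𝕜)ˣ, tsq (cj g (A a)) ≤ R := by
  by_contra hcon
  push Not at hcon
  choose a ha using fun k : ℕ => hcon (k + 1)
  -- the infimum over the conjugacy class
  set m : ℕ → ℝ := fun k => ⨅ g : (Matrix n n 𝕜)ˣ, tsq (cj g (A (a k))) with hm
  have hbdd : ∀ k, BddBelow (Set.range fun g : (Matrix n n 𝕜)ˣ => tsq (cj g (A (a k)))) :=
    fun k => ⟨0, by rintro _ ⟨g, rfl⟩; exact tsq_nonneg _⟩
  have hmle : ∀ k g, m k ≤ tsq (cj g (A (a k))) := fun k g => ciInf_le (hbdd k) g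
  have hkm : ∀ k : ℕ, (k : ℝ) + 1 ≤ m k := fun k => le_ciInf fun g => (ha k g).le
  have hex : ∀ k, ∃ g : (Matrix n n 𝕜)ˣ, tsq (cj g (A (a k))) < m k + 1 := fun k =>
    exists_lt_of_ciInf_lt (lt_add_one _)
  choose g hg using hex
  set C : ℕ → ι → Matrix n n 𝕜 := fun k => cj (g k) (A (a k)) with hC
  set t : ℕ → ℝ := fun k => Real.sqrt (tsq (C k)) with ht
  have hCm : ∀ k, m k ≤ tsq (C k) := fun k => hmle k (g k)
  have hC1 : ∀ k : ℕ, (k : ℝ) + 1 ≤ tsq (C k) := fun k => (hkm k).trans (hCm k)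
  have hCpos : ∀ k : ℕ, 0 < tsq (C k) := fun k => by
    have h1 := hC1 k
    have h2 : (0 : ℝ) ≤ (k : ℝ) := Nat.cast_nonneg k
    linarith
  have htpos : ∀ k, 0 < t k := fun k => Real.sqrt_pos.2 (hCpos k)
  have htsq : ∀ k, t k ^ 2 = tsq (C k) := fun k => Real.sq_sqrt (hCpos k).le
  have htk : ∀ k : ℕ, Real.sqrt (k + 1) ≤ t k := fun k => Real.sqrt_le_sqrt (hC1 k)
  have ht1 : ∀ k, 1 ≤ t k := fun k => by
    refine le_trans ?_ (htk k)
    rw [Real.one_le_sqrt]
    have h2 : (0 : ℝ) ≤ (k : ℝ) := Nat.cast_nonneg k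
    linarith
  have hnorm : ∀ k, ‖((t k)⁻¹ : 𝕜)‖ = (t k)⁻¹ := fun k => by
    rw [norm_inv, RCLike.norm_ofReal, abs_of_pos (htpos k)]
  set B : ℕ → ι → Matrix n n 𝕜 := fun k => ((t k)⁻¹ : 𝕜) • C k with hB
  have hB1 : ∀ k, tsq (B k) = 1 := fun k => by
    show tsq (((t k)⁻¹ : 𝕜) • C k) = 1
    rw [tsq_smul, hnorm, ← htsq, inv_pow, inv_mul_cancel₀ (pow_pos (htpos k) 2).ne']
  obtain ⟨L, φ, hφ, hlim⟩ := exists_subseq (fun k => (hB1 k).le)
  have hL1 : tsq L = 1 := by
    have h1 : Tendsto (fun k => tsq (B (φ k))) atTop (𝓝 (tsq L)) :=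
      (continuous_tsq.tendsto L).comp hlim
    simp only [hB1] at h1
    exact tendsto_nhds_unique h1 tendsto_const_nhds
  have hmin : ∀ u : (Matrix n n 𝕜)ˣ, tsq L ≤ tsq (cj u L) := by
    intro u
    rw [hL1]
    have h1 : Tendsto (fun k => tsq (cj u (B (φ k)))) atTop (𝓝 (tsq (cj u L))) :=
      ((continuous_tsq.comp (continuous_cj u)).tendsto L).comp hlim
    have h2 : Tendsto (fun k : ℕ => 1 - 1 / ((φ k : ℝ) + 1)) atTop (𝓝 (1 - 0)) := by
      refine tendsto_const_nhds.sub ?_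
      exact (tendsto_one_div_add_atTop_nhds_zero_nat (𝕜 := ℝ)).comp hφ.tendsto_atTop
    rw [sub_zero] at h2
    refine le_of_tendsto_of_tendsto' h2 h1 fun k => ?_
    have h3 : cj u (B (φ k)) = ((t (φ k))⁻¹ : 𝕜) • cj u (C (φ k)) := cj_smul _ _ _
    rw [h3, tsq_smul, hnorm]
    have h4 : m (φ k) ≤ tsq (cj u (C (φ k))) := by
      show m (φ k) ≤ tsq (cj u (cj (g (φ k)) (A (a (φ k)))))
      rw [cj_mul]
      exact hmle _ _
    have h5 : tsq (C (φ k)) < m (φ k) + 1 := hg (φ k)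
    rw [← htsq] at h5
    have h6 : 0 < t (φ k) ^ 2 := pow_pos (htpos _) 2
    have h7 : ((φ k : ℝ) + 1) ≤ t (φ k) ^ 2 := by rw [htsq]; exact hC1 _
    have h8 : (0 : ℝ) < (φ k : ℝ) + 1 := by positivity
    have h9 : 1 / t (φ k) ^ 2 ≤ 1 / ((φ k : ℝ) + 1) := one_div_le_one_div_of_le h8 h7
    calc 1 - 1 / ((φ k : ℝ) + 1) ≤ 1 - 1 / t (φ k) ^ 2 := by linarith
      _ = (t (φ k))⁻¹ ^ 2 * (t (φ k) ^ 2 - 1) := by
        rw [inv_pow, mul_sub, inv_mul_cancel₀ h6.ne', mul_one, one_div]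
      _ ≤ (t (φ k))⁻¹ ^ 2 * tsq (cj u (C (φ k))) :=
        mul_le_mul_of_nonneg_left (by linarith) (by positivity)
  have htr : ∀ w : List ι, w ≠ [] → trace ((w.map L).prod) = 0 := by
    intro w hw
    obtain ⟨M, hM⟩ := h w hw
    have h1 : Tendsto (fun k => trace ((w.map (B (φ k))).prod)) atTop
        (𝓝 (trace ((w.map L).prod))) :=
      (((continuous_word w).matrix_trace).tendsto L).comp hlim
    have h2 : Tendsto (fun k => trace ((w.map (B (φ k))).prod)) atTop (𝓝 0) := by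
      have h3 : Tendsto (fun k : ℕ => M * (Real.sqrt ((φ k : ℝ) + 1))⁻¹) atTop (𝓝 (M * 0)) := by
        refine tendsto_const_nhds.mul ?_
        refine tendsto_inv_atTop_zero.comp ?_
        refine Real.tendsto_sqrt_atTop.comp ?_
        exact tendsto_atTop_add_const_right _ _
          (tendsto_natCast_atTop_atTop.comp hφ.tendsto_atTop)
      rw [mul_zero] at h3
      refine squeeze_zero_norm (fun k => ?_) h3
      have h4 : (w.map (B (φ k))).prod = ((t (φ k))⁻¹ : 𝕜) ^ w.length • (w.map (C (φ k))).prod :=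
        word_smul _ _ _
      rw [h4, Matrix.trace_smul, norm_smul, norm_pow, hnorm, mul_comm]
      have h5 : trace ((w.map (C (φ k))).prod) = trace ((w.map (A (a (φ k)))).prod) :=
        trace_word_cj _ _ _
      rw [h5]
      have h6 : (t (φ k))⁻¹ ≤ (Real.sqrt ((φ k : ℝ) + 1))⁻¹ :=
        inv_anti₀ (Real.sqrt_pos.2 (by positivity)) (htk _)
      have h7 : (t (φ k))⁻¹ ≤ 1 := inv_le_one_of_one_le₀ (ht1 _)
      have h8 : 0 ≤ (t (φ k))⁻¹ := inv_nonneg.2 (htpos _).le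
      have h9 : (t (φ k))⁻¹ ^ w.length ≤ (t (φ k))⁻¹ := by
        have : 1 ≤ w.length := List.length_pos_iff.2 hw
        calc (t (φ k))⁻¹ ^ w.length ≤ (t (φ k))⁻¹ ^ 1 := pow_le_pow_of_le_one h8 h7 this
          _ = _ := pow_one _
      have hM0 : 0 ≤ M := (norm_nonneg _).trans (hM (a (φ k)))
      exact mul_le_mul (hM _) (h9.trans h6) (pow_nonneg h8 _) hM0
    exact tendsto_nhds_unique h1 h2
  have h0 := min_nil_eq_zero hmin htr
  rw [hL1] at h0
  exact one_ne_zero h0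

/-- A sequence of tuples such that the traces of every word converge can be conjugated, after
passing to a subsequence, to a sequence converging to a tuple of minimal norm in its conjugacy
class. -/
theorem exists_limit (A : ℕ → ι → Matrix n n 𝕜) (τ : List ι → 𝕜)
    (h : ∀ w : List ι, w ≠ [] → Tendsto (fun k => trace ((w.map (A k)).prod)) atTop (𝓝 (τ w))) :
    ∃ (g : ℕ → (Matrix n n 𝕜)ˣ) (φ : ℕ → ℕ) (B : ι → Matrix n n 𝕜), StrictMono φ ∧
      Tendsto (fun k => cj (g k) (A (φ k))) atTop (𝓝 B) ∧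
      (∀ u : (Matrix n n 𝕜)ˣ, tsq B ≤ tsq (cj u B)) ∧
      ∀ w : List ι, w ≠ [] → trace ((w.map B).prod) = τ w := by
  obtain ⟨R, hR⟩ := exists_bound A (fun w hw => by
    obtain ⟨C, hC⟩ := (h w hw).norm.bddAbove_range
    exact ⟨C, fun k => hC ⟨k, rfl⟩⟩)
  set m : ℕ → ℝ := fun k => ⨅ g : (Matrix n n 𝕜)ˣ, tsq (cj g (A k)) with hm
  have hbdd : ∀ k, BddBelow (Set.range fun g : (Matrix n n 𝕜)ˣ => tsq (cj g (A k))) :=
    fun k => ⟨0, by rintro _ ⟨g, rfl⟩; exact tsq_nonneg _⟩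
  have hmle : ∀ k g, m k ≤ tsq (cj g (A k)) := fun k g => ciInf_le (hbdd k) g
  have hmR : ∀ k, m k ≤ R := fun k => by
    obtain ⟨g, hg⟩ := hR k
    exact (hmle k g).trans hg
  have hex : ∀ k : ℕ, ∃ g : (Matrix n n 𝕜)ˣ, tsq (cj g (A k)) < m k + 1 / ((k : ℝ) + 1) :=
    fun k => exists_lt_of_ciInf_lt (lt_add_of_pos_right _ (by positivity))
  choose g hg using hex
  set C : ℕ → ι → Matrix n n 𝕜 := fun k => cj (g k) (A k) with hC
  have hCR : ∀ k, tsq (C k) ≤ R + 1 := by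
    intro k
    have h1 : (1 : ℝ) / ((k : ℝ) + 1) ≤ 1 := by
      rw [div_le_one (by positivity)]
      have h2 : (0 : ℝ) ≤ (k : ℝ) := Nat.cast_nonneg k
      linarith
    have h2 : tsq (C k) < m k + 1 / ((k : ℝ) + 1) := hg k
    have h3 := hmR k
    linarith
  obtain ⟨B, φ, hφ, hlim⟩ := exists_subseq hCR
  refine ⟨fun k => g (φ k), φ, B, hφ, hlim, ?_, ?_⟩
  · intro u
    have h1 : Tendsto (fun k => tsq (cj u (C (φ k)))) atTop (𝓝 (tsq (cj u B))) :=
      ((continuous_tsq.comp (continuous_cj u)).tendsto B).comp hlim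
    have h2 : Tendsto (fun k : ℕ => tsq (C (φ k)) - 1 / ((φ k : ℝ) + 1)) atTop
        (𝓝 (tsq B - 0)) := by
      refine ((continuous_tsq.tendsto B).comp hlim).sub ?_
      exact (tendsto_one_div_add_atTop_nhds_zero_nat (𝕜 := ℝ)).comp hφ.tendsto_atTop
    rw [sub_zero] at h2
    refine le_of_tendsto_of_tendsto' h2 h1 fun k => ?_
    have h4 : m (φ k) ≤ tsq (cj u (C (φ k))) := by
      show m (φ k) ≤ tsq (cj u (cj (g (φ k)) (A (φ k))))
      rw [cj_mul]
      exact hmle _ _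
    have h5 : tsq (C (φ k)) < m (φ k) + 1 / ((φ k : ℝ) + 1) := hg (φ k)
    linarith
  · intro w hw
    have h1 : Tendsto (fun k => trace ((w.map (C (φ k))).prod)) atTop
        (𝓝 (trace ((w.map B).prod))) :=
      (((continuous_word w).matrix_trace).tendsto B).comp hlim
    have h2 : (fun k => trace ((w.map (C (φ k))).prod)) =
        fun k => trace ((w.map (A (φ k))).prod) := by
      funext k
      exact trace_word_cj _ _ _
    rw [h2] at h1
    exact tendsto_nhds_unique h1 ((h w hw).comp hφ.tendsto_atTop)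

end Pool.Agent.TH623.SA
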