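import Pool.Agent.TH623.SA.Irr
import Pool.Agent.TH623.SA.Bdd

set_option autoImplicit false
set_option linter.unusedSectionVars false

open Matrix UpperHalfPlane Metric
open scoped MatrixGroups Kronecker

namespace Pool.Agent.TH623.SA

/-! ### The sum of the absolute values of the entries -/

section K

variable {n : Type*} [Fintype n] [DecidableEq n]

/-- the sum of the absolute values of the entries -/
noncomputable def Kn (A : Matrix n n ℂ) : ℝ := ∑ a, ∑ b, ‖A a b‖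

theorem Kn_nonneg (A : Matrix n n ℂ) : 0 ≤ Kn A :=
  Finset.sum_nonneg fun _ _ => Finset.sum_nonneg fun _ _ => norm_nonneg _

theorem norm_le_Kn (A : Matrix n n ℂ) (a b : n) : ‖A a b‖ ≤ Kn A := by
  have h1 : ‖A a b‖ ≤ ∑ b, ‖A a b‖ :=
    Finset.single_le_sum (f := fun b => ‖A a b‖) (fun _ _ => norm_nonneg _) (Finset.mem_univ b)
  have h2 : ∑ b, ‖A a b‖ ≤ Kn A :=
    Finset.single_le_sum (f := fun a => ∑ b, ‖A a b‖)
      (fun _ _ => Finset.sum_nonneg fun _ _ => norm_nonneg _) (Finset.mem_univ a)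
  exact h1.trans h2

theorem Kn_mul (A B : Matrix n n ℂ) : Kn (A * B) ≤ Kn A * Kn B := by
  have h1 : ∀ a, ∑ b, ‖(A * B) a b‖ ≤ (∑ c, ‖A a c‖) * Kn B := by
    intro a
    calc ∑ b, ‖(A * B) a b‖ ≤ ∑ b, ∑ c, ‖A a c‖ * ‖B c b‖ := by
          refine Finset.sum_le_sum fun b _ => ?_
          rw [Matrix.mul_apply]
          refine (norm_sum_le _ _).trans ?_
          exact Finset.sum_le_sum fun c _ => norm_mul_le _ _
      _ = ∑ c, ‖A a c‖ * ∑ b, ‖B c b‖ := by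
          rw [Finset.sum_comm]
          exact Finset.sum_congr rfl fun c _ => by rw [Finset.mul_sum]
      _ ≤ ∑ c, ‖A a c‖ * Kn B := by
          refine Finset.sum_le_sum fun c _ => ?_
          refine mul_le_mul_of_nonneg_left ?_ (norm_nonneg _)
          exact Finset.single_le_sum (f := fun a => ∑ b, ‖B a b‖)
            (fun _ _ => Finset.sum_nonneg fun _ _ => norm_nonneg _) (Finset.mem_univ c)
      _ = _ := by rw [Finset.sum_mul]
  unfold Kn at *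
  rw [Finset.sum_mul]
  exact Finset.sum_le_sum fun a _ => h1 a

theorem Kn_pow (A : Matrix n n ℂ) (m : ℕ) : Kn (A ^ m) ≤ Kn (1 : Matrix n n ℂ) * Kn A ^ m := by
  induction m with
  | zero => simp
  | succ m ih =>
    rw [pow_succ, pow_succ, ← mul_assoc]
    exact (Kn_mul _ _).trans (mul_le_mul_of_nonneg_right ih (Kn_nonneg _))

theorem norm_mulVec_le (A : Matrix n n ℂ) (v : n → ℂ) : ‖A *ᵥ v‖ ≤ Kn A * ‖v‖ := by
  rw [pi_norm_le_iff_of_nonneg (mul_nonneg (Kn_nonneg _) (norm_nonneg _))]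
  intro a
  calc ‖(A *ᵥ v) a‖ ≤ ∑ b, ‖A a b‖ * ‖v b‖ := by
        rw [Matrix.mulVec, dotProduct]
        refine (norm_sum_le _ _).trans ?_
        exact Finset.sum_le_sum fun c _ => norm_mul_le _ _
    _ ≤ ∑ b, ‖A a b‖ * ‖v‖ :=
        Finset.sum_le_sum fun b _ => mul_le_mul_of_nonneg_left (norm_le_pi_norm v b) (norm_nonneg _)
    _ = (∑ b, ‖A a b‖) * ‖v‖ := by rw [Finset.sum_mul]
    _ ≤ Kn A * ‖v‖ := by
        refine mul_le_mul_of_nonneg_right ?_ (norm_nonneg _)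
        exact Finset.single_le_sum (f := fun a => ∑ b, ‖A a b‖)
          (fun _ _ => Finset.sum_nonneg fun _ _ => norm_nonneg _) (Finset.mem_univ a)

theorem Kn_le_of_nsq {A : Matrix n n ℂ} {R : ℝ} (hR : 0 ≤ R) (h : nsq A ≤ R ^ 2) :
    Kn A ≤ (Fintype.card n : ℝ) ^ 2 * R := by
  have h1 : ∀ a b, ‖A a b‖ ≤ R := by
    intro a b
    have h2 : ‖A a b‖ ^ 2 ≤ R ^ 2 := by
      refine le_trans ?_ h
      have h1 : ‖A a b‖ ^ 2 ≤ ∑ b, ‖A a b‖ ^ 2 :=
        Finset.single_le_sum (f := fun b => ‖A a b‖ ^ 2) (fun _ _ => by positivity)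
          (Finset.mem_univ b)
      have h2 : ∑ b, ‖A a b‖ ^ 2 ≤ nsq A :=
        Finset.single_le_sum (f := fun a => ∑ b, ‖A a b‖ ^ 2)
          (fun _ _ => Finset.sum_nonneg fun _ _ => by positivity) (Finset.mem_univ a)
      exact h1.trans h2
    exact (sq_le_sq₀ (norm_nonneg _) hR).1 h2
  calc Kn A ≤ ∑ a : n, ∑ b : n, R :=
        Finset.sum_le_sum fun a _ => Finset.sum_le_sum fun b _ => h1 a b
    _ = _ := by simp; ring

/-- A matrix whose powers grow like `c ^ m` on some vector has no conjugate of small norm. -/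
theorem le_of_growth {Q Y w w' : Matrix n n ℂ} (hw : w' * w = 1) (hw' : w * w' = 1)
    (hQ : Q = w' * Y * w) {v : n → ℂ} (hv : 0 < ‖v‖) {c : ℝ}
    (h : ∀ m : ℕ, c ^ m * ‖v‖ ≤ ‖(Q ^ m) *ᵥ v‖) : c ≤ Kn Y := by
  have hpow : ∀ m : ℕ, Q ^ m = w' * Y ^ m * w := by
    intro m
    induction m with
    | zero => rw [pow_zero, pow_zero, mul_one, hw]
    | succ m ih =>
      rw [pow_succ, ih, hQ, pow_succ]
      have : w' * Y ^ m * w * (w' * Y * w) = w' * Y ^ m * (w * w') * Y * w := by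
        simp only [Matrix.mul_assoc]
      rw [this, hw']
      simp only [Matrix.mul_assoc, Matrix.one_mul]
  set C := Kn w' * Kn (1 : Matrix n n ℂ) * Kn w with hC
  have hC0 : 0 ≤ C := mul_nonneg (mul_nonneg (Kn_nonneg _) (Kn_nonneg _)) (Kn_nonneg _)
  have hbound : ∀ m : ℕ, c ^ m ≤ C * Kn Y ^ m := by
    intro m
    have h1 : ‖(Q ^ m) *ᵥ v‖ ≤ (C * Kn Y ^ m) * ‖v‖ := by
      refine (norm_mulVec_le _ _).trans (mul_le_mul_of_nonneg_right ?_ (norm_nonneg _))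
      rw [hpow m]
      calc Kn (w' * Y ^ m * w) ≤ Kn (w' * Y ^ m) * Kn w := Kn_mul _ _
        _ ≤ (Kn w' * Kn (Y ^ m)) * Kn w := mul_le_mul_of_nonneg_right (Kn_mul _ _) (Kn_nonneg _)
        _ ≤ (Kn w' * (Kn (1 : Matrix n n ℂ) * Kn Y ^ m)) * Kn w :=
          mul_le_mul_of_nonneg_right
            (mul_le_mul_of_nonneg_left (Kn_pow _ _) (Kn_nonneg _)) (Kn_nonneg _)
        _ = C * Kn Y ^ m := by rw [hC]; ring
    have h2 := (h m).trans h1
    exact le_of_mul_le_mul_right h2 hv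
  by_contra hcon
  push Not at hcon
  have hc0 : 0 < c := (Kn_nonneg Y).trans_lt hcon
  have hlim : Filter.Tendsto (fun m : ℕ => C * (Kn Y / c) ^ m) Filter.atTop (nhds (C * 0)) :=
    (tendsto_pow_atTop_nhds_zero_of_lt_one (div_nonneg (Kn_nonneg _) hc0.le)
      ((div_lt_one hc0).2 hcon)).const_mul C
  rw [mul_zero] at hlim
  have hge : ∀ m : ℕ, 1 ≤ C * (Kn Y / c) ^ m := by
    intro m
    have h1 := hbound m
    have h2 : 0 < c ^ m := pow_pos hc0 m
    rw [div_pow, mul_div_assoc', le_div_iff₀ h2, one_mul]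
    exact h1
  have := ge_of_tendsto' hlim hge
  linarith

end K

/-! ### The cone condition -/

/-- One step of the cone argument. -/
theorem cone_step {n : Type*} [Fintype n] [DecidableEq n] (P : n → Prop) (δ : n → ℂ) {ε : ℝ}
    (hε : (Fintype.card n : ℝ) * ε ≤ 1) (M : Matrix n n ℂ)
    (hM : ∀ a b, ‖M a b - (if a = b then δ a else 0)‖ ≤ ε)
    (h1 : ∀ a, P a → 4 ≤ ‖δ a‖) (h2 : ∀ a, ¬ P a → ‖δ a‖ ≤ 1) (v : n → ℂ)
    (hv : ∃ a, P a ∧ ‖v a‖ = ‖v‖) :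
    (∃ a, P a ∧ ‖(M *ᵥ v) a‖ = ‖M *ᵥ v‖) ∧ 3 * ‖v‖ ≤ ‖M *ᵥ v‖ := by
  have hdiff : ∀ a, ‖(M *ᵥ v) a - δ a * v a‖ ≤ ‖v‖ := by
    intro a
    have e1 : (M *ᵥ v) a - δ a * v a = ∑ b, (M a b - (if a = b then δ a else 0)) * v b := by
      simp only [Matrix.mulVec, dotProduct, sub_mul, Finset.sum_sub_distrib, ite_mul, zero_mul,
        Finset.sum_ite_eq, Finset.mem_univ, if_true]
    rw [e1]
    calc ‖∑ b, (M a b - (if a = b then δ a else 0)) * v b‖
        ≤ ∑ b, ‖(M a b - (if a = b then δ a else 0)) * v b‖ := norm_sum_le _ _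
      _ ≤ ∑ _b : n, ε * ‖v‖ := by
          refine Finset.sum_le_sum fun b _ => ?_
          rw [norm_mul]
          have hε0 : 0 ≤ ε := (norm_nonneg _).trans (hM a b)
          exact mul_le_mul (hM a b) (norm_le_pi_norm v b) (norm_nonneg _) hε0
      _ = (Fintype.card n : ℝ) * ε * ‖v‖ := by simp; ring
      _ ≤ 1 * ‖v‖ := mul_le_mul_of_nonneg_right hε (norm_nonneg _)
      _ = ‖v‖ := one_mul _
  obtain ⟨a, ha, hva⟩ := hv
  have hbig : 3 * ‖v‖ ≤ ‖(M *ᵥ v) a‖ := by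
    have e1 : ‖δ a * v a‖ ≤ ‖(M *ᵥ v) a‖ + ‖(M *ᵥ v) a - δ a * v a‖ := by
      have : δ a * v a = (M *ᵥ v) a - ((M *ᵥ v) a - δ a * v a) := by ring
      conv_lhs => rw [this]
      exact norm_sub_le _ _
    have e2 : 4 * ‖v‖ ≤ ‖δ a * v a‖ := by
      rw [norm_mul, hva]
      exact mul_le_mul_of_nonneg_right (h1 a ha) (norm_nonneg _)
    have e3 := hdiff a
    linarith
  have hsmall : ∀ b, ¬ P b → ‖(M *ᵥ v) b‖ ≤ ‖(M *ᵥ v) a‖ := by
    intro b hb
    have e1 : ‖(M *ᵥ v) b‖ ≤ ‖(M *ᵥ v) b - δ b * v b‖ + ‖δ b * v b‖ := by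
      have := norm_add_le ((M *ᵥ v) b - δ b * v b) (δ b * v b)
      rwa [sub_add_cancel] at this
    have e2 : ‖δ b * v b‖ ≤ 1 * ‖v‖ := by
      rw [norm_mul]
      exact mul_le_mul (h2 b hb) (norm_le_pi_norm v b) (norm_nonneg _) zero_le_one
    have e3 := hdiff b
    have e4 := norm_nonneg v
    linarith
  have hle : ‖(M *ᵥ v) a‖ ≤ ‖M *ᵥ v‖ := norm_le_pi_norm _ a
  refine ⟨?_, hbig.trans hle⟩
  have : Nonempty n := ⟨a⟩
  obtain ⟨c, hc⟩ : ∃ c, ‖(M *ᵥ v) c‖ = ‖M *ᵥ v‖ := by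
    obtain ⟨c, -, hc⟩ := Finset.exists_max_image Finset.univ (fun c => ‖(M *ᵥ v) c‖)
      ⟨a, Finset.mem_univ a⟩
    refine ⟨c, le_antisymm (norm_le_pi_norm _ c) ?_⟩
    exact (pi_norm_le_iff_of_nonneg (norm_nonneg _)).2 fun b => hc b (Finset.mem_univ b)
  by_cases hPc : P c
  · exact ⟨c, hPc, hc⟩
  · exact ⟨a, ha, le_antisymm hle (by rw [← hc]; exact hsmall c hPc)⟩

/-! ### The block representation -/

/-- the index set of `(ℂ²)^j ⊕ ℂ^r` -/
abbrev Idx (j r : ℕ) : Type := (Fin j × Fin 2) ⊕ Fin r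

/-- the complexification of a matrix in `SL(2, ℝ)` -/
noncomputable def cx (g : SL(2, ℝ)) : Matrix (Fin 2) (Fin 2) ℂ := g.1.map (fun x : ℝ => (x : ℂ))

theorem cx_one : cx 1 = 1 := by
  unfold cx
  simp

theorem cx_mul (g h : SL(2, ℝ)) : cx (g * h) = cx g * cx h := by
  ext a b
  simp [cx, Matrix.mul_apply]

/-- the block diagonal matrix with `j` blocks `g` and `r` blocks `1` -/
noncomputable def Phi (j r : ℕ) (g : SL(2, ℝ)) : Matrix (Idx j r) (Idx j r) ℂ :=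
  Matrix.fromBlocks ((1 : Matrix (Fin j) (Fin j) ℂ) ⊗ₖ cx g) 0 0 1

theorem Phi_one (j r : ℕ) : Phi j r 1 = 1 := by
  unfold Phi
  rw [cx_one, Matrix.one_kronecker_one, Matrix.fromBlocks_one]

theorem Phi_mul (j r : ℕ) (g h : SL(2, ℝ)) : Phi j r (g * h) = Phi j r g * Phi j r h := by
  unfold Phi
  rw [Matrix.fromBlocks_multiply, cx_mul, ← Matrix.mul_kronecker_mul]
  simp

theorem Phi_det (j r : ℕ) (g : SL(2, ℝ)) : (Phi j r g).det = 1 := by
  unfold Phi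
  rw [Matrix.det_fromBlocks_zero₂₁, Matrix.det_kronecker, Matrix.det_one, Matrix.det_one]
  have : (cx g).det = 1 := by
    have h1 := g.2
    unfold cx
    have h2 : (g.1.map (fun x : ℝ => (x : ℂ))) = (Complex.ofRealHom.mapMatrix g.1) := rfl
    rw [h2, ← RingHom.map_det, h1, map_one]
  rw [this]
  simp

theorem Phi_entry_bd (j r : ℕ) {R : ℝ} (hR : 1 ≤ R) {g : SL(2, ℝ)} (hg : Bd R g)
    (a b : Idx j r) : ‖Phi j r g a b‖ ≤ R := by
  rcases a with ⟨i, a⟩ | a <;> rcases b with ⟨i', b⟩ | b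
  · show ‖((1 : Matrix (Fin j) (Fin j) ℂ) ⊗ₖ cx g) (i, a) (i', b)‖ ≤ R
    rw [Matrix.kronecker_apply, norm_mul]
    have h1 : ‖cx g a b‖ ≤ R := by
      show ‖((g a b : ℝ) : ℂ)‖ ≤ R
      rw [Complex.norm_real]
      exact hg a b
    have h2 : ‖(1 : Matrix (Fin j) (Fin j) ℂ) i i'‖ ≤ 1 := by
      rw [Matrix.one_apply]
      split_ifs <;> simp
    calc _ ≤ 1 * R := mul_le_mul h2 h1 (norm_nonneg _) zero_le_one
      _ = R := one_mul R
  · show ‖(0 : ℂ)‖ ≤ R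
    rw [norm_zero]; linarith
  · show ‖(0 : ℂ)‖ ≤ R
    rw [norm_zero]; linarith
  · show ‖(1 : Matrix (Fin r) (Fin r) ℂ) a b‖ ≤ R
    rw [Matrix.one_apply]
    split_ifs
    · rw [norm_one]; exact hR
    · rw [norm_zero]; linarith

/-- the diagonal entries of the image of a diagonal matrix -/
noncomputable def dd (j r : ℕ) (t : ℝ) : Idx j r → ℂ
  | Sum.inl (_, a) => if a = 0 then (Real.exp (t / 2) : ℂ) else (Real.exp (-(t / 2)) : ℂ)
  | Sum.inr _ => 1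

theorem Phi_aa (j r : ℕ) (t : ℝ) (a b : Idx j r) :
    Phi j r (aa t) a b = if a = b then dd j r t a else 0 := by
  rcases a with ⟨i, a⟩ | a <;> rcases b with ⟨i', b⟩ | b
  · show ((1 : Matrix (Fin j) (Fin j) ℂ) ⊗ₖ cx (aa t)) (i, a) (i', b) = _
    rw [Matrix.kronecker_apply, Matrix.one_apply]
    have hcx : cx (aa t) a b = if a = b then
        (if a = 0 then (Real.exp (t / 2) : ℂ) else (Real.exp (-(t / 2)) : ℂ)) else 0 := by
      show (((aa t) a b : ℝ) : ℂ) = _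
      fin_cases a <;> fin_cases b <;> simp
    rw [hcx]
    by_cases h1 : i = i'
    · by_cases h2 : a = b
      · simp [h1, h2, dd]
      · simp [h1, h2]
    · simp [h1]
  · simp [Phi]
  · simp [Phi]
  · show (1 : Matrix (Fin r) (Fin r) ℂ) a b = _
    rw [Matrix.one_apply]
    simp [dd]

end Pool.Agent.TH623.SA
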