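import Pool.Agent.TH623.SA.SL2

/-!
# Simple Anosov representations of surface groups: definitions

`Γ ≤ SL(2, ℝ)` is the group of a closed hyperbolic surface `S = Γ \ ℍ`
(`IsSurfaceGroup`, in `Pool.Agent.TH623.SA.SL2`).
-/

set_option autoImplicit false

open Matrix UpperHalfPlane Metric
open scoped MatrixGroups

namespace Pool.Agent.TH623.SA

/-- `T¹ℍ`: a unit tangent vector of `ℍ` is given by the complete unit speed geodesic which it
generates, i.e. by an isometric embedding `c : ℝ → ℍ`. -/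
def UT : Type := {c : ℝ → ℍ // Isometry c}

/-- The topology of `T¹ℍ` is the topology of pointwise convergence of geodesics. -/
noncomputable instance : TopologicalSpace UT := instTopologicalSpaceSubtype

/-- the geodesic flow on `T¹ℍ` -/
def flow (t : ℝ) (c : UT) : UT :=
  ⟨fun s => c.1 (s + t), c.2.comp (isometry_add_right t)⟩

/-- the action of `SL(2, ℝ)` on `T¹ℍ` -/
noncomputable def move (g : SL(2, ℝ)) (c : UT) : UT :=
  ⟨fun s => g • c.1 s, (isometry_smul ℍ g).comp c.2⟩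

/-- `c ∈ T¹ℍ` is the lift of a unit tangent vector of `Γ \ ℍ` which generates a simple closed
geodesic: some element of `Γ` translates the geodesic along itself, and every translate of the
geodesic by an element of `Γ` which meets the geodesic is equal to it. -/
def IsSimpleClosed (Γ : Subgroup SL(2, ℝ)) (c : UT) : Prop :=
  (∃ γ ∈ Γ, ∃ ℓ : ℝ, 0 < ℓ ∧ move γ c = flow ℓ c) ∧
  ∀ g ∈ Γ, (∃ s t : ℝ, g • c.1 s = c.1 t) →
    Set.range (fun s => g • c.1 s) = Set.range (fun s => c.1 s)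

/-- the preimage in `T¹ℍ` of the Birman-Series set of `Γ \ ℍ`: the closure of the union of all
(lifts of) simple closed geodesics -/
def birmanSeries (Γ : Subgroup SL(2, ℝ)) : Set UT := closure {c | IsSimpleClosed Γ c}

/-- `ρ : Γ → SL(d, ℂ)` is simple `k`-Anosov: the flat bundle
`E_ρ = Γ \ (T¹ℍ × ℂ^d)` over the Birman-Series set has a dominated splitting `E^u ⊕ E^s` of
rank `k`. The splitting is given by the `Γ`-equivariant continuous field `P` of projections with
range `E^u` and kernel `E^s`, the metric by the `Γ`-invariant continuous field `N` of norms; the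
flow acts on `T¹ℍ × ℂ^d` by `(x, v) ↦ (flow t x, v)`. -/
def IsSimpleAnosov (Γ : Subgroup SL(2, ℝ)) {d : ℕ} (k : ℕ)
    (ρ : Γ →* SpecialLinearGroup (Fin d) ℂ) : Prop :=
  ∃ (P : UT → Matrix (Fin d) (Fin d) ℂ) (N : UT → Seminorm ℂ (Fin d → ℂ)) (C c : ℝ),
    0 < C ∧ 0 < c ∧
    ContinuousOn P (birmanSeries Γ) ∧
    ContinuousOn (fun p : UT × (Fin d → ℂ) => N p.1 p.2) (birmanSeries Γ ×ˢ Set.univ) ∧
    ∀ x ∈ birmanSeries Γ,
      P x * P x = P x ∧ (P x).rank = k ∧ (∀ v : Fin d → ℂ, v ≠ 0 → 0 < N x v) ∧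
      (∀ t : ℝ, P (flow t x) = P x) ∧
      (∀ γ : Γ, P (move γ x) = (ρ γ).1 * P x * (ρ γ⁻¹).1) ∧
      (∀ (γ : Γ) (v : Fin d → ℂ), N (move γ x) ((ρ γ).1 *ᵥ v) = N x v) ∧
      ∀ v w : Fin d → ℂ, v ≠ 0 → w ≠ 0 → P x *ᵥ v = v → P x *ᵥ w = 0 → ∀ t : ℝ, 0 ≤ t →
        N (flow t x) w / N x w ≤ C * Real.exp (-(c * t)) * (N (flow t x) v / N x v)

/-- The character variety of `Γ` in `SL(d, ℂ)`. The points of the GIT quotient of
`Hom(Γ, SL(d, ℂ))` by conjugation are the characters `γ ↦ tr ρ(γ)`. -/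
def CharVar (Γ : Subgroup SL(2, ℝ)) (d : ℕ) : Type :=
  {f : Γ → ℂ // ∃ ρ : Γ →* SpecialLinearGroup (Fin d) ℂ, ∀ γ, f γ = (ρ γ).1.trace}

/-- the topology of the character variety: pointwise convergence of characters -/
noncomputable instance (Γ : Subgroup SL(2, ℝ)) (d : ℕ) : TopologicalSpace (CharVar Γ d) :=
  instTopologicalSpaceSubtype

/-- the outer automorphism group `Out(Γ) = Mod(S)`, as the set of cosets of the group of inner
automorphisms in the automorphism group -/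
abbrev OutG (Γ : Subgroup SL(2, ℝ)) : Type := MulAut Γ ⧸ (MulAut.conj (G := Γ)).range

/-- the action of the automorphisms of `Γ` (through `Out(Γ)`) on the character variety -/
def act {Γ : Subgroup SL(2, ℝ)} {d : ℕ} (ψ : MulAut Γ) (x : CharVar Γ d) : CharVar Γ d :=
  ⟨fun γ => x.1 (ψ⁻¹ γ), by
    obtain ⟨ρ, hρ⟩ := x.2
    exact ⟨ρ.comp (ψ⁻¹ : MulAut Γ).toMonoidHom, fun γ => hρ _⟩⟩

/-- `U` is a domain of discontinuity: it is open, invariant under the mapping class group, and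
the mapping class group acts properly discontinuously on it. -/
def IsDomainOfDiscontinuity {Γ : Subgroup SL(2, ℝ)} {d : ℕ} (U : Set (CharVar Γ d)) : Prop :=
  IsOpen U ∧ (∀ ψ : MulAut Γ, ∀ x ∈ U, act ψ x ∈ U) ∧
  ∀ K ⊆ U, IsCompact K →
    {c : OutG Γ | ∃ ψ : MulAut Γ, (ψ : OutG Γ) = c ∧ ∃ x ∈ K, act ψ x ∈ K}.Finite

/-- `U` is a maximal domain of discontinuity: it is not properly contained in another one. -/
def IsMaximalDomain {Γ : Subgroup SL(2, ℝ)} {d : ℕ} (U : Set (CharVar Γ d)) : Prop :=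
  IsDomainOfDiscontinuity U ∧ ∀ V, IsDomainOfDiscontinuity V → U ⊆ V → V = U

/-- the simple `k`-Anosov domain in the character variety -/
def simpleAnosovDomain (Γ : Subgroup SL(2, ℝ)) (d k : ℕ) : Set (CharVar Γ d) :=
  {x | ∃ ρ : Γ →* SpecialLinearGroup (Fin d) ℂ, IsSimpleAnosov Γ k ρ ∧
    ∀ γ, x.1 γ = (ρ γ).1.trace}

end Pool.Agent.TH623.SA
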