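import Pool.Agent.TH623.SA.Sys
import Pool.Agent.TH623.SA.Bdd
import Pool.Agent.TH623.SA.Defs

set_option autoImplicit false

open Matrix UpperHalfPlane Metric
open scoped MatrixGroups

namespace Pool.Agent.TH623.SA

theorem sq_entry_le_nsq {n : Type*} [Fintype n] [DecidableEq n] {𝕜 : Type*} [RCLike 𝕜]
    (A : Matrix n n 𝕜) (a b : n) : ‖A a b‖ ^ 2 ≤ nsq A := by
  unfold nsq
  calc ‖A a b‖ ^ 2 ≤ ∑ j, ‖A a j‖ ^ 2 :=
        Finset.single_le_sum (f := fun j => ‖A a j‖ ^ 2) (fun _ _ => by positivity)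
          (Finset.mem_univ b)
    _ ≤ ∑ i, ∑ j, ‖A i j‖ ^ 2 :=
        Finset.single_le_sum (f := fun i => ∑ j, ‖A i j‖ ^ 2)
          (fun _ _ => Finset.sum_nonneg fun _ _ => by positivity) (Finset.mem_univ a)

/-- conjugation by an invertible real matrix can be replaced by conjugation by a matrix of
determinant one without changing the Frobenius norms -/
theorem exists_normalized (g : (Matrix (Fin 2) (Fin 2) ℝ)ˣ) :
    ∃ h : SL(2, ℝ), ∀ M : SL(2, ℝ), nsq (h * M * h⁻¹ : SL(2, ℝ)).1 = nsq (g.1 * M.1 * g⁻¹.1) := by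
  have hD : g.1.det ≠ 0 := by
    have := (Matrix.isUnit_iff_isUnit_det g.1).1 g.isUnit
    exact this.ne_zero
  obtain ⟨J, hJ, hJJ, hJd, hJn⟩ : ∃ J : Matrix (Fin 2) (Fin 2) ℝ, (J * g.1).det = |g.1.det| ∧
      J * J = 1 ∧ True ∧ ∀ X : Matrix (Fin 2) (Fin 2) ℝ, nsq (J * X * J) = nsq X := by
    rcases lt_or_gt_of_ne hD with h | h
    · refine ⟨!![1, 0; 0, -1], ?_, ?_, trivial, ?_⟩
      · rw [det_mul, Matrix.det_fin_two_of, abs_of_neg h]; ring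
      · ext i j; fin_cases i <;> fin_cases j <;> simp [Matrix.mul_apply, Fin.sum_univ_two]
      · intro X
        simp [nsq, Matrix.mul_apply, Fin.sum_univ_two, Matrix.vecMul, dotProduct]
    · refine ⟨1, ?_, ?_, trivial, ?_⟩
      · rw [one_mul, abs_of_pos h]
      · simp
      · intro X; simp
  set r : ℝ := Real.sqrt |g.1.det| with hr
  have hr0 : 0 < r := Real.sqrt_pos.2 (abs_pos.2 hD)
  have hr2 : r ^ 2 = |g.1.det| := Real.sq_sqrt (abs_nonneg _)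
  have hdet : (r⁻¹ • (J * g.1)).det = 1 := by
    rw [Matrix.det_smul, hJ, Fintype.card_fin, ← hr2, ← mul_pow, inv_mul_cancel₀ hr0.ne', one_pow]
  obtain ⟨H, hH⟩ : ∃ H : SL(2, ℝ), H.1 = r⁻¹ • (J * g.1) := ⟨⟨_, hdet⟩, rfl⟩
  refine ⟨H, fun M => ?_⟩
  have hinv : (H⁻¹ : SL(2, ℝ)).1 = r • (g⁻¹.1 * J) := by
    have h1 : H.1 * (H⁻¹ : SL(2, ℝ)).1 = 1 := by
      rw [← Matrix.SpecialLinearGroup.coe_mul, mul_inv_cancel]; rfl
    have h2 : (r • (g⁻¹.1 * J)) * H.1 = 1 := by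
      rw [hH, Matrix.smul_mul, Matrix.mul_smul, smul_smul, mul_inv_cancel₀ hr0.ne', one_smul]
      calc g⁻¹.1 * J * (J * g.1) = g⁻¹.1 * (J * J) * g.1 := by noncomm_ring
        _ = 1 := by rw [hJJ, mul_one, Units.inv_mul]
    calc (H⁻¹ : SL(2, ℝ)).1
        = ((r • (g⁻¹.1 * J)) * H.1) * (H⁻¹ : SL(2, ℝ)).1 := by
          rw [h2, one_mul]
      _ = r • (g⁻¹.1 * J) := by rw [mul_assoc, h1, mul_one]
  have hmul : (H * M * H⁻¹ : SL(2, ℝ)).1 = J * (g.1 * M.1 * g⁻¹.1) * J := by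
    rw [Matrix.SpecialLinearGroup.coe_mul, Matrix.SpecialLinearGroup.coe_mul, hinv, hH]
    rw [Matrix.smul_mul, Matrix.smul_mul, Matrix.mul_smul, smul_smul, inv_mul_cancel₀ hr0.ne',
      one_smul]
    noncomm_ring
  rw [hmul, hJn]

variable {Γ : Subgroup SL(2, ℝ)}

/-- Only finitely many outer classes of automorphisms have traces below a given bound. -/
theorem count (hΓ : IsSurfaceGroup Γ) (b : Γ → ℝ) :
    {c : OutG Γ | ∃ ψ : MulAut Γ, (QuotientGroup.mk ψ : OutG Γ) = c ∧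
      ∀ γ : Γ, |t2 ((ψ γ : Γ) : SL(2, ℝ))| ≤ b γ}.Finite := by
  obtain ⟨S, hSΓ, hSinv, hS1, hSgen⟩ := exists_generators hΓ
  obtain ⟨R₀, hR₀, hround⟩ := exists_round hΓ
  let ι := {s // s ∈ S}
  let e : ι → Γ := fun s => ⟨s.1, hSΓ s.1 s.2⟩
  let α := {ψ : MulAut Γ // ∀ γ : Γ, |t2 ((ψ γ : Γ) : SL(2, ℝ))| ≤ b γ}
  let A : α → ι → Matrix (Fin 2) (Fin 2) ℝ := fun ψ s => ((ψ.1 (e s) : Γ) : SL(2, ℝ)).1
  have hword : ∀ (ψ : α) (w : List ι), (w.map (A ψ)).prod =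
      ((ψ.1 (w.map e).prod : Γ) : SL(2, ℝ)).1 := by
    intro ψ w
    induction w with
    | nil => simp
    | cons s w ih =>
      rw [List.map_cons, List.prod_cons, List.map_cons, List.prod_cons, map_mul, ih]
      rfl
  obtain ⟨R, hR⟩ := exists_bound A (fun w _ => ⟨b (w.map e).prod, fun ψ => by
    rw [hword ψ w, Matrix.trace_fin_two, Real.norm_eq_abs]
    exact ψ.2 _⟩)
  have hR1 : ∀ ψ : α, 0 ≤ R := fun ψ => by
    obtain ⟨g, hg⟩ := hR ψ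
    exact (tsq_nonneg _).trans hg
  set F : Set SL(2, ℝ) := {g : SL(2, ℝ) | g ∈ Γ ∧ Bd (2 * (2 * R₀ * Real.sqrt R) * R₀) g} with hF
  have hFfin : F.Finite := finite_bd hΓ _
  let E : MulAut Γ → (ι → SL(2, ℝ)) := fun ψ s => ((ψ (e s) : Γ) : SL(2, ℝ))
  have hEinj : Function.Injective E := by
    intro ψ ψ' h
    ext γ : 1
    obtain ⟨w, hw, hwγ⟩ := hSgen γ γ.2
    have key : ∀ w : List SL(2, ℝ), (∀ s ∈ w, s ∈ S) → ∀ γ : Γ, w.prod = γ → ψ γ = ψ' γ := by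
      intro w
      induction w with
      | nil =>
        intro _ γ hγ
        have : γ = 1 := Subtype.ext hγ.symm
        rw [this, map_one, map_one]
      | cons s w ih =>
        intro hw γ hγ
        have hsS : s ∈ S := hw s (by simp)
        have hγ2 : γ = e ⟨s, hsS⟩ * (e ⟨s, hsS⟩)⁻¹ * γ := by group
        have h2 : (w.prod : SL(2, ℝ)) = (((e ⟨s, hsS⟩)⁻¹ * γ : Γ) : SL(2, ℝ)) := by
          rw [List.prod_cons] at hγ
          show w.prod = s⁻¹ * γ.1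
          rw [← hγ]; group
        have h3 := ih (fun t ht => hw t (by simp [ht])) _ h2
        have h4 : ψ (e ⟨s, hsS⟩) = ψ' (e ⟨s, hsS⟩) := Subtype.ext (congrFun h ⟨s, hsS⟩)
        rw [hγ2, mul_assoc, map_mul ψ, map_mul ψ', h3, h4]
    exact key w hw γ hwγ
  have hTfin : (E ⁻¹' (Set.pi Set.univ fun _ => F)).Finite :=
    Set.Finite.preimage hEinj.injOn (Set.Finite.pi fun _ => hFfin)
  refine (hTfin.image (QuotientGroup.mk : MulAut Γ → OutG Γ)).subset ?_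
  rintro c ⟨ψ, hψc, hψ⟩
  obtain ⟨g, hg⟩ := hR ⟨ψ, hψ⟩
  obtain ⟨h, hh⟩ := exists_normalized g
  obtain ⟨γ, hγ, hγb⟩ := hround h⁻¹
  refine ⟨ψ * MulAut.conj (ψ.symm (⟨γ, hγ⟩⁻¹ : Γ)), ?_, ?_⟩
  · rw [Set.mem_preimage, Set.mem_univ_pi]
    intro s
    have hval : E (ψ * MulAut.conj (ψ.symm (⟨γ, hγ⟩⁻¹ : Γ))) s =
        (γ⁻¹ * h⁻¹) * (h * ((ψ (e s) : Γ) : SL(2, ℝ)) * h⁻¹) * (γ⁻¹ * h⁻¹)⁻¹ := by
      show ((ψ (MulAut.conj (ψ.symm (⟨γ, hγ⟩⁻¹ : Γ)) (e s)) : Γ) : SL(2, ℝ)) = _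
      have h5 : ψ (ψ.symm (⟨γ, hγ⟩⁻¹ : Γ)) = (⟨γ, hγ⟩⁻¹ : Γ) := ψ.apply_symm_apply _
      rw [MulAut.conj_apply, map_mul ψ, map_mul ψ, map_inv ψ, h5]
      show γ⁻¹ * ((ψ (e s) : Γ) : SL(2, ℝ)) * (γ⁻¹)⁻¹ = _
      group
    refine ⟨Subtype.coe_prop _, ?_⟩
    rw [hval]
    have hb1 : Bd (Real.sqrt R) (h * ((ψ (e s) : Γ) : SL(2, ℝ)) * h⁻¹) := by
      intro a b'
      apply Real.le_sqrt_of_sq_le
      have h1 := sq_entry_le_nsq (h * ((ψ (e s) : Γ) : SL(2, ℝ)) * h⁻¹ : SL(2, ℝ)).1 a b'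
      rw [hh] at h1
      have h2 : nsq (g.1 * ((ψ (e s) : Γ) : SL(2, ℝ)).1 * g⁻¹.1) ≤ R := by
        refine le_trans ?_ hg
        exact Finset.single_le_sum (f := fun s => nsq (cj g (A ⟨ψ, hψ⟩) s))
          (fun _ _ => nsq_nonneg _) (Finset.mem_univ s)
      have h3 := h1.trans h2
      rwa [Real.norm_eq_abs] at h3
    exact (hγb.mul hb1).mul hγb.inv
  · rw [← hψc]
    symm
    apply QuotientGroup.eq.2
    rw [inv_mul_cancel_left]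
    exact ⟨_, rfl⟩

end Pool.Agent.TH623.SA
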