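import Mathlib

set_option autoImplicit false

open Module Polynomial

namespace Pool.Agent.TH623.SA

variable {V : Type*} [AddCommGroup V] [Module ℂ V] [FiniteDimensional ℂ V]

theorem trace_eq_sum_gen (f g : End ℂ V) (h : Commute f g) (s : Finset ℂ)
    (hs : ∀ μ, μ ∉ s → f.maxGenEigenspace μ = ⊥) :
    LinearMap.trace ℂ V g = ∑ μ ∈ s, LinearMap.trace ℂ (f.maxGenEigenspace μ)
      (g.restrict (f.mapsTo_maxGenEigenspace_of_comm h μ)) := by
  have hds := DirectSum.isInternal_submodule_of_iSupIndep_of_iSup_eq_top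
    f.independent_maxGenEigenspace f.iSup_maxGenEigenspace_eq_top
  have h_fin : {μ | f.maxGenEigenspace μ ≠ ⊥}.Finite :=
    WellFoundedGT.finite_ne_bot_of_iSupIndep f.independent_maxGenEigenspace
  rw [LinearMap.trace_eq_sum_trace_restrict' hds h_fin
    (fun μ => f.mapsTo_maxGenEigenspace_of_comm h μ)]
  apply Finset.sum_subset
  · intro μ hμ
    by_contra hcon
    exact (h_fin.mem_toFinset.1 hμ) (hs μ hcon)
  · intro μ _ hμ
    have hbot : f.maxGenEigenspace μ = ⊥ := by
      by_contra hcon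
      exact hμ (h_fin.mem_toFinset.2 hcon)
    have : Subsingleton (f.maxGenEigenspace μ) := by rw [hbot]; infer_instance
    have h0 : g.restrict (f.mapsTo_maxGenEigenspace_of_comm h μ) = 0 := by
      ext v
      rw [Subsingleton.elim v 0]
      simp
    rw [h0, map_zero]

theorem trace_pow_eq (f : End ℂ V) (s : Finset ℂ)
    (hs : ∀ μ, μ ∉ s → f.maxGenEigenspace μ = ⊥) (n : ℕ) :
    LinearMap.trace ℂ V (f ^ n) = ∑ μ ∈ s, (finrank ℂ (f.maxGenEigenspace μ) : ℂ) * μ ^ n := by
  rw [trace_eq_sum_gen f (f ^ n) ((Commute.refl f).pow_right n) s hs]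
  refine Finset.sum_congr rfl fun μ _ => ?_
  have hf' := f.mapsTo_maxGenEigenspace_of_comm (Commute.refl f) μ
  have key : ∀ n : ℕ, (f ^ n).restrict (f.mapsTo_maxGenEigenspace_of_comm
      ((Commute.refl f).pow_right n) μ) = (f.restrict hf') ^ n := by
    intro n
    rw [Module.End.pow_restrict n hf']
  rw [key]
  have hnil := f.isNilpotent_restrict_maxGenEigenspace_sub_algebraMap μ
  induction n with
  | zero => rw [pow_zero, LinearMap.trace_one, pow_zero, mul_one]
  | succ n ih =>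
    rw [pow_succ (f.restrict hf')]
    have hc : Commute ((f.restrict hf') ^ n) (f.restrict hf') := (Commute.refl _).pow_left n
    have := LinearMap.trace_comp_eq_mul_of_commute_of_isNilpotent μ hc hnil
    rw [Module.End.mul_eq_comp, this, ih, pow_succ]
    ring

/-- a nonzero invariant subspace contains an eigenvector -/
theorem exists_eigen (M : End ℂ V) (W : Submodule ℂ V) (hW : W ≠ ⊥) (hinv : ∀ v ∈ W, M v ∈ W) :
    ∃ v ∈ W, v ≠ 0 ∧ ∃ ν : ℂ, M v = ν • v := by
  have : Nontrivial W := Submodule.nontrivial_iff_ne_bot.2 hW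
  obtain ⟨ν, hν⟩ := Module.End.exists_eigenvalue (M.restrict hinv)
  obtain ⟨v, hv⟩ := hν.exists_hasEigenvector
  refine ⟨v, v.2, fun h => hv.2 (Subtype.ext h), ν, ?_⟩
  have := hv.apply_eq_smul
  exact congrArg Subtype.val this

theorem eigen_in_gen (M : End ℂ V) {v : V} (hv0 : v ≠ 0) {μ ν : ℂ} (hν : M v = ν • v)
    (hv : v ∈ M.maxGenEigenspace μ) : ν = μ := by
  obtain ⟨k, hk⟩ := (Module.End.mem_maxGenEigenspace M μ v).1 hv
  have h1 : ∀ k : ℕ, ((M - μ • (1 : End ℂ V)) ^ k) v = (ν - μ) ^ k • v := by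
    intro k
    induction k with
    | zero => simp
    | succ k ih =>
      rw [pow_succ']
      show (M - μ • (1 : End ℂ V)) (((M - μ • (1 : End ℂ V)) ^ k) v) = _
      rw [ih, map_smul]
      show (ν - μ) ^ k • (M v - μ • v) = _
      rw [hν, ← sub_smul, smul_smul, pow_succ]
  rw [h1] at hk
  rcases smul_eq_zero.1 hk with h | h
  · rcases Nat.eq_zero_or_pos k with h0 | h0
    · rw [h0, pow_zero] at h; exact absurd h one_ne_zero
    · exact sub_eq_zero.1 ((pow_eq_zero_iff h0.ne').1 h)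
  · exact absurd h hv0

theorem mem_gen_of_eigen (M : End ℂ V) {v : V} {ν : ℂ} (hν : M v = ν • v) :
    v ∈ M.maxGenEigenspace ν := by
  rw [Module.End.mem_maxGenEigenspace]
  refine ⟨1, ?_⟩
  rw [pow_one]
  show M v - ν • v = 0
  rw [hν, sub_self]

/-- The dimensions of the generalised eigenspaces are determined by the traces of the powers. -/
theorem finrank_gen (M : End ℂ V) (lam : ℂ) (j r : ℕ)
    (htr : ∀ n : ℕ, LinearMap.trace ℂ V (M ^ n) = j * lam ^ n + j * lam⁻¹ ^ n + r) (ν : ℂ) :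
    (finrank ℂ (M.maxGenEigenspace ν) : ℂ) =
      j * (if ν = lam then 1 else 0) + j * (if ν = lam⁻¹ then 1 else 0) +
        r * (if ν = 1 then 1 else 0) := by
  classical
  have h_fin : {μ | M.maxGenEigenspace μ ≠ ⊥}.Finite :=
    WellFoundedGT.finite_ne_bot_of_iSupIndep M.independent_maxGenEigenspace
  set s : Finset ℂ := h_fin.toFinset ∪ {lam, lam⁻¹, 1, ν} with hs
  have hs' : ∀ μ, μ ∉ s → M.maxGenEigenspace μ = ⊥ := by
    intro μ hμ
    by_contra hcon
    exact hμ (Finset.mem_union_left _ (h_fin.mem_toFinset.2 hcon))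
  have h1 : ∀ q : ℂ[X], ∑ μ ∈ s, (finrank ℂ (M.maxGenEigenspace μ) : ℂ) * q.eval μ =
      j * q.eval lam + j * q.eval lam⁻¹ + r * q.eval 1 := by
    intro q
    induction q using Polynomial.induction_on' with
    | add p q hp hq =>
      simp only [eval_add, mul_add, Finset.sum_add_distrib]
      rw [hp, hq]; ring
    | monomial n a =>
      simp only [eval_monomial]
      have h2 := htr n
      rw [trace_pow_eq M s hs' n] at h2
      have h3 : ∑ μ ∈ s, (finrank ℂ (M.maxGenEigenspace μ) : ℂ) * (a * μ ^ n) =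
          a * ∑ μ ∈ s, (finrank ℂ (M.maxGenEigenspace μ) : ℂ) * μ ^ n := by
        rw [Finset.mul_sum]
        exact Finset.sum_congr rfl fun _ _ => by ring
      rw [h3, h2, one_pow]
      ring
  have hν : ν ∈ s := Finset.mem_union_right _ (by simp)
  have h2 := h1 (Lagrange.basis s id ν)
  have hev : ∀ μ ∈ s, (Lagrange.basis s id ν).eval μ = if ν = μ then 1 else 0 := by
    intro μ hμ
    split_ifs with h
    · rw [← h]
      exact Lagrange.eval_basis_self (v := id) Function.injective_id.injOn hν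
    · exact Lagrange.eval_basis_of_ne (v := id) h hμ
  rw [hev lam (Finset.mem_union_right _ (by simp)), hev lam⁻¹ (Finset.mem_union_right _ (by simp)),
    hev 1 (Finset.mem_union_right _ (by simp))] at h2
  rw [← h2, Finset.sum_eq_single ν]
  · rw [hev ν hν, if_pos rfl, mul_one]
  · intro μ hμ hne
    rw [hev μ hμ, if_neg hne.symm, mul_zero]
  · intro h; exact absurd hν h

/-- A dominated splitting of an endomorphism with the spectrum of the block representation. -/
theorem gap (M P : End ℂ V) (hc : Commute M P) (hP : P * P = P) (hP0 : P ≠ 0) (hP1 : P ≠ 1)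
    (lam : ℂ) (hlam : 1 < ‖lam‖) (j r : ℕ)
    (htr : ∀ n : ℕ, LinearMap.trace ℂ V (M ^ n) = j * lam ^ n + j * lam⁻¹ ^ n + r)
    (hdom : ∀ (v w : V) (ν μ : ℂ), v ≠ 0 → w ≠ 0 → P v = v → P w = 0 → M v = ν • v →
      M w = μ • w → ‖μ‖ < ‖ν‖) :
    LinearMap.trace ℂ V P = j ∨ LinearMap.trace ℂ V P = j + r := by
  classical
  have hcomm : ∀ v, M (P v) = P (M v) := fun v => congrArg (fun f : End ℂ V => f v) hc.eq
  have hPP : ∀ v, P (P v) = P v := fun v => congrArg (fun f : End ℂ V => f v) hP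
  have hl0 : lam ≠ 0 := by
    intro h; rw [h, norm_zero] at hlam; linarith
  have hlinv : ‖lam⁻¹‖ < 1 := by
    rw [norm_inv]
    exact inv_lt_one_of_one_lt₀ hlam
  have hne1 : lam ≠ lam⁻¹ := by intro h; rw [← h] at hlinv; linarith
  have hne2 : lam ≠ 1 := by intro h; rw [h, norm_one] at hlam; linarith
  have hne3 : lam⁻¹ ≠ 1 := by intro h; rw [h, norm_one] at hlinv; linarith
  have hdimV := finrank_gen M lam j r htr
  -- eigenvalues lie in the three element set
  have hev : ∀ μ : ℂ, M.maxGenEigenspace μ ≠ ⊥ → μ = lam ∨ μ = lam⁻¹ ∨ μ = 1 := by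
    intro μ hμ
    by_contra hcon
    push Not at hcon
    have h1 := hdimV μ
    rw [if_neg hcon.1, if_neg hcon.2.1, if_neg hcon.2.2] at h1
    have h2 : finrank ℂ (M.maxGenEigenspace μ) = 0 := by
      have : (finrank ℂ (M.maxGenEigenspace μ) : ℂ) = 0 := by rw [h1]; ring
      exact_mod_cast this
    exact hμ (Submodule.finrank_eq_zero.1 h2)
  have hevn : ∀ (v : V) (μ : ℂ), v ≠ 0 → M v = μ • v → μ = lam ∨ μ = lam⁻¹ ∨ μ = 1 := by
    intro v μ hv hμ
    apply hev
    intro h
    have := mem_gen_of_eigen M hμ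
    rw [h] at this
    exact hv ((Submodule.mem_bot ℂ).1 this)
  have hup : ∀ (v : V) (μ : ℂ), v ≠ 0 → M v = μ • v → ‖μ‖ ≤ ‖lam‖ := by
    intro v μ hv hμ
    rcases hevn v μ hv hμ with h | h | h
    · rw [h]
    · rw [h]; linarith
    · rw [h, norm_one]; linarith
  have hdn : ∀ (v : V) (μ : ℂ), v ≠ 0 → M v = μ • v → ‖lam⁻¹‖ ≤ ‖μ‖ := by
    intro v μ hv hμ
    rcases hevn v μ hv hμ with h | h | h
    · rw [h]; linarith
    · rw [h]
    · rw [h, norm_one]; linarith
  -- eigenvectors in the range and in the kernel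
  obtain ⟨v₀, hv₀, hv₀0, ν₀, hν₀⟩ := exists_eigen M (LinearMap.range P)
    (by rwa [Ne, LinearMap.range_eq_bot]) (by
      rintro _ ⟨v, rfl⟩
      exact ⟨M v, (hcomm v).symm⟩)
  have hPv₀ : P v₀ = v₀ := by
    obtain ⟨v, rfl⟩ := hv₀
    exact hPP v
  obtain ⟨w₀, hw₀, hw₀0, μ₀, hμ₀⟩ := exists_eigen M (LinearMap.ker P)
    (by
      intro h
      apply hP1
      ext v
      have h1 : v - P v ∈ LinearMap.ker P := by
        rw [LinearMap.mem_ker, map_sub, hPP, sub_self]
      rw [h] at h1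
      have h2 := (Submodule.mem_bot ℂ).1 h1
      exact (sub_eq_zero.1 h2).symm) (by
      intro v hv
      rw [LinearMap.mem_ker] at hv ⊢
      rw [← hcomm, hv, map_zero])
  have hPw₀ : P w₀ = 0 := hw₀
  -- generalised eigenspaces contained in the range or in the kernel
  have hrange : ∀ μ : ℂ, (∀ w, w ≠ 0 → P w = 0 → M w ≠ μ • w) →
      LinearMap.trace ℂ (M.maxGenEigenspace μ)
        (P.restrict (M.mapsTo_maxGenEigenspace_of_comm hc μ)) =
        finrank ℂ (M.maxGenEigenspace μ) := by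
    intro μ hμ
    have h1 : P.restrict (M.mapsTo_maxGenEigenspace_of_comm hc μ) = 1 := by
      ext v
      show P v = v
      have hmem := M.mapsTo_maxGenEigenspace_of_comm hc μ v.2
      by_contra hcon
      obtain ⟨x, ⟨hx1, hx2⟩, hx0, ν, hν⟩ := exists_eigen M (M.maxGenEigenspace μ ⊓ LinearMap.ker P)
        (by
          intro h
          have h2 : (v : V) - P v ∈ M.maxGenEigenspace μ ⊓ LinearMap.ker P :=
            ⟨Submodule.sub_mem _ v.2 hmem, by
              rw [SetLike.mem_coe, LinearMap.mem_ker, map_sub, hPP, sub_self]⟩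
          rw [h] at h2
          exact hcon (sub_eq_zero.1 ((Submodule.mem_bot ℂ).1 h2)).symm)
        (by
          rintro x ⟨hx1, hx2⟩
          refine ⟨M.mapsTo_maxGenEigenspace_of_comm (Commute.refl M) μ hx1, ?_⟩
          rw [SetLike.mem_coe, LinearMap.mem_ker] at hx2 ⊢
          rw [← hcomm, hx2, map_zero])
      have h3 := eigen_in_gen M hx0 hν hx1
      rw [h3] at hν
      exact hμ x hx0 hx2 hν
    rw [h1, LinearMap.trace_one]
  have hker : ∀ μ : ℂ, (∀ w, w ≠ 0 → P w = w → M w ≠ μ • w) →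
      LinearMap.trace ℂ (M.maxGenEigenspace μ)
        (P.restrict (M.mapsTo_maxGenEigenspace_of_comm hc μ)) = 0 := by
    intro μ hμ
    have h1 : P.restrict (M.mapsTo_maxGenEigenspace_of_comm hc μ) = 0 := by
      ext v
      show P v = 0
      have hmem := M.mapsTo_maxGenEigenspace_of_comm hc μ v.2
      by_contra hcon
      obtain ⟨x, ⟨hx1, hx2⟩, hx0, ν, hν⟩ :=
        exists_eigen M (M.maxGenEigenspace μ ⊓ LinearMap.range P)
        (by
          intro h
          have h2 : P v ∈ M.maxGenEigenspace μ ⊓ LinearMap.range P := ⟨hmem, ⟨v, rfl⟩⟩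
          rw [h] at h2
          exact hcon ((Submodule.mem_bot ℂ).1 h2))
        (by
          rintro x ⟨hx1, hx2⟩
          refine ⟨M.mapsTo_maxGenEigenspace_of_comm (Commute.refl M) μ hx1, ?_⟩
          obtain ⟨y, rfl⟩ := hx2
          exact ⟨M y, (hcomm y).symm⟩)
      have h3 := eigen_in_gen M hx0 hν hx1
      rw [h3] at hν
      obtain ⟨y, rfl⟩ := hx2
      exact hμ _ hx0 (hPP y) hν
    rw [h1, map_zero]
  have hsum := trace_eq_sum_gen M P hc {lam, lam⁻¹, 1} (by
    intro μ hμ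
    by_contra hcon
    apply hμ
    simpa using hev μ hcon)
  have hdl := hdimV lam
  rw [if_pos rfl, if_neg hne1, if_neg hne2] at hdl
  have hd1 := hdimV 1
  rw [if_neg hne2.symm, if_neg hne3.symm, if_pos rfl] at hd1
  rw [Finset.sum_insert (by simp [hne1, hne2]), Finset.sum_insert (by simp [hne3]),
    Finset.sum_singleton] at hsum
  have ht1 := hrange lam (by
    intro w hw0 hw hwl
    have h1 := hdom v₀ w ν₀ lam hv₀0 hw0 hPv₀ hw hν₀ hwl
    have h2 := hup v₀ ν₀ hv₀0 hν₀
    linarith)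
  have ht2 := hker lam⁻¹ (by
    intro w hw0 hw hwl
    have h1 := hdom w w₀ lam⁻¹ μ₀ hw0 hw₀0 hw hPw₀ hwl hμ₀
    have h2 := hdn w₀ μ₀ hw₀0 hμ₀
    linarith)
  rw [ht1, ht2, hdl] at hsum
  by_cases h1 : ∃ w, w ≠ 0 ∧ P w = 0 ∧ M w = (1 : ℂ) • w
  · obtain ⟨w, hw0, hw, hw1⟩ := h1
    have ht3 := hker 1 (by
      intro v hv0 hv hvl
      exact lt_irrefl _ (hdom v w 1 1 hv0 hw0 hv hw hvl hw1))
    rw [ht3] at hsum
    left
    rw [hsum]; ring
  · push Not at h1
    have ht3 := hrange 1 h1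
    rw [ht3, hd1] at hsum
    right
    rw [hsum]; ring

end Pool.Agent.TH623.SA
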