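import Pool.Agent.TH623.SA.Nbhd
import Pool.Agent.TH623.SA.Spec

set_option autoImplicit false

open Matrix UpperHalfPlane Metric Filter Topology
open scoped MatrixGroups Kronecker

namespace Pool.Agent.TH623.SA

variable {Γ : Subgroup SL(2, ℝ)} {d : ℕ}

/-- There is a simple closed geodesic; its monodromy is conjugate to a diagonal matrix. -/
theorem exists_simple_closed (hΓ : IsSurfaceGroup Γ) :
    ∃ (c : UT) (h : Γ) (x s : SL(2, ℝ)) (ℓ : ℝ), 0 < ℓ ∧ (s = 1 ∨ s = -1) ∧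
      (h : SL(2, ℝ)) = x * (s * aa ℓ) * x⁻¹ ∧ move h c = flow ℓ c ∧ c ∈ birmanSeries Γ := by
  obtain ⟨h, hh, hh1, hmin⟩ := exists_systole hΓ
  obtain ⟨x, ℓ, s, hℓ, hs, he⟩ := hyp_form h (two_lt_abs_t2 hΓ hh hh1)
  have hsact : ∀ p : ℍ, s • p = p := by
    intro p
    rcases hs with rfl | rfl
    · exact one_smul _ p
    · rw [UpperHalfPlane.ext_iff, coe_specialLinearGroup_apply]
      simp
  have hcomm : ∀ g : SL(2, ℝ), s * g = g * s := by
    intro g
    rcases hs with rfl | rfl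
    · rw [one_mul, mul_one]
    · simp
  let c : UT := ⟨fun t => (x * aa t) • I, by
    refine Isometry.of_dist_eq fun a b => ?_
    rw [mul_smul, mul_smul, dist_smul, dist_aa_smul_I, Real.dist_eq]⟩
  have hhc : ∀ t : ℝ, h • c.1 t = c.1 (t + ℓ) := by
    intro t
    show h • ((x * aa t) • I) = (x * aa (t + ℓ)) • I
    have h1 : h * (x * aa t) = x * aa (t + ℓ) * s := by
      rw [he, add_comm t ℓ, aa_add]
      calc x * (s * aa ℓ) * x⁻¹ * (x * aa t) = x * (s * (aa ℓ * aa t)) := by group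
        _ = x * (aa ℓ * aa t) * s := by rw [hcomm]; group
    rw [← mul_smul, h1, mul_smul, hsact]
  have hpow : ∀ (n : ℕ) (t : ℝ), (h ^ n) • c.1 t = c.1 (t + n * ℓ) := by
    intro n
    induction n with
    | zero => intro t; simp
    | succ n ih =>
      intro t
      rw [pow_succ', mul_smul, ih, hhc]
      exact congrArg c.1 (by push_cast; ring)
  have hzpow : ∀ (n : ℤ) (t : ℝ), (h ^ n) • c.1 t = c.1 (t + n * ℓ) := by
    intro n t
    obtain ⟨m, rfl | rfl⟩ := n.eq_nat_or_neg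
    · rw [zpow_natCast, hpow]; simp
    · rw [_root_.zpow_neg, zpow_natCast, inv_smul_eq_iff, hpow]
      exact congrArg c.1 (by push_cast; ring)
  have ht2 : |t2 h| = 2 * Real.cosh (ℓ / 2) := by
    rw [he, t2_conj]
    have hc0 : 0 < Real.cosh (ℓ / 2) := Real.cosh_pos _
    rcases hs with rfl | rfl
    · rw [one_mul, t2_aa, abs_of_pos (by positivity)]
    · rw [neg_one_mul, t2_neg, t2_aa, abs_neg, abs_of_pos (by positivity)]
  refine ⟨c, ⟨h, hh⟩, x, s, ℓ, hℓ, hs, he, ?_, subset_closure ⟨⟨h, hh, ℓ, hℓ, ?_⟩, ?_⟩⟩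
  · apply Subtype.ext
    funext t
    exact hhc t
  · apply Subtype.ext
    funext t
    exact hhc t
  · rintro g hg ⟨a, b, hab⟩
    -- the translate by a power of `h` moves a point by less than `ℓ`
    set n : ℤ := ⌊(b - a) / ℓ⌋ with hn
    have h1 : (n : ℝ) * ℓ ≤ b - a := by
      have := Int.floor_le ((b - a) / ℓ)
      rw [← hn, le_div_iff₀ hℓ] at this
      exact this
    have h2 : b - a < (n + 1) * ℓ := by
      have := Int.lt_floor_add_one ((b - a) / ℓ)
      rw [← hn, div_lt_iff₀ hℓ] at this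
      exact this
    have h3 : (h ^ (-n) * g) • c.1 a = c.1 (b - n * ℓ) := by
      rw [mul_smul, hab, hzpow]
      exact congrArg c.1 (by push_cast; ring)
    have h4 : h ^ (-n) * g = 1 := by
      by_contra hne
      have h5 := hmin (h ^ (-n) * g) (Γ.mul_mem (Γ.zpow_mem hh _) hg) hne
      rw [ht2] at h5
      have h6 := le_dist_of_t2 hℓ.le h5 (c.1 a)
      rw [h3, c.2.dist_eq, Real.dist_eq] at h6
      have h7 : |a - (b - n * ℓ)| < ℓ := by
        rw [abs_lt]
        constructor <;> nlinarith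
      linarith
    have h5 : g = h ^ n := by
      rw [_root_.zpow_neg, inv_mul_eq_one] at h4
      exact h4.symm
    ext p
    constructor
    · rintro ⟨t, rfl⟩
      refine ⟨t + n * ℓ, ?_⟩
      show c.1 (t + n * ℓ) = g • c.1 t
      rw [h5, hzpow]
    · rintro ⟨t, rfl⟩
      refine ⟨t - n * ℓ, ?_⟩
      show g • c.1 (t - n * ℓ) = c.1 t
      rw [h5, hzpow]
      exact congrArg c.1 (by ring)

theorem trace_Phi (j r : ℕ) (g : SL(2, ℝ)) : (Phi j r g).trace = j * (t2 g : ℂ) + r := by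
  have h1 : (cx g).trace = (t2 g : ℂ) := by
    rw [Matrix.trace_fin_two]
    unfold t2
    push_cast
    rfl
  have h2 : (Phi j r g).trace = ((1 : Matrix (Fin j) (Fin j) ℂ) ⊗ₖ cx g).trace +
      (1 : Matrix (Fin r) (Fin r) ℂ).trace := by
    unfold Matrix.trace
    rw [Fintype.sum_sum_type]
    rfl
  rw [h2, Matrix.trace_kronecker, Matrix.trace_one, Matrix.trace_one, h1, Fintype.card_fin,
    Fintype.card_fin]

/-- rank of an idempotent matrix -/
theorem rank_eq_trace {P : Matrix (Fin d) (Fin d) ℂ} (hP : P * P = P) :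
    (P.rank : ℂ) = LinearMap.trace ℂ (Fin d → ℂ) P.mulVecLin := by
  have h1 : IsIdempotentElem P.mulVecLin := by
    show P.mulVecLin * P.mulVecLin = P.mulVecLin
    rw [Module.End.mul_eq_comp, ← Matrix.mulVecLin_mul, hP]
  have h2 := (LinearMap.IsProj.trace (LinearMap.isProj_range_iff_isIdempotentElem _ |>.2 h1))
  rw [h2]
  rfl

/-- exponential domination for all powers forces a strict inequality -/
theorem lt_of_pow_bound {a b C q : ℝ} (ha : 0 < a) (hb : 0 ≤ b) (hq0 : 0 < q) (hq1 : q < 1)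
    (h : ∀ n : ℕ, a ^ n ≤ C * q ^ n * b ^ n) : a < b := by
  by_contra hcon
  push Not at hcon
  have h1 : ∀ n : ℕ, 1 ≤ C * q ^ n := by
    intro n
    have hC : 0 ≤ C * q ^ n := by
      by_contra hneg
      push Not at hneg
      have h2 : a ^ n ≤ 0 := (h n).trans (mul_nonpos_of_nonpos_of_nonneg hneg.le (by positivity))
      have h3 : 0 < a ^ n := by positivity
      linarith
    have h2 : a ^ n ≤ C * q ^ n * a ^ n :=
      (h n).trans (mul_le_mul_of_nonneg_left (pow_le_pow_left₀ hb hcon n) hC)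
    have h3 : 0 < a ^ n := by positivity
    by_contra hlt
    push Not at hlt
    nlinarith
  have h2 : Tendsto (fun n : ℕ => C * q ^ n) atTop (𝓝 (C * 0)) :=
    tendsto_const_nhds.mul (tendsto_pow_atTop_nhds_zero_of_lt_one hq0.le hq1)
  rw [mul_zero] at h2
  have h3 := ge_of_tendsto' h2 h1
  linarith

/-- The base point is not in the simple `k`-Anosov domain unless `k = j` or `k = j + r`. -/
theorem basePt_notMem (hΓ : IsSurfaceGroup Γ) {j r : ℕ} (e : Idx j r ≃ Fin d) {k : ℕ}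
    (hk0 : 1 ≤ k) (hkd : k < d) (hk1 : k ≠ j) (hk2 : k ≠ j + r) :
    basePt Γ e ∉ simpleAnosovDomain Γ d k := by
  rintro ⟨ρ, ⟨P, N, C, c, hC, hc, -, -, hPN⟩, hρ⟩
  obtain ⟨x, h, y, s, ℓ, hℓ, hs, he, hmove, hx⟩ := exists_simple_closed hΓ
  obtain ⟨hPP, hrank, hpos, hflow, hmv, hNmv, hdom⟩ := hPN x hx
  -- the monodromy commutes with the projection
  have hcomm : (ρ h).1 * P x = P x * (ρ h).1 := by
    have h1 : P x = (ρ h).1 * P x * (ρ h⁻¹).1 := by rw [← hmv, hmove, hflow]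
    have h2 : (ρ h⁻¹).1 * (ρ h).1 = 1 := by
      rw [← Matrix.SpecialLinearGroup.coe_mul, ← map_mul, inv_mul_cancel, map_one]; rfl
    calc (ρ h).1 * P x = (ρ h).1 * P x * ((ρ h⁻¹).1 * (ρ h).1) := by rw [h2, Matrix.mul_one]
      _ = ((ρ h).1 * P x * (ρ h⁻¹).1) * (ρ h).1 := by simp only [Matrix.mul_assoc]
      _ = P x * (ρ h).1 := by rw [← h1]
  have hcomm' : (ρ h⁻¹).1 * P x = P x * (ρ h⁻¹).1 := by
    have h2 : (ρ h⁻¹).1 * (ρ h).1 = 1 := by
      rw [← Matrix.SpecialLinearGroup.coe_mul, ← map_mul, inv_mul_cancel, map_one]; rfl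
    have h3 : (ρ h).1 * (ρ h⁻¹).1 = 1 := by
      rw [← Matrix.SpecialLinearGroup.coe_mul, ← map_mul, mul_inv_cancel, map_one]; rfl
    calc (ρ h⁻¹).1 * P x = (ρ h⁻¹).1 * P x * ((ρ h).1 * (ρ h⁻¹).1) := by
          rw [h3, Matrix.mul_one]
      _ = (ρ h⁻¹).1 * (P x * (ρ h).1) * (ρ h⁻¹).1 := by simp only [Matrix.mul_assoc]
      _ = ((ρ h⁻¹).1 * (ρ h).1) * P x * (ρ h⁻¹).1 := by
          rw [← hcomm]; simp only [Matrix.mul_assoc]
      _ = P x * (ρ h⁻¹).1 := by rw [h2, Matrix.one_mul]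
  -- powers
  have hmoven : ∀ n : ℕ, move ((h ^ n : Γ) : SL(2, ℝ)) x = flow (n * ℓ) x := by
    intro n
    induction n with
    | zero =>
      apply Subtype.ext
      funext t
      show ((h ^ 0 : Γ) : SL(2, ℝ)) • x.1 t = x.1 (t + (0 : ℕ) * ℓ)
      simp
    | succ n ih =>
      apply Subtype.ext
      funext t
      show ((h ^ (n + 1) : Γ) : SL(2, ℝ)) • x.1 t = x.1 (t + (n + 1 : ℕ) * ℓ)
      have h1 : ((h ^ n : Γ) : SL(2, ℝ)) • x.1 t = x.1 (t + n * ℓ) :=
        congrFun (congrArg Subtype.val ih) t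
      have h2 : (h : SL(2, ℝ)) • x.1 (t + n * ℓ) = x.1 (t + n * ℓ + ℓ) :=
        congrFun (congrArg Subtype.val hmove) (t + n * ℓ)
      rw [pow_succ', Subgroup.coe_mul, mul_smul, h1, h2]
      exact congrArg x.1 (by push_cast; ring)
  have hpowv : ∀ (n : ℕ) (v : Fin d → ℂ) (ν : ℂ), (ρ h⁻¹).1 *ᵥ v = ν • v →
      (ρ (h ^ n)).1 *ᵥ (ν ^ n • v) = v := by
    intro n v ν hν
    have h1 : ν ^ n • v = (ρ (h⁻¹ ^ n)).1 *ᵥ v := by
      induction n with
      | zero =>
        rw [pow_zero, pow_zero, map_one, one_smul]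
        show v = (1 : Matrix (Fin d) (Fin d) ℂ) *ᵥ v
        rw [Matrix.one_mulVec]
      | succ n ih =>
        rw [pow_succ h⁻¹, map_mul, Matrix.SpecialLinearGroup.coe_mul, ← Matrix.mulVec_mulVec, hν,
          Matrix.mulVec_smul, ← ih, smul_smul, pow_succ']
    have h2 : h ^ n * h⁻¹ ^ n = 1 := by rw [inv_pow, mul_inv_cancel]
    rw [h1, Matrix.mulVec_mulVec, ← Matrix.SpecialLinearGroup.coe_mul, ← map_mul, h2, map_one]
    show (1 : Matrix (Fin d) (Fin d) ℂ) *ᵥ v = v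
    rw [Matrix.one_mulVec]
  have hNflow : ∀ (n : ℕ) (v : Fin d → ℂ) (ν : ℂ), (ρ h⁻¹).1 *ᵥ v = ν • v →
      N (flow (n * ℓ) x) v = ‖ν‖ ^ n * N x v := by
    intro n v ν hν
    have h1 := hNmv (h ^ n) (ν ^ n • v)
    rw [hpowv n v ν hν, hmoven, map_smul_eq_mul, norm_pow] at h1
    exact h1
  -- strict domination of the eigenvalues
  have hstrict : ∀ (v w : Fin d → ℂ) (ν μ : ℂ), v ≠ 0 → w ≠ 0 → P x *ᵥ v = v → P x *ᵥ w = 0 →
      (ρ h⁻¹).1 *ᵥ v = ν • v → (ρ h⁻¹).1 *ᵥ w = μ • w → ‖μ‖ < ‖ν‖ := by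
    intro v w ν μ hv hw hPv hPw hν hμ
    have hμ0 : μ ≠ 0 := by
      intro h0
      have h1 := hpowv 1 w μ hμ
      have h2 : μ ^ 1 • w = 0 := by rw [h0, pow_one, zero_smul]
      rw [h2, Matrix.mulVec_zero] at h1
      exact hw h1.symm
    refine lt_of_pow_bound (C := C) (q := Real.exp (-(c * ℓ))) (norm_pos_iff.2 hμ0)
      (norm_nonneg _) (Real.exp_pos _) (by
        rw [← Real.exp_zero]
        exact Real.exp_lt_exp.2 (by nlinarith [mul_pos hc hℓ])) (fun n => ?_)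
    have h1 := hdom v w hv hw hPv hPw (n * ℓ) (by positivity)
    rw [hNflow n v ν hν, hNflow n w μ hμ, mul_div_assoc, mul_div_assoc,
      div_self (hpos w hw).ne', div_self (hpos v hv).ne', mul_one, mul_one] at h1
    have h2 : Real.exp (-(c * (n * ℓ))) = Real.exp (-(c * ℓ)) ^ n := by
      rw [← Real.exp_nat_mul]
      congr 1
      ring
    rw [h2] at h1
    exact h1
  -- the traces
  obtain ⟨σ, hσ, hσe⟩ : ∃ σ : ℝ, (σ = 1 ∨ σ = -1) ∧ ∀ n : ℕ,
      t2 (((h⁻¹ : Γ) ^ n : Γ) : SL(2, ℝ)) =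
        σ ^ n * (Real.exp (ℓ / 2) ^ n + (Real.exp (ℓ / 2))⁻¹ ^ n) := by
    have key : ∀ n : ℕ, ((h : SL(2, ℝ))⁻¹) ^ n = y * (s ^ n * aa (-(n * ℓ))) * y⁻¹ := by
      have hsinv : s⁻¹ = s := by
        rcases hs with rfl | rfl
        · exact inv_one
        · rw [inv_eq_iff_mul_eq_one]; simp
      have hscomm : ∀ g : SL(2, ℝ), g * s = s * g := by
        intro g
        rcases hs with rfl | rfl
        · rw [one_mul, mul_one]
        · simp
      intro n
      induction n with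
      | zero => simp [aa_zero]
      | succ n ih =>
        rw [pow_succ, ih, he]
        have h1 : aa (-(((n + 1 : ℕ) : ℝ) * ℓ)) = aa (-(n * ℓ)) * (aa ℓ)⁻¹ := by
          rw [← aa_neg, ← aa_add]
          congr 1
          push_cast; ring
        rw [h1]
        have h2 : (y * (s * aa ℓ) * y⁻¹)⁻¹ = y * ((aa ℓ)⁻¹ * s) * y⁻¹ := by
          have h3 : (y * (s * aa ℓ) * y⁻¹)⁻¹ = y * ((aa ℓ)⁻¹ * s⁻¹) * y⁻¹ := by group
          rw [h3, hsinv]
        rw [h2]
        calc y * (s ^ n * aa (-(n * ℓ))) * y⁻¹ * (y * ((aa ℓ)⁻¹ * s) * y⁻¹)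
            = y * (s ^ n * (aa (-(n * ℓ)) * (aa ℓ)⁻¹ * s)) * y⁻¹ := by group
          _ = y * (s ^ (n + 1) * (aa (-(n * ℓ)) * (aa ℓ)⁻¹)) * y⁻¹ := by
              rw [hscomm, pow_succ]; group
    have hcosh : ∀ n : ℕ, t2 (aa (-(n * ℓ))) =
        Real.exp (ℓ / 2) ^ n + (Real.exp (ℓ / 2))⁻¹ ^ n := by
      intro n
      unfold t2
      rw [aa_00, aa_11, ← Real.exp_neg, ← Real.exp_nat_mul, ← Real.exp_nat_mul, add_comm]
      congr 1 <;> congr 1 <;> ring
    rcases hs with hs | hs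
    · refine ⟨1, Or.inl rfl, fun n => ?_⟩
      show t2 (((h : SL(2, ℝ))⁻¹) ^ n) = _
      rw [key, t2_conj, hs, one_pow, one_mul, hcosh, one_pow, one_mul]
    · refine ⟨-1, Or.inr rfl, fun n => ?_⟩
      show t2 (((h : SL(2, ℝ))⁻¹) ^ n) = _
      rw [key, t2_conj, hs]
      rcases Nat.even_or_odd n with hn | hn
      · rw [hn.neg_one_pow, hn.neg_one_pow, one_mul, hcosh, one_mul]
      · rw [hn.neg_one_pow, hn.neg_one_pow, neg_one_mul, t2_neg, hcosh, neg_one_mul]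
  set lam : ℂ := ((σ * Real.exp (ℓ / 2) : ℝ) : ℂ) with hlam
  have hσinv : σ⁻¹ = σ := by
    rcases hσ with rfl | rfl
    · exact inv_one
    · norm_num
  have htr : ∀ n : ℕ, LinearMap.trace ℂ (Fin d → ℂ) (((ρ h⁻¹).1.mulVecLin) ^ n) =
      j * lam ^ n + j * lam⁻¹ ^ n + r := by
    intro n
    have h1 : ((ρ h⁻¹).1.mulVecLin) ^ n = ((ρ (h⁻¹ ^ n)).1).mulVecLin := by
      induction n with
      | zero =>
        rw [pow_zero, pow_zero, map_one]
        show _ = (1 : Matrix (Fin d) (Fin d) ℂ).mulVecLin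
        rw [Matrix.mulVecLin_one]; rfl
      | succ n ih =>
        rw [pow_succ, ih, pow_succ, map_mul, Matrix.SpecialLinearGroup.coe_mul,
          Matrix.mulVecLin_mul]
        rfl
    have h2 : LinearMap.trace ℂ (Fin d → ℂ) ((ρ (h⁻¹ ^ n)).1).mulVecLin =
        ((ρ (h⁻¹ ^ n)).1).trace := by
      rw [← Matrix.toLin'_apply']
      exact Matrix.trace_toLin'_eq _
    rw [h1, h2, ← hρ]
    show (Phi j r ((h⁻¹ ^ n : Γ) : SL(2, ℝ))).trace = _
    rw [trace_Phi, hσe, hlam]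
    have h3 : ((((σ * Real.exp (ℓ / 2) : ℝ) : ℂ))⁻¹) = ((σ * (Real.exp (ℓ / 2))⁻¹ : ℝ) : ℂ) := by
      rw [← Complex.ofReal_inv, mul_inv, hσinv]
    rw [h3]
    push_cast
    ring
  have hlam1 : 1 < ‖lam‖ := by
    rw [hlam, Complex.norm_real, norm_mul]
    have h1 : ‖σ‖ = 1 := by
      rcases hσ with rfl | rfl <;> simp
    rw [h1, one_mul, Real.norm_eq_abs, abs_of_pos (Real.exp_pos _)]
    exact Real.one_lt_exp_iff.2 (by linarith)
  have hres := gap (V := Fin d → ℂ) ((ρ h⁻¹).1.mulVecLin) (P x).mulVecLin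
    (by
      show (ρ h⁻¹).1.mulVecLin * (P x).mulVecLin = (P x).mulVecLin * (ρ h⁻¹).1.mulVecLin
      rw [Module.End.mul_eq_comp, Module.End.mul_eq_comp, ← Matrix.mulVecLin_mul,
        ← Matrix.mulVecLin_mul, hcomm'])
    (by rw [Module.End.mul_eq_comp, ← Matrix.mulVecLin_mul, hPP])
    (by
      intro h0
      have h1 := rank_eq_trace hPP
      rw [h0, map_zero, hrank] at h1
      have : k = 0 := by exact_mod_cast h1
      omega)
    (by
      intro h0
      have h1 := rank_eq_trace hPP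
      rw [h0, LinearMap.trace_one, hrank, Module.finrank_fin_fun] at h1
      have : k = d := by exact_mod_cast h1
      omega)
    lam hlam1 j r htr
    (fun v w ν μ hv hw hPv hPw hν hμ => hstrict v w ν μ hv hw hPv hPw hν hμ)
  rw [← rank_eq_trace hPP, hrank] at hres
  rcases hres with hres | hres
  · exact hk1 (by exact_mod_cast hres)
  · exact hk2 (by exact_mod_cast hres)

/-- **Main theorem.** For `d ≥ 4` and `1 ≤ k < d` there is a set `W`, not contained in the simple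
`k`-Anosov domain, whose union with any domain of discontinuity is a domain of discontinuity. -/
theorem exists_absorbing (hΓ : IsSurfaceGroup Γ) {k : ℕ} (hd : 4 ≤ d) (hk : 1 ≤ k)
    (hkd : k < d) : ∃ W : Set (CharVar Γ d), ¬ W ⊆ simpleAnosovDomain Γ d k ∧
      ∀ U : Set (CharVar Γ d), IsDomainOfDiscontinuity U → IsDomainOfDiscontinuity (U ∪ W) := by
  obtain ⟨j, hj, hjd, hk1, hk2⟩ : ∃ j : ℕ, 0 < j ∧ 2 * j ≤ d ∧ k ≠ j ∧ k ≠ d - j := by
    by_cases h : k = 1 ∨ k = d - 1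
    · refine ⟨2, ?_, ?_, ?_, ?_⟩ <;> omega
    · exact ⟨1, one_pos, by omega, by omega, by omega⟩
  have hcard : Fintype.card (Idx j (d - 2 * j)) = d := by
    rw [Fintype.card_sum, Fintype.card_prod, Fintype.card_fin, Fintype.card_fin, Fintype.card_fin]
    omega
  let e : Idx j (d - 2 * j) ≃ Fin d := Fintype.equivFinOfCardEq hcard
  obtain ⟨N, hNo, hN0, hNf⟩ := exists_good_nbhd hΓ hj e
  refine ⟨sat N, fun h => ?_, fun U hU => union_domain hU hNo hNf⟩
  exact basePt_notMem hΓ e hk hkd hk1 (by omega) (h ⟨1, by rw [act_one]; exact hN0⟩)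

end Pool.Agent.TH623.SA
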