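import Pool.Agent.TH623.SA.Cone

set_option autoImplicit false
set_option linter.unusedSectionVars false

open Matrix UpperHalfPlane Metric
open scoped MatrixGroups

namespace Pool.Agent.TH623.SA

variable {Γ : Subgroup SL(2, ℝ)}

/-- the expanding coordinates -/
def PP (j r : ℕ) : Idx j r → Prop
  | Sum.inl (_, a) => a = 0
  | Sum.inr _ => False

theorem norm_dd_ge {j r : ℕ} {t : ℝ} (ht : 2 * Real.log 4 ≤ t) (a : Idx j r) (ha : PP j r a) :
    4 ≤ ‖dd j r t a‖ := by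
  rcases a with ⟨i, a⟩ | a
  · have ha0 : a = 0 := ha
    subst ha0
    show 4 ≤ ‖(if (0 : Fin 2) = 0 then (Real.exp (t / 2) : ℂ) else (Real.exp (-(t / 2)) : ℂ))‖
    rw [if_pos rfl, Complex.norm_real, Real.norm_eq_abs, abs_of_pos (Real.exp_pos _)]
    calc (4 : ℝ) = Real.exp (Real.log 4) := by rw [Real.exp_log (by norm_num)]
      _ ≤ Real.exp (t / 2) := Real.exp_le_exp.2 (by linarith)
  · exact ha.elim

theorem norm_dd_le {j r : ℕ} {t : ℝ} (ht : 0 ≤ t) (a : Idx j r) (ha : ¬ PP j r a) :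
    ‖dd j r t a‖ ≤ 1 := by
  rcases a with ⟨i, a⟩ | a
  · have ha0 : a ≠ 0 := ha
    show ‖(if a = 0 then (Real.exp (t / 2) : ℂ) else (Real.exp (-(t / 2)) : ℂ))‖ ≤ 1
    rw [if_neg ha0, Complex.norm_real, Real.norm_eq_abs, abs_of_pos (Real.exp_pos _)]
    exact Real.exp_le_one_iff.2 (by linarith)
  · show ‖(1 : ℂ)‖ ≤ 1
    rw [norm_one]

/-- the sign matrix preserves absolute values of coordinates -/
theorem norm_Phi_sign {j r : ℕ} {s : SL(2, ℝ)} (hs : s = 1 ∨ s = -1) (v : Idx j r → ℂ)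
    (a : Idx j r) : ‖(Phi j r s *ᵥ v) a‖ = ‖v a‖ := by
  rcases hs with rfl | rfl
  · rw [Phi_one, Matrix.one_mulVec]
  · have h1 : Phi j r (-1) = Matrix.fromBlocks (-1) 0 0 1 := by
      have h2 : cx (-1 : SL(2, ℝ)) = -1 := by
        ext a b
        show (((-1 : SL(2, ℝ)) a b : ℝ) : ℂ) = _
        rw [neg_entries]
        fin_cases a <;> fin_cases b <;> simp
      unfold Phi
      rw [h2]
      congr 1
      ext ⟨i, a⟩ ⟨i', b⟩
      simp only [Matrix.kroneckerMap_apply, Matrix.neg_apply, Matrix.one_apply, Prod.mk.injEq]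
      by_cases h3 : i = i' <;> by_cases h4 : a = b <;> simp [h3, h4]
    rw [h1, Matrix.fromBlocks_mulVec]
    rcases a with a | a
    · simp [Matrix.neg_mulVec]
    · simp

/-- Near the block representation, long elements of a surface group have no conjugates of
bounded norm. -/
theorem growth (hΓ : IsSurfaceGroup Γ) (j r : ℕ) (hj : 0 < j) :
    ∃ (F : Set SL(2, ℝ)) (ε : ℝ) (B : ℝ → ℝ), F.Finite ∧ 0 < ε ∧
      ∀ ρ : Γ →* Matrix (Idx j r) (Idx j r) ℂ,
      (∀ δ : Γ, (δ : SL(2, ℝ)) ∈ F → ∀ a b, ‖ρ δ a b - Phi j r δ a b‖ ≤ ε) →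
      ∀ γ : Γ, γ ≠ 1 → ∀ R : ℝ, 0 ≤ R → ∀ u : (Matrix (Idx j r) (Idx j r) ℂ)ˣ,
        nsq (u.1 * ρ γ * u⁻¹.1) ≤ R ^ 2 → |t2 (γ : SL(2, ℝ))| ≤ B R := by
  obtain ⟨R₀, hR₀, hround⟩ := exists_round hΓ
  choose c hcΓ hcb using hround
  set T : ℝ := 2 * Real.log 4 with hT
  have hlog : 0 < Real.log 4 := Real.log_pos (by norm_num)
  have hT0 : 0 < T := by rw [hT]; linarith
  set F : Set SL(2, ℝ) := {g : SL(2, ℝ) | g ∈ Γ ∧ Bd (2 * (2 * R₀ * Real.exp T) * R₀) g} with hF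
  set N : ℝ := (Fintype.card (Idx j r) : ℝ) with hN
  have hN1 : 1 ≤ N := by
    have : 0 < Fintype.card (Idx j r) := Fintype.card_pos_iff.2 ⟨Sum.inl (⟨0, hj⟩, 0)⟩
    rw [hN]
    exact_mod_cast this
  set ε : ℝ := 1 / (N ^ 3 * R₀ ^ 2) with hε
  have hε0 : 0 < ε := by positivity
  refine ⟨F, ε, fun R => 2 * Real.cosh (T * (N ^ 2 * R + 1) / 2), finite_bd hΓ _, hε0, ?_⟩
  intro ρ hρ γ hγ1 R hR u hu
  have hγ1' : (γ : SL(2, ℝ)) ≠ 1 := fun h => hγ1 (Subtype.ext h)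
  obtain ⟨x, ℓ, s, hℓ, hs, he⟩ := hyp_form γ (two_lt_abs_t2 hΓ γ.2 hγ1')
  have hss : s * s = 1 := by rcases hs with rfl | rfl <;> simp
  have hscomm : ∀ g : SL(2, ℝ), s * g = g * s := by
    intro g
    rcases hs with rfl | rfl <;> simp
  have habs : |t2 (γ : SL(2, ℝ))| = 2 * Real.cosh (ℓ / 2) := by
    have hc := Real.cosh_pos (ℓ / 2)
    rw [he, t2_conj]
    rcases hs with rfl | rfl
    · rw [one_mul, t2_aa, abs_of_pos (by linarith)]
    · rw [neg_mul, one_mul, t2_neg, abs_neg, t2_aa, abs_of_pos (by linarith)]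
  rw [habs]
  show 2 * Real.cosh (ℓ / 2) ≤ 2 * Real.cosh (T * (N ^ 2 * R + 1) / 2)
  have hgoal : ℓ ≤ T * (N ^ 2 * R + 1) → 2 * Real.cosh (ℓ / 2) ≤
      2 * Real.cosh (T * (N ^ 2 * R + 1) / 2) := by
    intro h
    have : Real.cosh (ℓ / 2) ≤ Real.cosh (T * (N ^ 2 * R + 1) / 2) := by
      rw [Real.cosh_le_cosh, abs_of_pos (by linarith), abs_of_pos (by positivity)]
      linarith
    linarith
  apply hgoal
  have hNR : 0 ≤ N ^ 2 * R := by positivity
  by_cases hℓT : ℓ < T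
  · nlinarith
  push Not at hℓT
  set n : ℕ := ⌊ℓ / T⌋₊ with hn
  have hn1 : 1 ≤ n := by
    rw [hn, Nat.one_le_floor_iff, le_div_iff₀ hT0, one_mul]
    exact hℓT
  have hnR : (0 : ℝ) < n := by exact_mod_cast hn1
  have hnle : (n : ℝ) ≤ ℓ / T := Nat.floor_le (by positivity)
  have hnlt : ℓ / T < n + 1 := Nat.lt_floor_add_one _
  rw [div_lt_iff₀ hT0] at hnlt
  rw [le_div_iff₀ hT0] at hnle
  suffices hmain : (3 : ℝ) ^ n ≤ N ^ 2 * R by
    have h3 : (n : ℝ) ≤ (3 : ℝ) ^ n := by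
      have : n < 3 ^ n := Nat.lt_pow_self (by norm_num)
      exact_mod_cast this.le
    calc ℓ ≤ (n + 1) * T := hnlt.le
      _ ≤ T * (N ^ 2 * R + 1) := by nlinarith
  set τ : ℝ := ℓ / n with hτ
  have hnτ : (n : ℝ) * τ = ℓ := by rw [hτ]; field_simp
  have hτT : T ≤ τ := by rw [hτ, le_div_iff₀ hnR]; linarith
  have hτ2 : τ ≤ 2 * T := by
    rw [hτ, div_le_iff₀ hnR]
    have : (1 : ℝ) ≤ n := by exact_mod_cast hn1
    nlinarith
  -- the points on the axis and their roundings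
  set g : ℕ → SL(2, ℝ) := fun i => x * aa (i * τ) with hg
  set γs : ℕ → SL(2, ℝ) := fun i => if i = n then γ * c (g 0) else c (g i) with hγs
  set qs : ℕ → SL(2, ℝ) := fun i => (γs i)⁻¹ * g i with hqs
  have hγsΓ : ∀ i, γs i ∈ Γ := by
    intro i
    simp only [hγs]
    split_ifs
    · exact Γ.mul_mem γ.2 (hcΓ _)
    · exact hcΓ _
  have h0n : (0 : ℕ) ≠ n := by omega
  have hγs0 : γs 0 = c (g 0) := by simp only [hγs, if_neg h0n]
  have hγsn : γs n = γ * c (g 0) := by simp only [hγs, if_true]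
  have hg0 : g 0 = x := by simp only [hg]; rw [Nat.cast_zero, zero_mul, aa_zero, mul_one]
  have hqsn : qs n = s * qs 0 := by
    simp only [hqs]
    rw [hγsn, hγs0]
    have h1 : (γ : SL(2, ℝ)) * x = s * (x * aa ℓ) := by
      rw [he, hscomm (aa ℓ)]
      rw [hscomm (x * aa ℓ)]
      group
    have h2 : g n = (γ : SL(2, ℝ)) * x * s := by
      rw [h1]
      simp only [hg]
      rw [hnτ, mul_assoc, ← hscomm (x * aa ℓ), ← mul_assoc, hss, one_mul]
    rw [h2, hg0, hscomm]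
    group
  have hqsb : ∀ i, Bd R₀ (qs i) := by
    intro i
    by_cases hi : i = n
    · rw [hi, hqsn]
      have h1 : Bd R₀ (qs 0) := by
        simp only [hqs]
        rw [hγs0]
        exact hcb _
      rcases hs with rfl | rfl
      · rw [one_mul]; exact h1
      · rw [neg_mul, one_mul]
        intro a b
        rw [neg_entries, abs_neg]
        exact h1 a b
    · simp only [hqs, hγs, if_neg hi]
      exact hcb _
  -- the steps
  have hstep : ∀ i, (γs i)⁻¹ * γs (i + 1) = qs i * aa τ * (qs (i + 1))⁻¹ := by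
    intro i
    have h1 : aa τ = (aa (i * τ))⁻¹ * aa ((i + 1 : ℕ) * τ) := by
      rw [← aa_neg, ← aa_add]
      congr 1
      push_cast
      ring
    simp only [hqs, hg]
    rw [h1]
    group
  have haab : Bd (Real.exp T) (aa τ) := by
    have e1 : Real.exp (τ / 2) ≤ Real.exp T := Real.exp_le_exp.2 (by linarith)
    have e2 : Real.exp (-(τ / 2)) ≤ Real.exp T := Real.exp_le_exp.2 (by linarith)
    have e3 := Real.exp_pos T
    intro a b
    fin_cases a <;> fin_cases b <;> simp only [Fin.zero_eta, Fin.mk_one, aa_00, aa_01, aa_10,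
      aa_11, abs_zero]
    · rw [abs_of_pos (Real.exp_pos _)]; exact e1
    · exact e3.le
    · exact e3.le
    · rw [abs_of_pos (Real.exp_pos _)]; exact e2
  have hstepF : ∀ i, (γs i)⁻¹ * γs (i + 1) ∈ F := by
    intro i
    refine ⟨Γ.mul_mem (Γ.inv_mem (hγsΓ i)) (hγsΓ (i + 1)), ?_⟩
    rw [hstep]
    exact ((hqsb i).mul haab).mul (hqsb (i + 1)).inv
  -- the product matrices
  let γs' : ℕ → Γ := fun i => ⟨γs i, hγsΓ i⟩
  let M : ℕ → Matrix (Idx j r) (Idx j r) ℂ := fun i =>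
    Phi j r (qs i)⁻¹ * ρ ((γs' i)⁻¹ * γs' (i + 1)) * Phi j r (qs (i + 1))
  let Pr : ℕ → Matrix (Idx j r) (Idx j r) ℂ := fun i =>
    Phi j r (qs 0)⁻¹ * ρ ((γs' 0)⁻¹ * γs' i) * Phi j r (qs i)
  have hPhiinv : ∀ q : SL(2, ℝ), Phi j r q * Phi j r q⁻¹ = 1 := by
    intro q; rw [← Phi_mul, mul_inv_cancel, Phi_one]
  have hPhiinv' : ∀ q : SL(2, ℝ), Phi j r q⁻¹ * Phi j r q = 1 := by
    intro q; rw [← Phi_mul, inv_mul_cancel, Phi_one]
  have hPr0 : Pr 0 = 1 := by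
    simp only [Pr]
    rw [inv_mul_cancel, map_one, mul_one, hPhiinv']
  have hPrsucc : ∀ i, Pr (i + 1) = Pr i * M i := by
    intro i
    simp only [Pr, M]
    have h1 : (γs' 0)⁻¹ * γs' (i + 1) = ((γs' 0)⁻¹ * γs' i) * ((γs' i)⁻¹ * γs' (i + 1)) := by
      group
    rw [h1, map_mul]
    have h2 : ∀ A B C D E G : Matrix (Idx j r) (Idx j r) ℂ,
        A * B * C * (D * E * G) = A * (B * ((C * D) * E)) * G := by
      intro A B C D E G; simp only [Matrix.mul_assoc]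
    rw [h2, hPhiinv, Matrix.one_mul]
  -- closeness
  have hMclose : ∀ i a b, ‖M i a b - (if a = b then dd j r τ a else 0)‖ ≤ 1 / N := by
    intro i a b
    rw [← Phi_aa]
    have h1 : Phi j r (aa τ) =
        Phi j r (qs i)⁻¹ * Phi j r ((γs i)⁻¹ * γs (i + 1)) * Phi j r (qs (i + 1)) := by
      rw [hstep, ← Phi_mul, ← Phi_mul]
      congr 1
      group
    have h2 : M i a b - Phi j r (aa τ) a b =
        (Phi j r (qs i)⁻¹ * (ρ ((γs' i)⁻¹ * γs' (i + 1)) - Phi j r ((γs i)⁻¹ * γs (i + 1)))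
          * Phi j r (qs (i + 1))) a b := by
      rw [h1, Matrix.mul_sub, Matrix.sub_mul, Matrix.sub_apply]
    rw [h2]
    set E := ρ ((γs' i)⁻¹ * γs' (i + 1)) - Phi j r ((γs i)⁻¹ * γs (i + 1)) with hE
    have hEb : ∀ a b, ‖E a b‖ ≤ ε := by
      intro a b
      rw [hE, Matrix.sub_apply]
      exact hρ ((γs' i)⁻¹ * γs' (i + 1)) (hstepF i) a b
    have h3 : ∀ a b, ‖(Phi j r (qs i)⁻¹ * E) a b‖ ≤ N * (R₀ * ε) := by
      intro a b
      rw [Matrix.mul_apply]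
      refine (norm_sum_le _ _).trans ?_
      calc ∑ d, ‖Phi j r (qs i)⁻¹ a d * E d b‖ ≤ ∑ _d : Idx j r, R₀ * ε := by
            refine Finset.sum_le_sum fun d _ => ?_
            rw [norm_mul]
            exact mul_le_mul (Phi_entry_bd j r hR₀ (hqsb i).inv a d) (hEb d b) (norm_nonneg _)
              (by linarith)
        _ = N * (R₀ * ε) := by rw [Finset.sum_const, Finset.card_univ, nsmul_eq_mul]
    rw [Matrix.mul_apply]
    refine (norm_sum_le _ _).trans ?_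
    calc ∑ d, ‖(Phi j r (qs i)⁻¹ * E) a d * Phi j r (qs (i + 1)) d b‖
        ≤ ∑ _d : Idx j r, N * (R₀ * ε) * R₀ := by
          refine Finset.sum_le_sum fun d _ => ?_
          rw [norm_mul]
          exact mul_le_mul (h3 a d) (Phi_entry_bd j r hR₀ (hqsb (i + 1)) d b) (norm_nonneg _)
            (by positivity)
      _ = N * (N * (R₀ * ε) * R₀) := by rw [Finset.sum_const, Finset.card_univ, nsmul_eq_mul]
      _ = 1 / N := by
          rw [hε]
          field_simp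
  have hNε : (Fintype.card (Idx j r) : ℝ) * (1 / N) ≤ 1 := by
    rw [← hN, mul_one_div, div_self (by linarith)]
  -- the cone property of the products
  have hcone : ∀ i (v : Idx j r → ℂ), (∃ a, PP j r a ∧ ‖v a‖ = ‖v‖) →
      (∃ a, PP j r a ∧ ‖(Pr i *ᵥ v) a‖ = ‖Pr i *ᵥ v‖) ∧ (3 : ℝ) ^ i * ‖v‖ ≤ ‖Pr i *ᵥ v‖ := by
    intro i
    induction i with
    | zero =>
      intro v hv
      rw [hPr0, Matrix.one_mulVec, pow_zero, one_mul]
      exact ⟨hv, le_rfl⟩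
    | succ i ih =>
      intro v hv
      obtain ⟨h1, h2⟩ := cone_step (PP j r) (dd j r τ) hNε (M i) (hMclose i)
        (fun a ha => norm_dd_ge hτT a ha) (fun a ha => norm_dd_le (by linarith) a ha) v hv
      obtain ⟨h3, h4⟩ := ih _ h1
      rw [hPrsucc, ← Matrix.mulVec_mulVec]
      refine ⟨h3, le_trans ?_ h4⟩
      rw [pow_succ, mul_assoc]
      exact mul_le_mul_of_nonneg_left h2 (by positivity)
  -- the conjugate of `ρ γ`
  set Q : Matrix (Idx j r) (Idx j r) ℂ := Pr n * Phi j r s with hQ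
  have hQcone : ∀ (v : Idx j r → ℂ), (∃ a, PP j r a ∧ ‖v a‖ = ‖v‖) →
      (∃ a, PP j r a ∧ ‖(Q *ᵥ v) a‖ = ‖Q *ᵥ v‖) ∧ (3 : ℝ) ^ n * ‖v‖ ≤ ‖Q *ᵥ v‖ := by
    intro v hv
    have hnorm : ‖Phi j r s *ᵥ v‖ = ‖v‖ := by
      apply le_antisymm
      · exact (pi_norm_le_iff_of_nonneg (norm_nonneg _)).2 fun a => by
          rw [norm_Phi_sign hs]; exact norm_le_pi_norm v a
      · exact (pi_norm_le_iff_of_nonneg (norm_nonneg _)).2 fun a => by
          rw [← norm_Phi_sign (j := j) (r := r) hs v a]; exact norm_le_pi_norm _ a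
    obtain ⟨h1, h2⟩ := hcone n (Phi j r s *ᵥ v) (by
      obtain ⟨a, ha, hva⟩ := hv
      exact ⟨a, ha, by rw [norm_Phi_sign hs, hnorm, hva]⟩)
    rw [hQ, ← Matrix.mulVec_mulVec]
    rw [hnorm] at h2
    exact ⟨h1, h2⟩
  have hQpow : ∀ m : ℕ, ∀ (v : Idx j r → ℂ), (∃ a, PP j r a ∧ ‖v a‖ = ‖v‖) →
      ((3 : ℝ) ^ n) ^ m * ‖v‖ ≤ ‖(Q ^ m) *ᵥ v‖ := by
    intro m
    induction m with
    | zero => intro v _; rw [pow_zero, pow_zero, Matrix.one_mulVec, one_mul]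
    | succ m ih =>
      intro v hv
      obtain ⟨h1, h2⟩ := hQcone v hv
      have h3 := ih _ h1
      rw [pow_succ, pow_succ, ← Matrix.mulVec_mulVec]
      refine le_trans ?_ h3
      rw [mul_assoc]
      exact mul_le_mul_of_nonneg_left h2 (by positivity)
  have hQeq : Q = (Phi j r (qs 0)⁻¹ * ρ (γs' 0)⁻¹) * ρ γ * (ρ (γs' 0) * Phi j r (qs 0)) := by
    have h1 : (γs' 0)⁻¹ * γs' n = (γs' 0)⁻¹ * γ * γs' 0 := by
      apply Subtype.ext
      show (γs 0)⁻¹ * γs n = (γs 0)⁻¹ * γ * γs 0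
      rw [hγsn, hγs0]
      group
    rw [hQ]
    simp only [Pr]
    rw [h1, map_mul, map_mul, hqsn, Matrix.mul_assoc _ (Phi j r (s * qs 0)) (Phi j r s), ← Phi_mul,
      hscomm (qs 0), mul_assoc (qs 0) s s, hss, mul_one]
    simp only [Matrix.mul_assoc]
  have hw1 : (Phi j r (qs 0)⁻¹ * ρ (γs' 0)⁻¹) * (ρ (γs' 0) * Phi j r (qs 0)) = 1 := by
    have h2 : ∀ A B C D : Matrix (Idx j r) (Idx j r) ℂ, A * B * (C * D) = A * ((B * C) * D) := by
      intro A B C D; simp only [Matrix.mul_assoc]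
    rw [h2, ← map_mul, inv_mul_cancel, map_one, Matrix.one_mul, hPhiinv']
  have hw2 : (ρ (γs' 0) * Phi j r (qs 0)) * (Phi j r (qs 0)⁻¹ * ρ (γs' 0)⁻¹) = 1 := by
    have h2 : ∀ A B C D : Matrix (Idx j r) (Idx j r) ℂ, A * B * (C * D) = A * ((B * C) * D) := by
      intro A B C D; simp only [Matrix.mul_assoc]
    rw [h2, hPhiinv, Matrix.one_mul, ← map_mul, mul_inv_cancel, map_one]
  -- conjugate further
  have hu1 : u⁻¹.1 * u.1 = 1 := by rw [← Units.val_mul, inv_mul_cancel, Units.val_one]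
  have hu2 : u.1 * u⁻¹.1 = 1 := by rw [← Units.val_mul, mul_inv_cancel, Units.val_one]
  have hfin : (3 : ℝ) ^ n ≤ Kn (u.1 * ρ γ * u⁻¹.1) := by
    refine le_of_growth (Q := Q) (w' := (Phi j r (qs 0)⁻¹ * ρ (γs' 0)⁻¹) * u⁻¹.1)
      (w := u.1 * (ρ (γs' 0) * Phi j r (qs 0))) (v := Pi.single (Sum.inl (⟨0, hj⟩, 0)) 1)
      ?_ ?_ ?_ ?_ ?_
    · have h2 : ∀ A B C D : Matrix (Idx j r) (Idx j r) ℂ, A * B * (C * D) = A * ((B * C) * D) := by
        intro A B C D; simp only [Matrix.mul_assoc]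
      rw [h2, hu1, Matrix.one_mul, hw1]
    · have h2 : ∀ A B C D : Matrix (Idx j r) (Idx j r) ℂ, A * B * (C * D) = A * ((B * C) * D) := by
        intro A B C D; simp only [Matrix.mul_assoc]
      rw [h2, hw2, Matrix.one_mul, hu2]
    · rw [hQeq]
      have h2 : ∀ A B C D E G H : Matrix (Idx j r) (Idx j r) ℂ,
          A * B * (C * D * E) * (G * H) = A * ((B * C) * D * (E * G)) * H := by
        intro A B C D E G H; simp only [Matrix.mul_assoc]
      rw [h2, hu1, Matrix.one_mul, Matrix.mul_one]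
    · rw [Pi.norm_single, norm_one]; exact one_pos
    · intro m
      refine hQpow m _ ⟨Sum.inl (⟨0, hj⟩, 0), rfl, ?_⟩
      rw [Pi.norm_single, Pi.single_eq_same]
  exact hfin.trans (Kn_le_of_nsq hR hu)

end Pool.Agent.TH623.SA
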