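import Pool.Agent.TH623.SA.Sys

set_option autoImplicit false

open Matrix UpperHalfPlane Metric
open scoped MatrixGroups

namespace Pool.Agent.TH623.SA

variable {Γ : Subgroup SL(2, ℝ)}

/-- A surface group has no common eigenvector in `ℂ²`. -/
theorem no_common_eigenvector (hΓ : IsSurfaceGroup Γ) (v : Fin 2 → ℂ) (hv : v ≠ 0)
    (hinv : ∀ γ ∈ Γ, ∃ c : ℂ, (γ 0 0 : ℂ) * v 0 + (γ 0 1 : ℂ) * v 1 = c * v 0 ∧
      (γ 1 0 : ℂ) * v 0 + (γ 1 1 : ℂ) * v 1 = c * v 1) : False := by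
  obtain ⟨h, hh, hh1⟩ := exists_ne_one hΓ
  obtain ⟨x, ℓ, s, hℓ, hs, he⟩ := hyp_form h (two_lt_abs_t2 hΓ hh hh1)
  obtain ⟨w0, hw0⟩ : ∃ w0 : ℂ, w0 = (x 1 1 : ℂ) * v 0 - (x 0 1 : ℂ) * v 1 := ⟨_, rfl⟩
  obtain ⟨w1, hw1⟩ : ∃ w1 : ℂ, w1 = -(x 1 0 : ℂ) * v 0 + (x 0 0 : ℂ) * v 1 := ⟨_, rfl⟩
  have hdx : (x 0 0 : ℂ) * (x 1 1 : ℂ) - (x 0 1 : ℂ) * (x 1 0 : ℂ) = 1 := by
    exact_mod_cast det_eq x
  have hv0 : v 0 = (x 0 0 : ℂ) * w0 + (x 0 1 : ℂ) * w1 := by
    rw [hw0, hw1]; linear_combination (-v 0) * hdx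
  have hv1 : v 1 = (x 1 0 : ℂ) * w0 + (x 1 1 : ℂ) * w1 := by
    rw [hw0, hw1]; linear_combination (-v 1) * hdx
  have hw : w0 ≠ 0 ∨ w1 ≠ 0 := by
    by_contra hcon
    push Not at hcon
    apply hv
    ext i
    fin_cases i
    · show v 0 = 0
      rw [hv0, hcon.1, hcon.2]; ring
    · show v 1 = 0
      rw [hv1, hcon.1, hcon.2]; ring
  -- the conjugated group
  have hconj : ∀ γ ∈ Γ, ∃ c : ℂ,
      ((x⁻¹ * γ * x) 0 0 : ℂ) * w0 + ((x⁻¹ * γ * x) 0 1 : ℂ) * w1 = c * w0 ∧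
      ((x⁻¹ * γ * x) 1 0 : ℂ) * w0 + ((x⁻¹ * γ * x) 1 1 : ℂ) * w1 = c * w1 := by
    intro γ hγ
    obtain ⟨c, h1, h2⟩ := hinv γ hγ
    obtain ⟨i1, i2, i3, i4⟩ := inv_entries x
    refine ⟨c, ?_, ?_⟩
    · simp only [mul_entries, i1, i2, i3, i4]
      push_cast
      rw [hv0, hv1] at h1 h2
      linear_combination (x 1 1 : ℂ) * h1 - (x 0 1 : ℂ) * h2 + c * w0 * hdx
    · simp only [mul_entries, i1, i2, i3, i4]
      push_cast
      rw [hv0, hv1] at h1 h2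
      linear_combination (x 0 0 : ℂ) * h2 - (x 1 0 : ℂ) * h1 + c * w1 * hdx
  -- one of the coordinates vanishes
  have hzero : w0 = 0 ∨ w1 = 0 := by
    obtain ⟨c, h1, h2⟩ := hconj h hh
    have e1 : x⁻¹ * h * x = s * aa ℓ := by rw [he]; group
    rw [e1] at h1 h2
    have hne : Real.exp (ℓ / 2) ≠ Real.exp (-(ℓ / 2)) := by
      intro h3
      have := Real.exp_injective h3
      linarith
    have hne' : (Real.exp (ℓ / 2) : ℂ) - (Real.exp (-(ℓ / 2)) : ℂ) ≠ 0 := by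
      intro h3
      apply hne
      have := sub_eq_zero.1 h3
      exact_mod_cast this
    by_contra hcon
    push Not at hcon
    obtain ⟨n0, n1⟩ := hcon
    rcases hs with rfl | rfl
    · rw [one_mul] at h1 h2
      simp only [aa_00, aa_01, aa_10, aa_11, Complex.ofReal_zero, zero_mul, add_zero, zero_add]
        at h1 h2
      have h3 := mul_right_cancel₀ n0 h1
      have h4 := mul_right_cancel₀ n1 h2
      exact hne' (by rw [h3, h4]; ring)
    · rw [neg_mul, one_mul] at h1 h2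
      simp only [neg_entries, aa_00, aa_01, aa_10, aa_11, Complex.ofReal_zero, Complex.ofReal_neg,
        neg_zero, zero_mul, add_zero, zero_add] at h1 h2
      have h3 := mul_right_cancel₀ n0 h1
      have h4 := mul_right_cancel₀ n1 h2
      exact hne' (by linear_combination h4 - h3)
  -- the conjugated group is triangular
  have htri : ∀ γ ∈ Γ, (x⁻¹ * γ * x) 0 1 * (x⁻¹ * γ * x) 1 0 = 0 := by
    intro γ hγ
    obtain ⟨c, h1, h2⟩ := hconj γ hγ
    rcases hzero with h0 | h0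
    · have n1 : w1 ≠ 0 := hw.resolve_left (fun h => h h0)
      rw [h0] at h1
      simp only [mul_zero, zero_add] at h1
      have h3 := (mul_eq_zero.1 h1).resolve_right n1
      have h4 : (x⁻¹ * γ * x) 0 1 = 0 := by exact_mod_cast h3
      rw [h4, zero_mul]
    · have n0 : w0 ≠ 0 := hw.resolve_right (fun h => h h0)
      rw [h0] at h2
      simp only [mul_zero, add_zero] at h2
      have h3 := (mul_eq_zero.1 h2).resolve_right n0
      have h4 : (x⁻¹ * γ * x) 1 0 = 0 := by exact_mod_cast h3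
      rw [h4, mul_zero]
  -- hence diagonal
  have hdiag : ∀ γ ∈ Γ, (x⁻¹ * γ * x) 0 1 = 0 ∧ (x⁻¹ * γ * x) 1 0 = 0 := by
    intro γ hγ
    have h1 := htri γ hγ
    obtain ⟨m, hm⟩ : ∃ m, m = x⁻¹ * γ * x := ⟨_, rfl⟩
    rw [← hm] at h1 ⊢
    have hk : h * γ * h⁻¹ * γ⁻¹ ∈ Γ :=
      Γ.mul_mem (Γ.mul_mem (Γ.mul_mem hh hγ) (Γ.inv_mem hh)) (Γ.inv_mem hγ)
    have e1 : h * γ * h⁻¹ * γ⁻¹ = x * (aa ℓ * m * (aa ℓ)⁻¹ * m⁻¹) * x⁻¹ := by
      rcases hs with rfl | rfl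
      · rw [he, hm]; group
      · rw [he, hm, neg_one_mul]
        have : x * -aa ℓ * x⁻¹ = -(x * aa ℓ * x⁻¹) := by simp
        rw [this, inv_neg]
        simp only [neg_mul, mul_neg, neg_neg]
        group
    have hdm := det_eq m
    have ht : t2 (h * γ * h⁻¹ * γ⁻¹) = 2 := by
      rw [e1, t2_conj]
      obtain ⟨i1, i2, i3, i4⟩ := inv_entries m
      rw [← aa_neg]
      unfold t2
      simp only [mul_entries, i1, i2, i3, i4, aa_00, aa_01, aa_10, aa_11]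
      have h5 : Real.exp (ℓ / 2) * Real.exp (-ℓ / 2) = 1 := by
        rw [← Real.exp_add]
        have : ℓ / 2 + -ℓ / 2 = 0 := by ring
        rw [this, Real.exp_zero]
      have h6 : Real.exp (-(ℓ / 2)) * Real.exp (-(-ℓ / 2)) = 1 := by
        rw [← Real.exp_add]
        have : -(ℓ / 2) + -(-ℓ / 2) = 0 := by ring
        rw [this, Real.exp_zero]
      have hm1 : m 0 0 * m 1 1 = 1 := by linarith
      linear_combination (m 0 0 * m 1 1) * h5 + (m 0 0 * m 1 1) * h6 + 2 * hm1 -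
        Real.exp (ℓ / 2) * Real.exp (-(-ℓ / 2)) * h1 -
        Real.exp (-(ℓ / 2)) * Real.exp (-ℓ / 2) * h1
    have hone : h * γ * h⁻¹ * γ⁻¹ = 1 := by
      by_contra hne
      have := two_lt_abs_t2 hΓ hk hne
      rw [ht] at this
      norm_num at this
    have hcomm : aa ℓ * m = m * aa ℓ := by
      rw [e1] at hone
      have h7 : aa ℓ * m * (aa ℓ)⁻¹ * m⁻¹ = 1 := by
        have h8 := congrArg (fun z => x⁻¹ * z * x) hone
        simp only [mul_one, inv_mul_cancel] at h8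
        rw [← h8]; group
      have h9 := congrArg (fun z => z * m * aa ℓ) h7
      simp only [one_mul] at h9
      rw [← h9]; group
    have hne : Real.exp (ℓ / 2) - Real.exp (-(ℓ / 2)) ≠ 0 := by
      intro h3
      have := Real.exp_injective (sub_eq_zero.1 h3)
      linarith
    constructor
    · have h8 := congrArg (fun z : SL(2, ℝ) => z 0 1) hcomm
      simp only [mul_entries, aa_00, aa_01, aa_10, aa_11] at h8
      have h9 : m 0 1 * (Real.exp (ℓ / 2) - Real.exp (-(ℓ / 2))) = 0 := by linear_combination h8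
      exact (mul_eq_zero.1 h9).resolve_right hne
    · have h8 := congrArg (fun z : SL(2, ℝ) => z 1 0) hcomm
      simp only [mul_entries, aa_00, aa_01, aa_10, aa_11] at h8
      have h9 : m 1 0 * (Real.exp (ℓ / 2) - Real.exp (-(ℓ / 2))) = 0 := by
        linear_combination (-1 : ℝ) * h8
      exact (mul_eq_zero.1 h9).resolve_right hne
  -- not cocompact
  obtain ⟨R₀, hR₀, hround⟩ := exists_round hΓ
  obtain ⟨X, hX⟩ : ∃ X, Bd X x := by
    refine ⟨|x 0 0| + |x 0 1| + |x 1 0| + |x 1 1|, fun a b => ?_⟩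
    have e1 := abs_nonneg (x 0 0)
    have e2 := abs_nonneg (x 0 1)
    have e3 := abs_nonneg (x 1 0)
    have e4 := abs_nonneg (x 1 1)
    fin_cases a <;> fin_cases b <;> simp only [Fin.zero_eta, Fin.mk_one] <;> linarith
  set R₁ := 2 * X * R₀ with hR₁
  obtain ⟨γ, hγ, hb⟩ := hround (x * uu (R₁ ^ 2 + 1))
  have h1 : Bd R₁ (x⁻¹ * (γ⁻¹ * (x * uu (R₁ ^ 2 + 1)))) := hX.inv.mul hb
  obtain ⟨d1, d2⟩ := hdiag γ⁻¹ (Γ.inv_mem hγ)
  obtain ⟨m, hm⟩ : ∃ m, m = x⁻¹ * γ⁻¹ * x := ⟨_, rfl⟩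
  rw [← hm] at d1 d2
  have h2 : x⁻¹ * (γ⁻¹ * (x * uu (R₁ ^ 2 + 1))) = m * uu (R₁ ^ 2 + 1) := by rw [hm]; group
  rw [h2] at h1
  have h3 := h1 0 1
  have h4 := h1 1 1
  rw [mul_entries, uu_01, uu_11, d1] at h3
  rw [mul_entries, uu_01, uu_11, d2] at h4
  simp only [zero_mul, add_zero, zero_add, mul_one] at h3 h4
  have hdm := det_eq m
  rw [d1, zero_mul, sub_zero] at hdm
  have h5 : |m 0 0 * (R₁ ^ 2 + 1)| * |m 1 1| ≤ R₁ * R₁ :=
    mul_le_mul h3 h4 (abs_nonneg _) ((abs_nonneg _).trans h3)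
  rw [← abs_mul] at h5
  have h6 : m 0 0 * (R₁ ^ 2 + 1) * m 1 1 = R₁ ^ 2 + 1 := by
    linear_combination (R₁ ^ 2 + 1) * hdm
  rw [h6, abs_of_pos (by positivity)] at h5
  nlinarith

end Pool.Agent.TH623.SA
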