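import Pool.Agent.TH623.SA.Nil

set_option autoImplicit false
set_option linter.unusedSectionVars false

open Matrix WithLp

namespace Pool.Agent.TH623.SA

variable {𝕜 : Type*} [RCLike 𝕜] {n ι : Type*} [Fintype n] [DecidableEq n] [Fintype ι]

/-- the square of the Frobenius norm -/
noncomputable def nsq (A : Matrix n n 𝕜) : ℝ := ∑ i, ∑ j, ‖A i j‖ ^ 2

/-- the sum of the squares of the Frobenius norms -/
noncomputable def tsq (A : ι → Matrix n n 𝕜) : ℝ := ∑ s, nsq (A s)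

/-- simultaneous conjugation -/
def cj (g : (Matrix n n 𝕜)ˣ) (A : ι → Matrix n n 𝕜) : ι → Matrix n n 𝕜 :=
  fun s => g.1 * A s * g⁻¹.1

theorem nsq_nonneg (A : Matrix n n 𝕜) : 0 ≤ nsq A :=
  Finset.sum_nonneg fun _ _ => Finset.sum_nonneg fun _ _ => by positivity

theorem tsq_nonneg (A : ι → Matrix n n 𝕜) : 0 ≤ tsq A :=
  Finset.sum_nonneg fun _ _ => nsq_nonneg _

theorem nsq_eq_trace (A : Matrix n n 𝕜) : ((nsq A : ℝ) : 𝕜) = trace (Aᴴ * A) := by
  unfold nsq
  rw [Matrix.trace]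
  simp only [Matrix.diag_apply, Matrix.mul_apply, Matrix.conjTranspose_apply]
  rw [Finset.sum_comm]
  push_cast
  refine Finset.sum_congr rfl fun i _ => Finset.sum_congr rfl fun j _ => ?_
  rw [RCLike.star_def, RCLike.conj_mul]

theorem nsq_eq_zero {A : Matrix n n 𝕜} (h : nsq A = 0) : A = 0 := by
  ext i j
  unfold nsq at h
  rw [Finset.sum_eq_zero_iff_of_nonneg (fun _ _ => Finset.sum_nonneg fun _ _ => by positivity)] at h
  have h1 := h i (Finset.mem_univ _)
  rw [Finset.sum_eq_zero_iff_of_nonneg (fun _ _ => by positivity)] at h1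
  have h2 := h1 j (Finset.mem_univ _)
  simpa using h2

theorem nsq_smul (c : 𝕜) (A : Matrix n n 𝕜) : nsq (c • A) = ‖c‖ ^ 2 * nsq A := by
  unfold nsq
  simp only [Matrix.smul_apply, norm_smul, mul_pow, Finset.mul_sum]

theorem nsq_add {A B : Matrix n n 𝕜} (h : trace (Aᴴ * B) = 0) : nsq (A + B) = nsq A + nsq B := by
  have h' : trace (Bᴴ * A) = 0 := by
    have h1 : trace (Bᴴ * A) = star (trace (Aᴴ * B)) := by
      rw [← Matrix.trace_conjTranspose, Matrix.conjTranspose_mul, Matrix.conjTranspose_conjTranspose]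
    rw [h1, h, star_zero]
  have h2 : ((nsq (A + B) : ℝ) : 𝕜) = ((nsq A + nsq B : ℝ) : 𝕜) := by
    rw [nsq_eq_trace, RCLike.ofReal_add, nsq_eq_trace, nsq_eq_trace, Matrix.conjTranspose_add,
      add_mul, mul_add, mul_add, Matrix.trace_add, Matrix.trace_add, Matrix.trace_add, h, h']
    ring
  exact_mod_cast h2

/-- the block decomposition of the Frobenius norm -/
theorem nsq_blocks {p : Matrix n n 𝕜} (hp : pᴴ = p) (hpp : p * p = p) (X : Matrix n n 𝕜) (t : 𝕜) :
    nsq (p * X * p + t • (p * X * (1 - p)) + (1 - p) * X * (1 - p)) =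
      nsq (p * X * p) + ‖t‖ ^ 2 * nsq (p * X * (1 - p)) + nsq ((1 - p) * X * (1 - p)) := by
  have hpq : p * (1 - p) = 0 := by rw [mul_sub, mul_one, hpp, sub_self]
  have hqp : (1 - p) * p = 0 := by rw [sub_mul, one_mul, hpp, sub_self]
  have hq : (1 - p)ᴴ = 1 - p := by rw [Matrix.conjTranspose_sub, Matrix.conjTranspose_one, hp]
  rw [nsq_add, nsq_add, nsq_smul]
  · rw [Matrix.conjTranspose_mul, Matrix.conjTranspose_mul, hp, Matrix.mul_smul, Matrix.trace_smul]
    have : p * (Xᴴ * p) * (p * X * (1 - p)) = p * (Xᴴ * p * p * X * (1 - p)) := by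
      simp only [Matrix.mul_assoc]
    rw [this, Matrix.trace_mul_comm]
    have : Xᴴ * p * p * X * (1 - p) * p = 0 := by
      rw [Matrix.mul_assoc, hqp, Matrix.mul_zero]
    rw [this]; simp
  · rw [Matrix.conjTranspose_add, Matrix.conjTranspose_smul, Matrix.conjTranspose_mul,
      Matrix.conjTranspose_mul, Matrix.conjTranspose_mul, Matrix.conjTranspose_mul, hp, hq,
      add_mul, Matrix.smul_mul]
    have h1 : p * (Xᴴ * p) * ((1 - p) * X * (1 - p)) = 0 := by
      have : p * (Xᴴ * p) * ((1 - p) * X * (1 - p)) = p * Xᴴ * (p * (1 - p)) * X * (1 - p) := by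
        simp only [Matrix.mul_assoc]
      rw [this, hpq]; simp
    have h2 : (1 - p) * (Xᴴ * p) * ((1 - p) * X * (1 - p)) = 0 := by
      have : (1 - p) * (Xᴴ * p) * ((1 - p) * X * (1 - p))
          = (1 - p) * Xᴴ * (p * (1 - p)) * X * (1 - p) := by
        simp only [Matrix.mul_assoc]
      rw [this, hpq]; simp
    rw [h1, h2]; simp

/-- A tuple of minimal norm in its conjugacy class: the off-diagonal blocks vanish. -/
theorem min_block {A : ι → Matrix n n 𝕜} (hmin : ∀ g : (Matrix n n 𝕜)ˣ, tsq A ≤ tsq (cj g A))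
    {p : Matrix n n 𝕜} (hp : pᴴ = p) (hpp : p * p = p)
    (hinv : ∀ s, (1 - p) * A s * p = 0) (s : ι) : p * A s * (1 - p) = 0 := by
  have hpq : p * (1 - p) = 0 := by rw [mul_sub, mul_one, hpp, sub_self]
  have hqp : (1 - p) * p = 0 := by rw [sub_mul, one_mul, hpp, sub_self]
  have hqq : (1 - p) * (1 - p) = 1 - p := by rw [mul_sub, mul_one, hqp, sub_zero]
  have hdec : ∀ s, A s = p * A s * p + (1 : 𝕜) • (p * A s * (1 - p)) + (1 - p) * A s * (1 - p) := by
    intro s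
    have h1 : A s = (p + (1 - p)) * A s * (p + (1 - p)) := by simp
    conv_lhs => rw [h1]
    rw [add_mul, add_mul, mul_add, mul_add, hinv s, one_smul, zero_add]
  have h2 : (2 : 𝕜) ≠ 0 := two_ne_zero
  let g : (Matrix n n 𝕜)ˣ :=
    ⟨(2⁻¹ : 𝕜) • p + (1 - p), (2 : 𝕜) • p + (1 - p), by
      rw [add_mul, mul_add, mul_add, Matrix.smul_mul, Matrix.smul_mul, Matrix.mul_smul,
        Matrix.mul_smul, hpp, hpq, hqp, hqq, smul_smul, inv_mul_cancel₀ h2]
      simp, by
      rw [add_mul, mul_add, mul_add, Matrix.smul_mul, Matrix.smul_mul, Matrix.mul_smul,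
        Matrix.mul_smul, hpp, hpq, hqp, hqq, smul_smul, mul_inv_cancel₀ h2]
      simp⟩
  have hg : ∀ s, cj g A s =
      p * A s * p + (2⁻¹ : 𝕜) • (p * A s * (1 - p)) + (1 - p) * A s * (1 - p) := by
    intro s
    show ((2⁻¹ : 𝕜) • p + (1 - p)) * A s * ((2 : 𝕜) • p + (1 - p)) = _
    rw [add_mul, add_mul, mul_add, mul_add, Matrix.smul_mul, Matrix.smul_mul, Matrix.smul_mul,
      Matrix.mul_smul, Matrix.mul_smul, hinv s, smul_smul, inv_mul_cancel₀ h2]
    simp
  have hle := hmin g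
  have e1 : tsq (cj g A) = ∑ s, (nsq (p * A s * p) + ‖(2⁻¹ : 𝕜)‖ ^ 2 * nsq (p * A s * (1 - p))
      + nsq ((1 - p) * A s * (1 - p))) := by
    unfold tsq
    refine Finset.sum_congr rfl fun s _ => ?_
    rw [hg, nsq_blocks hp hpp]
  have e2 : tsq A = ∑ s, (nsq (p * A s * p) + ‖(1 : 𝕜)‖ ^ 2 * nsq (p * A s * (1 - p))
      + nsq ((1 - p) * A s * (1 - p))) := by
    unfold tsq
    refine Finset.sum_congr rfl fun s _ => ?_
    conv_lhs => rw [hdec s]
    rw [nsq_blocks hp hpp]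
  have e3 : ‖(2⁻¹ : 𝕜)‖ ^ 2 = 1 / 4 := by
    rw [norm_inv, RCLike.norm_two]; norm_num
  rw [e1, e2, e3] at hle
  have h4 : ∑ s, nsq (p * A s * (1 - p)) ≤ 0 := by
    have h5 : ∑ s, (nsq (p * A s * p) + ‖(1 : 𝕜)‖ ^ 2 * nsq (p * A s * (1 - p))
      + nsq ((1 - p) * A s * (1 - p))) - ∑ s, (nsq (p * A s * p) + 1 / 4 * nsq (p * A s * (1 - p))
      + nsq ((1 - p) * A s * (1 - p))) = 3 / 4 * ∑ s, nsq (p * A s * (1 - p)) := by
      rw [← Finset.sum_sub_distrib, Finset.mul_sum]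
      refine Finset.sum_congr rfl fun s _ => ?_
      rw [norm_one]; ring
    linarith
  have h5 := Finset.sum_nonneg (fun s (_ : s ∈ (Finset.univ : Finset ι)) =>
    nsq_nonneg (p * A s * (1 - p)))
  have h6 := (Finset.sum_eq_zero_iff_of_nonneg (fun s (_ : s ∈ (Finset.univ : Finset ι)) =>
    nsq_nonneg (p * A s * (1 - p)))).1 (le_antisymm h4 h5) s (Finset.mem_univ _)
  exact nsq_eq_zero h6

/-- The orthogonal complement of an invariant subspace is invariant, for a tuple of minimal norm in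
its conjugacy class. -/
theorem orth_invariant {A : ι → Matrix n n 𝕜}
    (hmin : ∀ g : (Matrix n n 𝕜)ˣ, tsq A ≤ tsq (cj g A))
    (W : Submodule 𝕜 (EuclideanSpace 𝕜 n))
    (hinv : ∀ s, ∀ v ∈ W, toEuclideanCLM (n := n) (𝕜 := 𝕜) (A s) v ∈ W) (s : ι)
    {v : EuclideanSpace 𝕜 n} (hv : v ∈ Wᗮ) :
    toEuclideanCLM (n := n) (𝕜 := 𝕜) (A s) v ∈ Wᗮ := by
  set Φ : Matrix n n 𝕜 ≃⋆ₐ[𝕜] (EuclideanSpace 𝕜 n →L[𝕜] EuclideanSpace 𝕜 n) :=
    toEuclideanCLM (n := n) (𝕜 := 𝕜) with hΦ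
  set P : EuclideanSpace 𝕜 n →L[𝕜] EuclideanSpace 𝕜 n := W.starProjection with hP
  set p : Matrix n n 𝕜 := Φ.symm P with hp'
  have hΦp : Φ p = P := Φ.apply_symm_apply P
  have hp : pᴴ = p := by
    apply EquivLike.injective Φ
    have h1 : Φ pᴴ = star (Φ p) := map_star Φ p
    rw [h1, hΦp]
    exact isSelfAdjoint_starProjection W
  have hpp : p * p = p := by
    apply EquivLike.injective Φ
    rw [map_mul, hΦp]
    exact W.isIdempotentElem_starProjection
  have hinv' : ∀ s, (1 - p) * A s * p = 0 := by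
    intro s
    apply EquivLike.injective Φ
    rw [map_mul, map_mul, map_sub, map_one, hΦp, map_zero]
    ext1 x
    have h1 : P x ∈ W := W.starProjection_apply_mem x
    have h2 := hinv s _ h1
    have h3 : P (Φ (A s) (P x)) = Φ (A s) (P x) := Submodule.starProjection_eq_self_iff.2 h2
    simp [h3]
  have h1 := min_block hmin hp hpp hinv' s
  have h2 := congrArg Φ h1
  rw [map_mul, map_mul, map_sub, map_one, hΦp, map_zero] at h2
  have h3 := congrArg (fun L : EuclideanSpace 𝕜 n →L[𝕜] EuclideanSpace 𝕜 n => L v) h2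
  have h4 : P v = 0 := W.starProjection_apply_eq_zero_iff.2 hv
  simp [h4] at h3
  exact W.starProjection_apply_eq_zero_iff.1 h3

theorem toCLM_word (A : ι → Matrix n n 𝕜) (w : List ι) :
    (w.map fun s => ((toEuclideanCLM (n := n) (𝕜 := 𝕜) (A s) :
        EuclideanSpace 𝕜 n →L[𝕜] EuclideanSpace 𝕜 n) : Module.End 𝕜 (EuclideanSpace 𝕜 n))).prod
      = ((toEuclideanCLM (n := n) (𝕜 := 𝕜) ((w.map A).prod) :
        EuclideanSpace 𝕜 n →L[𝕜] EuclideanSpace 𝕜 n) : Module.End 𝕜 (EuclideanSpace 𝕜 n)) := by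
  induction w with
  | nil => simp
  | cons s w ih =>
    rw [List.map_cons, List.prod_cons, ih, List.map_cons, List.prod_cons, map_mul]
    rfl

theorem trace_toCLM (M : Matrix n n 𝕜) :
    LinearMap.trace 𝕜 (EuclideanSpace 𝕜 n) ((toEuclideanCLM (n := n) (𝕜 := 𝕜) M :
        EuclideanSpace 𝕜 n →L[𝕜] EuclideanSpace 𝕜 n) : Module.End 𝕜 (EuclideanSpace 𝕜 n))
      = Matrix.trace M := by
  rw [coe_toEuclideanCLM_eq_toEuclideanLin]
  show LinearMap.trace 𝕜 (EuclideanSpace 𝕜 n) (toLpLin 2 2 M) = _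
  rw [Matrix.toLpLin_eq_toLin]
  exact Matrix.trace_toLin_eq M _

/-- A tuple of minimal norm in its conjugacy class all of whose nonempty words have trace zero
is zero. -/
theorem min_nil_eq_zero {A : ι → Matrix n n 𝕜}
    (hmin : ∀ g : (Matrix n n 𝕜)ˣ, tsq A ≤ tsq (cj g A))
    (htr : ∀ w : List ι, w ≠ [] → trace ((w.map A).prod) = 0) : tsq A = 0 := by
  let a : ι → Module.End 𝕜 (EuclideanSpace 𝕜 n) := fun s =>
    ((toEuclideanCLM (n := n) (𝕜 := 𝕜) (A s) :
        EuclideanSpace 𝕜 n →L[𝕜] EuclideanSpace 𝕜 n) : Module.End 𝕜 (EuclideanSpace 𝕜 n))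
  have hatr : ∀ w : List ι, w ≠ [] →
      LinearMap.trace 𝕜 (EuclideanSpace 𝕜 n) ((w.map a).prod) = 0 := by
    intro w hw
    rw [toCLM_word A w, trace_toCLM, htr w hw]
  let W : Submodule 𝕜 (EuclideanSpace 𝕜 n) := ⨅ s, LinearMap.ker (a s)
  have hWmem : ∀ v, v ∈ W ↔ ∀ s, a s v = 0 := by
    intro v
    simp [W, Submodule.mem_iInf]
  have hW : ∀ s, ∀ v ∈ W, a s v ∈ W := by
    intro s v hv
    rw [(hWmem v).1 hv s]
    exact W.zero_mem
  have hbot : Wᗮ = ⊥ := by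
    by_contra hne
    obtain ⟨v, hv, hv0, hker⟩ := exists_common_kernel a hatr Wᗮ hne
      (fun s v hv => orth_invariant hmin W hW s hv)
    have h1 : v ∈ W := (hWmem v).2 hker
    have h2 : inner 𝕜 v v = 0 := W.inner_right_of_mem_orthogonal h1 hv
    exact hv0 (inner_self_eq_zero.1 h2)
  have htop : W = ⊤ := Submodule.orthogonal_eq_bot_iff.1 hbot
  have hzero : ∀ s, A s = 0 := by
    intro s
    apply EquivLike.injective (toEuclideanCLM (n := n) (𝕜 := 𝕜))
    rw [map_zero]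
    ext1 v
    have h1 : v ∈ W := by rw [htop]; trivial
    exact (hWmem v).1 h1 s
  unfold tsq nsq
  simp [hzero]

end Pool.Agent.TH623.SA
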