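import Pool.Agent.TH623.SA.Semi
import Pool.Agent.TH623.SA.Bdd

set_option autoImplicit false

open Matrix UpperHalfPlane Metric Module Filter Topology
open scoped MatrixGroups MonoidAlgebra

namespace Pool.Agent.TH623.SA

theorem word_hom {G n ι : Type*} [Monoid G] [Fintype n] [DecidableEq n]
    (β : G →* Matrix n n ℂ) (e : ι → G) (w : List ι) :
    (w.map fun s => β (e s)).prod = β (w.map e).prod := by
  rw [map_list_prod, List.map_map]
  rfl

/-- A homomorphism whose values on generators have minimal norm under conjugation is semisimple. -/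
theorem semisimple_of_min {G n ι : Type*} [Monoid G] [Fintype n] [DecidableEq n] [Fintype ι]
    (β : G →* Matrix n n ℂ) (e : ι → G) (hgen : ∀ g, ∃ w : List ι, (w.map e).prod = g)
    (hmin : ∀ u : (Matrix n n ℂ)ˣ, tsq (fun s => β (e s)) ≤ tsq (cj u (fun s => β (e s)))) :
    (repOf β).IsSemisimpleRepresentation := by
  refine ⟨fun W => ?_⟩
  let L : EuclideanSpace ℂ n ≃ₗ[ℂ] (n → ℂ) := WithLp.linearEquiv 2 ℂ (n → ℂ)
  set W' : Submodule ℂ (EuclideanSpace ℂ n) := W.toSubmodule.comap (L : EuclideanSpace ℂ n →ₗ[ℂ] _)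
    with hW'
  have hL : ∀ (M : Matrix n n ℂ) (v : EuclideanSpace ℂ n),
      L (toEuclideanCLM (n := n) (𝕜 := ℂ) M v) = M *ᵥ L v := fun M v => rfl
  have h1 := fun (s : ι) (v : EuclideanSpace ℂ n) (hv : v ∈ W'ᗮ) =>
    orth_invariant hmin W' (fun s v hv => by
      rw [hW', Submodule.mem_comap] at hv ⊢
      show L _ ∈ _
      rw [hL]
      exact W.apply_mem_toSubmodule (e s) hv) s hv
  have h2 : ∀ (w : List ι) (v : EuclideanSpace ℂ n), v ∈ W'ᗮ →
      toEuclideanCLM (n := n) (𝕜 := ℂ) (β (w.map e).prod) v ∈ W'ᗮ := by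
    intro w
    induction w with
    | nil => intro v hv; simpa using hv
    | cons s w ih =>
      intro v hv
      rw [List.map_cons, List.prod_cons, map_mul, map_mul]
      exact h1 s _ (ih v hv)
  let U : Subrepresentation (repOf β) :=
    { toSubmodule := W'ᗮ.map (L : EuclideanSpace ℂ n →ₗ[ℂ] _)
      apply_mem_toSubmodule := by
        rintro g _ ⟨v, hv, rfl⟩
        obtain ⟨w, rfl⟩ := hgen g
        exact ⟨_, h2 w v hv, rfl⟩ }
  refine ⟨U, IsCompl.of_eq ?_ ?_⟩
  · apply Subrepresentation.toSubmodule_injective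
    show W.toSubmodule ⊓ W'ᗮ.map (L : EuclideanSpace ℂ n →ₗ[ℂ] _) = ⊥
    rw [eq_bot_iff]
    rintro _ ⟨hx1, v, hv, rfl⟩
    have hvW : v ∈ W' := hx1
    have h3 : v ∈ W' ⊓ W'ᗮ := ⟨hvW, hv⟩
    rw [Submodule.inf_orthogonal_eq_bot] at h3
    rw [(Submodule.mem_bot ℂ).1 h3]
    simp
  · apply Subrepresentation.toSubmodule_injective
    show W.toSubmodule ⊔ W'ᗮ.map (L : EuclideanSpace ℂ n →ₗ[ℂ] _) = ⊤
    have h3 : W.toSubmodule = W'.map (L : EuclideanSpace ℂ n →ₗ[ℂ] _) := by
      rw [hW', Submodule.map_comap_eq_of_surjective L.surjective]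
    rw [h3, ← Submodule.map_sup, Submodule.sup_orthogonal_of_hasOrthogonalProjection,
      Submodule.map_top, LinearEquiv.range]

theorem trace_repOf {G n : Type*} [Monoid G] [Fintype n] [DecidableEq n]
    (β : G →* Matrix n n ℂ) (g : G) :
    LinearMap.trace ℂ (n → ℂ) (repOf β g) = (β g).trace := by
  show LinearMap.trace ℂ (n → ℂ) (β g).mulVecLin = _
  rw [← Matrix.toLin'_apply']
  exact Matrix.trace_toLin'_eq _

/-- Two semisimple homomorphisms to matrices with the same traces are conjugate. -/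
theorem exists_conj {G : Type*} {n : Type} [Monoid G] [Fintype n] [DecidableEq n]
    (β σ : G →* Matrix n n ℂ) (hβ : (repOf β).IsSemisimpleRepresentation)
    (hσ : (repOf σ).IsSemisimpleRepresentation) (htr : ∀ g, (β g).trace = (σ g).trace) :
    ∃ u : (Matrix n n ℂ)ˣ, ∀ g, u.1 * β g * u⁻¹.1 = σ g := by
  obtain ⟨e, he⟩ := rep_iso (repOf β) (repOf σ) hβ hσ (fun g => by
    rw [trace_repOf, trace_repOf, htr])
  let u : (Matrix n n ℂ)ˣ :=
    { val := LinearMap.toMatrix' (e : (n → ℂ) →ₗ[ℂ] (n → ℂ))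
      inv := LinearMap.toMatrix' (e.symm : (n → ℂ) →ₗ[ℂ] (n → ℂ))
      val_inv := by
        rw [← LinearMap.toMatrix'_comp]
        simp
      inv_val := by
        rw [← LinearMap.toMatrix'_comp]
        simp }
  refine ⟨u, fun g => ?_⟩
  have h1 : u.1 * β g = σ g * u.1 := by
    apply Matrix.toLin'.injective
    rw [Matrix.toLin'_mul, Matrix.toLin'_mul]
    refine LinearMap.ext fun v => ?_
    show (Matrix.toLin' u.1 ∘ₗ Matrix.toLin' (β g)) v = (Matrix.toLin' (σ g) ∘ₗ Matrix.toLin' u.1) v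
    have h2 : Matrix.toLin' u.1 = (e : (n → ℂ) →ₗ[ℂ] (n → ℂ)) := Matrix.toLin'_toMatrix' _
    rw [h2]
    exact he g v
  rw [h1, mul_assoc, Units.mul_inv, mul_one]

variable {Γ : Subgroup SL(2, ℝ)}

/-- If the characters of a sequence of representations converge to the character of the block
representation, then after conjugation and passing to a subsequence the representations come
close to the block representation. -/
theorem close_of_tendsto (hΓ : IsSurfaceGroup Γ) (j r : ℕ)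
    (ρ : ℕ → Γ →* Matrix (Idx j r) (Idx j r) ℂ)
    (hlim : ∀ γ : Γ, Tendsto (fun k => (ρ k γ).trace) atTop (𝓝 (Phi j r γ).trace))
    (F : Set SL(2, ℝ)) (hF : F.Finite) (ε : ℝ) (hε : 0 < ε) :
    ∃ k, ∃ u : (Matrix (Idx j r) (Idx j r) ℂ)ˣ, ∀ δ : Γ, (δ : SL(2, ℝ)) ∈ F →
      ∀ a b, ‖(u.1 * ρ k δ * u⁻¹.1) a b - Phi j r δ a b‖ ≤ ε := by
  obtain ⟨S, hSΓ, hSinv, hS1, hSgen⟩ := exists_generators hΓ
  let ι := {s // s ∈ S}
  let e : ι → Γ := fun s => ⟨s.1, hSΓ s.1 s.2⟩
  have hgen : ∀ γ : Γ, ∃ w : List ι, (w.map e).prod = γ := by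
    intro γ
    obtain ⟨w, hw, hwγ⟩ := hSgen γ γ.2
    refine ⟨w.attach.map fun s => ⟨s.1, hw s.1 s.2⟩, Subtype.ext ?_⟩
    rw [← hwγ, List.map_map]
    show Γ.subtype _ = _
    rw [map_list_prod, List.map_map]
    congr 1
    exact List.attach_map_subtype_val w
  let A : ℕ → ι → Matrix (Idx j r) (Idx j r) ℂ := fun k s => ρ k (e s)
  obtain ⟨g, φ, B, hφ, hB, hmin, -⟩ := exists_limit A
    (fun w => (Phi j r ((w.map e).prod : Γ)).trace) (fun w _ => by
      have := hlim (w.map e).prod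
      refine this.congr fun k => ?_
      rw [← word_hom (ρ k) e w])
  -- the limit exists on the whole group
  have hex : ∀ γ : Γ, ∃ L : Matrix (Idx j r) (Idx j r) ℂ,
      Tendsto (fun k => (g k).1 * ρ (φ k) γ * (g k)⁻¹.1) atTop (𝓝 L) := by
    intro γ
    obtain ⟨w, hw⟩ := hgen γ
    refine ⟨(w.map B).prod, ?_⟩
    have h1 := ((continuous_word (𝕜 := ℂ) (n := Idx j r) w).tendsto B).comp hB
    refine h1.congr fun k => ?_
    show (w.map (cj (g k) (A (φ k)))).prod = _
    rw [word_cj, ← hw, ← word_hom (ρ (φ k)) e w]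
  choose β hβ using hex
  let βh : Γ →* Matrix (Idx j r) (Idx j r) ℂ :=
    { toFun := β
      map_one' := by
        refine tendsto_nhds_unique (hβ 1) ?_
        refine tendsto_const_nhds.congr fun k => ?_
        rw [map_one, mul_one, Units.mul_inv]
      map_mul' := by
        intro γ δ
        refine tendsto_nhds_unique (hβ (γ * δ)) ?_
        refine ((hβ γ).mul (hβ δ)).congr fun k => ?_
        rw [map_mul]
        calc (g k).1 * ρ (φ k) γ * (g k)⁻¹.1 * ((g k).1 * ρ (φ k) δ * (g k)⁻¹.1)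
            = (g k).1 * ρ (φ k) γ * ((g k)⁻¹.1 * (g k).1) * (ρ (φ k) δ * (g k)⁻¹.1) := by
              simp only [Matrix.mul_assoc]
          _ = _ := by
              rw [Units.inv_mul, Matrix.mul_one]
              simp only [Matrix.mul_assoc] }
  have hBβ : (fun s => βh (e s)) = B := by
    funext s
    refine tendsto_nhds_unique (hβ (e s)) ?_
    exact ((continuous_apply s).tendsto B).comp hB
  have hss : (repOf βh).IsSemisimpleRepresentation := by
    refine semisimple_of_min βh e hgen ?_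
    rw [hBβ]
    exact hmin
  obtain ⟨u, hu⟩ := exists_conj βh (phiHom Γ j r) hss (semisimple_phi hΓ j r) (fun γ => by
    have h1 : Tendsto (fun k => ((g k).1 * ρ (φ k) γ * (g k)⁻¹.1).trace) atTop
        (𝓝 (βh γ).trace) := ((continuous_id.matrix_trace).tendsto _).comp (hβ γ)
    have h2 : Tendsto (fun k => (ρ (φ k) γ).trace) atTop (𝓝 (Phi j r γ).trace) :=
      (hlim γ).comp hφ.tendsto_atTop
    refine tendsto_nhds_unique h1 (h2.congr fun k => ?_)
    rw [Matrix.trace_mul_comm, ← Matrix.mul_assoc, Units.inv_mul, Matrix.one_mul])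
  have hfin : ∀ γ : Γ, Tendsto (fun k => (u * g k).1 * ρ (φ k) γ * (u * g k)⁻¹.1) atTop
      (𝓝 (Phi j r γ)) := by
    intro γ
    have h1 : Tendsto (fun k => u.1 * ((g k).1 * ρ (φ k) γ * (g k)⁻¹.1) * u⁻¹.1) atTop
        (𝓝 (u.1 * βh γ * u⁻¹.1)) :=
      (tendsto_const_nhds.mul (hβ γ)).mul tendsto_const_nhds
    rw [hu] at h1
    refine h1.congr fun k => ?_
    rw [_root_.mul_inv_rev, Units.val_mul, Units.val_mul]
    simp only [Matrix.mul_assoc]
  have hev : ∀ᶠ k in atTop, ∀ δ : Γ, (δ : SL(2, ℝ)) ∈ F → ∀ a b,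
      ‖((u * g k).1 * ρ (φ k) δ * (u * g k)⁻¹.1) a b - Phi j r δ a b‖ ≤ ε := by
    have hF' : {δ : Γ | (δ : SL(2, ℝ)) ∈ F}.Finite := hF.preimage Subtype.val_injective.injOn
    have h1 : ∀ᶠ k in atTop, ∀ δ ∈ {δ : Γ | (δ : SL(2, ℝ)) ∈ F}, ∀ a b,
        ‖((u * g k).1 * ρ (φ k) δ * (u * g k)⁻¹.1) a b - Phi j r δ a b‖ ≤ ε := by
      rw [Set.Finite.eventually_all hF']
      intro δ _
      rw [eventually_all]
      intro a
      rw [eventually_all]
      intro b
      have h2 : Tendsto (fun k => ((u * g k).1 * ρ (φ k) δ * (u * g k)⁻¹.1) a b) atTop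
          (𝓝 (Phi j r δ a b)) := (((continuous_id.matrix_elem a b)).tendsto _).comp (hfin δ)
      have h3 := (tendsto_iff_norm_sub_tendsto_zero.1 h2).eventually (ge_mem_nhds hε)
      exact h3
    exact h1
  obtain ⟨k, hk⟩ := hev.exists
  exact ⟨φ k, u * g k, hk⟩

end Pool.Agent.TH623.SA
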