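import Pool.Agent.TH623.SA.Union
import Pool.Agent.TH623.SA.Count
import Pool.Agent.TH623.SA.Lim
import Pool.Agent.TH623.SA.Growth

set_option autoImplicit false

open Matrix UpperHalfPlane Metric Filter Topology
open scoped MatrixGroups Pointwise

namespace Pool.Agent.TH623.SA

variable {Γ : Subgroup SL(2, ℝ)} {d : ℕ}

theorem countable_surface (hΓ : IsSurfaceGroup Γ) : Countable Γ := by
  have h1 : (Γ : Set SL(2, ℝ)) ⊆ ⋃ n : ℕ, {g : SL(2, ℝ) | g ∈ Γ ∧ Bd n g} := by
    intro g hg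
    obtain ⟨n, hn⟩ := exists_nat_ge (∑ a, ∑ b, |g a b|)
    refine Set.mem_iUnion.2 ⟨n, hg, fun a b => ?_⟩
    refine le_trans ?_ hn
    calc |g a b| ≤ ∑ b, |g a b| :=
          Finset.single_le_sum (f := fun b => |g a b|) (fun _ _ => abs_nonneg _)
            (Finset.mem_univ b)
      _ ≤ _ := Finset.single_le_sum (f := fun a => ∑ b, |g a b|)
          (fun _ _ => Finset.sum_nonneg fun _ _ => abs_nonneg _) (Finset.mem_univ a)
  have h2 : (Γ : Set SL(2, ℝ)).Countable :=
    (Set.countable_iUnion fun n : ℕ => (finite_bd hΓ n).countable).mono h1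
  exact h2.to_subtype

theorem trace_submatrix {m n : Type*} [Fintype m] [Fintype n] (e : m ≃ n) (M : Matrix n n ℂ) :
    (M.submatrix e e).trace = M.trace :=
  e.sum_comp fun i => M i i

/-- a representation, with the coordinates reindexed -/
def reind {j r : ℕ} (e : Idx j r ≃ Fin d) (ρ : Γ →* SpecialLinearGroup (Fin d) ℂ) :
    Γ →* Matrix (Idx j r) (Idx j r) ℂ where
  toFun γ := (ρ γ).1.submatrix e e
  map_one' := by
    rw [map_one]
    show (1 : Matrix (Fin d) (Fin d) ℂ).submatrix e e = 1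
    simp
  map_mul' γ δ := by
    rw [map_mul]
    show ((ρ γ).1 * (ρ δ).1).submatrix e e = _
    rw [Matrix.submatrix_mul_equiv]

theorem trace_reind {j r : ℕ} (e : Idx j r ≃ Fin d) (ρ : Γ →* SpecialLinearGroup (Fin d) ℂ)
    (γ : Γ) : (reind e ρ γ).trace = (ρ γ).1.trace := by
  show ((ρ γ).1.submatrix e e).trace = _
  rw [trace_submatrix]

/-- the base point: the character of the block representation -/
noncomputable def basePt (Γ : Subgroup SL(2, ℝ)) {j r : ℕ} (e : Idx j r ≃ Fin d) : CharVar Γ d :=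
  ⟨fun γ => (Phi j r γ).trace, by
    refine ⟨{ toFun := fun γ => ⟨(Phi j r γ).submatrix e.symm e.symm, ?_⟩
              map_one' := ?_
              map_mul' := ?_ }, fun γ => ?_⟩
    · rw [Matrix.det_submatrix_equiv_self, Phi_det]
    · apply Subtype.ext
      show (Phi j r ((1 : Γ) : SL(2, ℝ))).submatrix e.symm e.symm = 1
      rw [Subgroup.coe_one, Phi_one]
      simp
    · intro γ δ
      apply Subtype.ext
      show (Phi j r ((γ * δ : Γ) : SL(2, ℝ))).submatrix e.symm e.symm =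
        (Phi j r γ).submatrix e.symm e.symm * (Phi j r δ).submatrix e.symm e.symm
      rw [Subgroup.coe_mul, Phi_mul, Matrix.submatrix_mul_equiv]
    · show _ = ((Phi j r γ).submatrix e.symm e.symm).trace
      rw [trace_submatrix]⟩

/-- There is an open neighbourhood of the base point consisting of characters of representations
close to the block representation. -/
theorem exists_nbhd (hΓ : IsSurfaceGroup Γ) {j r : ℕ} (e : Idx j r ≃ Fin d)
    (F : Set SL(2, ℝ)) (hF : F.Finite) (ε : ℝ) (hε : 0 < ε) :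
    ∃ N : Set (CharVar Γ d), IsOpen N ∧ basePt Γ e ∈ N ∧ ∀ x ∈ N,
      ∃ ρ : Γ →* Matrix (Idx j r) (Idx j r) ℂ, (∀ γ, (ρ γ).trace = x.1 γ) ∧
        ∀ δ : Γ, (δ : SL(2, ℝ)) ∈ F → ∀ a b, ‖ρ δ a b - Phi j r δ a b‖ ≤ ε := by
  have hcount : Countable Γ := countable_surface hΓ
  set G : Set (CharVar Γ d) := {x | ∃ ρ : Γ →* Matrix (Idx j r) (Idx j r) ℂ,
    (∀ γ, (ρ γ).trace = x.1 γ) ∧
      ∀ δ : Γ, (δ : SL(2, ℝ)) ∈ F → ∀ a b, ‖ρ δ a b - Phi j r δ a b‖ ≤ ε} with hG
  refine ⟨interior G, isOpen_interior, ?_, fun x hx => (interior_subset hx : x ∈ G)⟩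
  have : FirstCountableTopology (Γ → ℂ) := inferInstance
  have : FirstCountableTopology (CharVar Γ d) :=
    Topology.IsInducing.subtypeVal.firstCountableTopology
  by_contra hcon
  rw [← Set.mem_compl_iff, ← closure_compl, mem_closure_iff_seq_limit] at hcon
  obtain ⟨x, hx, hlim⟩ := hcon
  have hρ : ∀ k, ∃ ρ : Γ →* SpecialLinearGroup (Fin d) ℂ, ∀ γ, (x k).1 γ = (ρ γ).1.trace :=
    fun k => (x k).2
  choose ρ hρ using hρ
  have hlim' : ∀ γ : Γ, Tendsto (fun k => (reind e (ρ k) γ).trace) atTop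
      (𝓝 (Phi j r γ).trace) := by
    intro γ
    have h1 : Continuous (fun y : CharVar Γ d => y.1 γ) :=
      (continuous_apply γ).comp continuous_subtype_val
    have h2 := (h1.tendsto (basePt Γ e)).comp hlim
    refine h2.congr fun k => ?_
    show (x k).1 γ = _
    rw [trace_reind, hρ]
  obtain ⟨k, u, hu⟩ := close_of_tendsto hΓ j r (fun k => reind e (ρ k)) hlim' F hF ε hε
  apply hx k
  refine ⟨{ toFun := fun γ => u.1 * reind e (ρ k) γ * u⁻¹.1
            map_one' := by rw [map_one, mul_one, Units.mul_inv]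
            map_mul' := fun γ δ => by
              rw [map_mul]
              calc u.1 * (reind e (ρ k) γ * reind e (ρ k) δ) * u⁻¹.1
                  = u.1 * reind e (ρ k) γ * 1 * reind e (ρ k) δ * u⁻¹.1 := by
                    simp only [Matrix.mul_assoc, Matrix.mul_one, Matrix.one_mul]
                _ = _ := by
                    rw [← Units.inv_mul u]
                    simp only [Matrix.mul_assoc] }, ?_, hu⟩
  intro γ
  show (u.1 * reind e (ρ k) γ * u⁻¹.1).trace = _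
  rw [Matrix.trace_mul_comm, ← Matrix.mul_assoc, Units.inv_mul, Matrix.one_mul, trace_reind, hρ]

/-- representations whose characters stay bounded can be conjugated so that a given element is
bounded -/
theorem exists_bound_elem {n : Type*} [Fintype n] [DecidableEq n] (C : Γ → ℝ) (γ : Γ) :
    ∃ R : ℝ, 0 ≤ R ∧ ∀ ρ : Γ →* Matrix n n ℂ, (∀ γ, ‖(ρ γ).trace‖ ≤ C γ) →
      ∃ g : (Matrix n n ℂ)ˣ, nsq (g.1 * ρ γ * g⁻¹.1) ≤ R ^ 2 := by
  let α := {ρ : Γ →* Matrix n n ℂ // ∀ γ, ‖(ρ γ).trace‖ ≤ C γ}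
  obtain ⟨R, hR⟩ := exists_bound (ι := Unit) (fun (ρ : α) (_ : Unit) => ρ.1 γ)
    (fun w _ => ⟨C (γ ^ w.length), fun ρ => by
      have : (w.map fun _ : Unit => ρ.1 γ).prod = ρ.1 (γ ^ w.length) := by
        rw [List.map_const', List.prod_replicate, map_pow]
      rw [this]
      exact ρ.2 _⟩)
  refine ⟨Real.sqrt |R|, Real.sqrt_nonneg _, fun ρ hρ => ?_⟩
  obtain ⟨g, hg⟩ := hR ⟨ρ, hρ⟩
  refine ⟨g, ?_⟩
  rw [Real.sq_sqrt (abs_nonneg _)]
  refine le_trans ?_ (hg.trans (le_abs_self R))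
  have : tsq (cj g fun _ : Unit => ρ γ) = nsq (g.1 * ρ γ * g⁻¹.1) := by
    unfold tsq
    simp [cj]
  rw [this]

/-- The translates of a suitable neighbourhood of the base point by the mapping class group are
locally finite in the whole character variety. -/
theorem exists_good_nbhd (hΓ : IsSurfaceGroup Γ) {j r : ℕ} (hj : 0 < j) (e : Idx j r ≃ Fin d) :
    ∃ N : Set (CharVar Γ d), IsOpen N ∧ basePt Γ e ∈ N ∧
      ∀ K : Set (CharVar Γ d), IsCompact K →
        {c : OutG Γ | ∃ ψ : MulAut Γ, (ψ : OutG Γ) = c ∧ ∃ x ∈ N, act ψ x ∈ K}.Finite := by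
  obtain ⟨F, ε, B, hF, hε, hgrow⟩ := growth hΓ j r hj
  obtain ⟨N, hNo, hN0, hN⟩ := exists_nbhd hΓ e F hF ε hε
  refine ⟨N, hNo, hN0, fun K hK => ?_⟩
  have hC : ∀ γ : Γ, ∃ C : ℝ, ∀ x ∈ K, ‖x.1 γ‖ ≤ C := fun γ =>
    hK.exists_bound_of_continuousOn
      (((continuous_apply γ).comp continuous_subtype_val).continuousOn)
  choose C hC using hC
  choose R hR0 hR using exists_bound_elem (Γ := Γ) (n := Idx j r) C
  classical
  have hfin := count hΓ (fun γ => if γ = 1 then 2 else B (R γ))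
  refine (hfin.preimage (f := fun c : OutG Γ => c⁻¹) inv_injective.injOn).subset ?_
  rintro c ⟨ψ, rfl, x, hx, hψx⟩
  refine ⟨ψ⁻¹, rfl, fun γ => ?_⟩
  split_ifs with h1
  · rw [h1, map_one]
    have := one_entries
    unfold t2
    rw [show ((1 : Γ) : SL(2, ℝ)) = 1 from rfl, this.1, this.2.2.2]
    norm_num
  · obtain ⟨ρ, hρt, hρF⟩ := hN x hx
    obtain ⟨g, hg⟩ := hR γ (ρ.comp (ψ⁻¹ : MulAut Γ).toMonoidHom) (fun γ => by
      show ‖(ρ (ψ⁻¹ γ)).trace‖ ≤ C γ
      rw [hρt]
      exact hC γ _ hψx)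
    exact hgrow ρ hρF (ψ⁻¹ γ) (by
      intro h
      apply h1
      have := (ψ⁻¹ : MulAut Γ).injective (h.trans (map_one (ψ⁻¹ : MulAut Γ)).symm)
      exact this) (R γ) (hR0 γ) g hg

end Pool.Agent.TH623.SA
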