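import Mathlib

set_option autoImplicit false

open Matrix UpperHalfPlane
open scoped MatrixGroups

namespace Pool.Agent.TH623.SA

/-- `Γ` is the group of a closed hyperbolic surface `Γ \ ℍ`: it acts freely, properly
discontinuously and cocompactly on the upper half-plane. -/
structure IsSurfaceGroup (Γ : Subgroup SL(2, ℝ)) : Prop where
  free : ∀ g ∈ Γ, ∀ z : ℍ, g • z = z → g = 1
  discont : ∀ K : Set ℍ, IsCompact K → {g : SL(2, ℝ) | g ∈ Γ ∧ ∃ z ∈ K, g • z ∈ K}.Finite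
  cocompact : ∃ K : Set ℍ, IsCompact K ∧ ∀ z : ℍ, ∃ g ∈ Γ, g • z ∈ K

/-- all entries are at most `R` in absolute value -/
def Bd (R : ℝ) (g : SL(2, ℝ)) : Prop := ∀ a b, |g a b| ≤ R

theorem det_eq (g : SL(2, ℝ)) : g 0 0 * g 1 1 - g 0 1 * g 1 0 = 1 := by
  have := g.det_coe
  rwa [Matrix.det_fin_two] at this

theorem inv_entries (g : SL(2, ℝ)) :
    g⁻¹ 0 0 = g 1 1 ∧ g⁻¹ 0 1 = - g 0 1 ∧ g⁻¹ 1 0 = - g 1 0 ∧ g⁻¹ 1 1 = g 0 0 := by
  rw [Matrix.SpecialLinearGroup.SL2_inv_expl]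
  simp

theorem mul_entries (g h : SL(2, ℝ)) (a b : Fin 2) :
    (g * h) a b = g a 0 * h 0 b + g a 1 * h 1 b := by
  show (g.1 * h.1) a b = _
  rw [Matrix.mul_apply, Fin.sum_univ_two]

theorem Bd.inv {R : ℝ} {g : SL(2, ℝ)} (h : Bd R g) : Bd R g⁻¹ := by
  obtain ⟨h1, h2, h3, h4⟩ := inv_entries g
  intro a b
  fin_cases a <;> fin_cases b
  · show |g⁻¹ 0 0| ≤ R; rw [h1]; exact h _ _
  · show |g⁻¹ 0 1| ≤ R; rw [h2, abs_neg]; exact h _ _
  · show |g⁻¹ 1 0| ≤ R; rw [h3, abs_neg]; exact h _ _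
  · show |g⁻¹ 1 1| ≤ R; rw [h4]; exact h _ _

theorem Bd.mul {R S : ℝ} {g h : SL(2, ℝ)} (hg : Bd R g) (hh : Bd S h) : Bd (2 * R * S) (g * h) := by
  have hR : 0 ≤ R := (abs_nonneg _).trans (hg 0 0)
  intro a b
  rw [mul_entries]
  calc |g a 0 * h 0 b + g a 1 * h 1 b| ≤ |g a 0 * h 0 b| + |g a 1 * h 1 b| := abs_add_le _ _
    _ = |g a 0| * |h 0 b| + |g a 1| * |h 1 b| := by rw [abs_mul, abs_mul]
    _ ≤ R * S + R * S := by
      have := mul_le_mul (hg a 0) (hh 0 b) (abs_nonneg _) hR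
      have := mul_le_mul (hg a 1) (hh 1 b) (abs_nonneg _) hR
      linarith
    _ = 2 * R * S := by ring

theorem Bd.mono {R S : ℝ} {g : SL(2, ℝ)} (hg : Bd R g) (h : R ≤ S) : Bd S g :=
  fun a b => (hg a b).trans h

theorem cosh_dist_I (g : SL(2, ℝ)) :
    2 * Real.cosh (dist I (g • I)) = g 0 0 ^ 2 + g 0 1 ^ 2 + g 1 0 ^ 2 + g 1 1 ^ 2 := by
  have hdet := det_eq g
  have hn : 0 < g 1 0 ^ 2 + g 1 1 ^ 2 := by
    by_contra h
    have h1 : g 1 0 = 0 := by nlinarith [sq_nonneg (g 1 0), sq_nonneg (g 1 1)]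
    have h2 : g 1 1 = 0 := by nlinarith [sq_nonneg (g 1 0), sq_nonneg (g 1 1)]
    rw [h1, h2] at hdet
    norm_num at hdet
  have hcd : ((g 1 0 : ℝ) : ℂ) * Complex.I + ((g 1 1 : ℝ) : ℂ) ≠ 0 := by
    intro h
    have h1 := congrArg Complex.re h
    have h2 := congrArg Complex.im h
    simp at h1 h2
    rw [h1, h2] at hn
    norm_num at hn
  have hz : ((g • I : ℍ) : ℂ) = (((g 0 0 : ℝ) : ℂ) * Complex.I + ((g 0 1 : ℝ) : ℂ)) /
      (((g 1 0 : ℝ) : ℂ) * Complex.I + ((g 1 1 : ℝ) : ℂ)) := by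
    rw [coe_specialLinearGroup_apply]
    simp
  have hz2 : ((g • I : ℍ) : ℂ) = ((g 0 0 * g 1 0 + g 0 1 * g 1 1 : ℝ) : ℂ) /
      ((g 1 0 ^ 2 + g 1 1 ^ 2 : ℝ) : ℂ) + (1 : ℂ) / ((g 1 0 ^ 2 + g 1 1 ^ 2 : ℝ) : ℂ) * Complex.I := by
    rw [hz, div_eq_iff hcd]
    have hn' : ((g 1 0 ^ 2 + g 1 1 ^ 2 : ℝ) : ℂ) ≠ 0 := by exact_mod_cast hn.ne'
    have hdet' : ((g 0 0 : ℝ) : ℂ) * (g 1 1 : ℝ) - ((g 0 1 : ℝ) : ℂ) * (g 1 0 : ℝ) = 1 := by
      exact_mod_cast hdet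
    push_cast at hn' ⊢
    field_simp
    have hI := Complex.I_sq
    linear_combination (Complex.I * (g 1 1 : ℂ) - (g 1 0 : ℂ)) * hdet' - (g 1 0 : ℂ) * hI
  have hre : (g • I : ℍ).re = (g 0 0 * g 1 0 + g 0 1 * g 1 1) / (g 1 0 ^ 2 + g 1 1 ^ 2) := by
    have h1 := congrArg Complex.re hz2
    rw [← Complex.ofReal_div, ← Complex.ofReal_one, ← Complex.ofReal_div, Complex.add_re,
      Complex.ofReal_re, Complex.re_ofReal_mul, Complex.I_re, mul_zero, add_zero] at h1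
    exact h1
  have him : (g • I : ℍ).im = 1 / (g 1 0 ^ 2 + g 1 1 ^ 2) := by
    have h1 := congrArg Complex.im hz2
    rw [← Complex.ofReal_div, ← Complex.ofReal_one, ← Complex.ofReal_div, Complex.add_im,
      Complex.ofReal_im, Complex.im_ofReal_mul, Complex.I_im, mul_one, zero_add] at h1
    exact h1
  rw [cosh_dist, Complex.dist_eq, ← Complex.normSq_eq_norm_sq, Complex.normSq_apply]
  have e1 : ((I : ℂ) - ((g • I : ℍ) : ℂ)).re = - (g • I : ℍ).re := by simp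
  have e2 : ((I : ℂ) - ((g • I : ℍ) : ℂ)).im = 1 - (g • I : ℍ).im := by simp
  rw [e1, e2, hre, him, I_im]
  have hd2 : (g 0 0 * g 1 0 + g 0 1 * g 1 1) ^ 2 + 1 =
      (g 0 0 ^ 2 + g 0 1 ^ 2) * (g 1 0 ^ 2 + g 1 1 ^ 2) := by
    have : (g 0 0 * g 1 1 - g 0 1 * g 1 0) ^ 2 = 1 := by rw [hdet]; norm_num
    linear_combination (-1 : ℝ) * this
  field_simp
  linear_combination hd2

/-- the trace -/
def t2 (g : SL(2, ℝ)) : ℝ := g 0 0 + g 1 1

theorem t2_conj (x g : SL(2, ℝ)) : t2 (x * g * x⁻¹) = t2 g := by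
  have h1 : t2 (x * g * x⁻¹) = Matrix.trace (x.1 * g.1 * (x⁻¹).1) := by
    rw [Matrix.trace_fin_two]; rfl
  have h2 : t2 g = Matrix.trace g.1 := by rw [Matrix.trace_fin_two]; rfl
  have h3 : (x⁻¹).1 * x.1 = 1 := by
    have := congrArg Subtype.val (inv_mul_cancel x)
    exact this
  rw [h1, h2, Matrix.trace_mul_comm, ← Matrix.mul_assoc, h3, Matrix.one_mul]

theorem t2_neg (g : SL(2, ℝ)) : t2 (-g) = - t2 g := by
  show -(g.1) 0 0 + -(g.1) 1 1 = _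
  unfold t2
  show _ = -(g.1 0 0 + g.1 1 1)
  ring

theorem ext_entries {g h : SL(2, ℝ)} (h1 : g 0 0 = h 0 0) (h2 : g 0 1 = h 0 1) (h3 : g 1 0 = h 1 0)
    (h4 : g 1 1 = h 1 1) : g = h := by
  ext a b
  fin_cases a <;> fin_cases b
  · exact h1
  · exact h2
  · exact h3
  · exact h4

/-- the diagonal matrix with entries `exp (t / 2)`, `exp (- t / 2)` -/
noncomputable def aa (t : ℝ) : SL(2, ℝ) :=
  ⟨!![Real.exp (t / 2), 0; 0, Real.exp (-(t / 2))], by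
    rw [Matrix.det_fin_two_of, mul_zero, sub_zero, ← Real.exp_add, add_neg_cancel, Real.exp_zero]⟩

@[simp] theorem aa_00 (t : ℝ) : (aa t) 0 0 = Real.exp (t / 2) := rfl
@[simp] theorem aa_01 (t : ℝ) : (aa t) 0 1 = 0 := rfl
@[simp] theorem aa_10 (t : ℝ) : (aa t) 1 0 = 0 := rfl
@[simp] theorem aa_11 (t : ℝ) : (aa t) 1 1 = Real.exp (-(t / 2)) := rfl

theorem one_entries : (1 : SL(2, ℝ)) 0 0 = 1 ∧ (1 : SL(2, ℝ)) 0 1 = 0 ∧ (1 : SL(2, ℝ)) 1 0 = 0 ∧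
    (1 : SL(2, ℝ)) 1 1 = 1 := by
  refine ⟨?_, ?_, ?_, ?_⟩ <;> simp

theorem neg_entries (g : SL(2, ℝ)) (a b : Fin 2) : (-g) a b = - g a b := rfl

theorem aa_add (s t : ℝ) : aa (s + t) = aa s * aa t := by
  apply ext_entries
  · rw [mul_entries]; simp [add_div, Real.exp_add]
  · rw [mul_entries]; simp
  · rw [mul_entries]; simp
  · rw [mul_entries]; simp [add_div, Real.exp_add]
    ring

theorem aa_zero : aa 0 = 1 := by
  obtain ⟨h1, h2, h3, h4⟩ := one_entries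
  apply ext_entries <;> simp [h1, h2, h3, h4]

theorem aa_neg (t : ℝ) : aa (-t) = (aa t)⁻¹ := by
  rw [eq_inv_iff_mul_eq_one, ← aa_add, neg_add_cancel, aa_zero]

theorem t2_aa (t : ℝ) : t2 (aa t) = 2 * Real.cosh (t / 2) := by
  unfold t2
  rw [aa_00, aa_11, Real.cosh_eq]
  ring

/-- there is an element with a given first column -/
theorem exists_col (v w : ℝ) (h : v ≠ 0 ∨ w ≠ 0) : ∃ x : SL(2, ℝ), x 0 0 = v ∧ x 1 0 = w := by
  have hn : v ^ 2 + w ^ 2 ≠ 0 := by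
    rcases h with h | h
    · have : 0 < v ^ 2 := by positivity
      have := sq_nonneg w
      linarith
    · have : 0 < w ^ 2 := by positivity
      have := sq_nonneg v
      linarith
  refine ⟨⟨!![v, -w / (v ^ 2 + w ^ 2); w, v / (v ^ 2 + w ^ 2)], ?_⟩, rfl, rfl⟩
  rw [Matrix.det_fin_two_of]
  field_simp
  ring

/-- upper triangular form with respect to a real eigenvalue -/
theorem exists_upper (h : SL(2, ℝ)) (c : ℝ) (hc : c ^ 2 - t2 h * c + 1 = 0) :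
    ∃ x : SL(2, ℝ), (x⁻¹ * h * x) 0 0 = c ∧ (x⁻¹ * h * x) 1 0 = 0 := by
  have hdet := det_eq h
  unfold t2 at hc
  -- an eigenvector
  obtain ⟨v, w, hvw, e1, e2⟩ : ∃ v w : ℝ, (v ≠ 0 ∨ w ≠ 0) ∧ h 0 0 * v + h 0 1 * w = c * v ∧
      h 1 0 * v + h 1 1 * w = c * w := by
    by_cases h10 : h 1 0 = 0
    · have h00 : (h 0 0 - c) * (h 1 1 - c) = 0 := by
        rw [h10] at hdet
        linear_combination hdet + hc
      rcases mul_eq_zero.1 h00 with h1 | h1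
      · exact ⟨1, 0, Or.inl one_ne_zero, by linear_combination h1, by rw [h10]; ring⟩
      · by_cases h2 : h 0 0 - c = 0
        · exact ⟨1, 0, Or.inl one_ne_zero, by linear_combination h2, by rw [h10]; ring⟩
        · refine ⟨-h 0 1, h 0 0 - c, Or.inr h2, by ring, ?_⟩
          rw [h10]
          linear_combination (h 0 0 - c) * h1
    · refine ⟨c - h 1 1, h 1 0, Or.inr h10, ?_, by ring⟩
      linear_combination (-1 : ℝ) * hc - hdet
  obtain ⟨x, hx1, hx2⟩ := exists_col v w hvw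
  refine ⟨x, ?_, ?_⟩
  · have hdx := det_eq x
    obtain ⟨i1, i2, i3, i4⟩ := inv_entries x
    rw [mul_entries, mul_entries, mul_entries, i1, i2, hx1, hx2]
    rw [hx1, hx2] at hdx
    linear_combination x 1 1 * e1 - x 0 1 * e2 + c * hdx
  · have hdx := det_eq x
    obtain ⟨i1, i2, i3, i4⟩ := inv_entries x
    rw [mul_entries, mul_entries, mul_entries, i3, i4, hx1, hx2]
    linear_combination v * e2 - w * e1

/-- the upper triangular unipotent matrix -/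
def uu (z : ℝ) : SL(2, ℝ) := ⟨!![1, z; 0, 1], by rw [Matrix.det_fin_two_of]; ring⟩

@[simp] theorem uu_00 (z : ℝ) : (uu z) 0 0 = 1 := rfl
@[simp] theorem uu_01 (z : ℝ) : (uu z) 0 1 = z := rfl
@[simp] theorem uu_10 (z : ℝ) : (uu z) 1 0 = 0 := rfl
@[simp] theorem uu_11 (z : ℝ) : (uu z) 1 1 = 1 := rfl

/-- diagonal form of a hyperbolic matrix with positive trace -/
theorem hyp_form_pos (h : SL(2, ℝ)) (ht : 2 < t2 h) :
    ∃ (x : SL(2, ℝ)) (ℓ : ℝ), 0 < ℓ ∧ h = x * aa ℓ * x⁻¹ := by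
  set t := t2 h with htt
  set r := Real.sqrt (t ^ 2 - 4) with hr
  have hr2 : r ^ 2 = t ^ 2 - 4 := Real.sq_sqrt (by nlinarith)
  have hr0 : 0 ≤ r := Real.sqrt_nonneg _
  set c := (t + r) / 2 with hc
  have hc1 : 1 < c := by rw [hc]; linarith
  have hc0 : 0 < c := by linarith
  have hcc : c ^ 2 - t2 h * c + 1 = 0 := by
    rw [← htt, hc]; linear_combination (1 / 4 : ℝ) * hr2
  obtain ⟨x, hx1, hx2⟩ := exists_upper h c hcc
  obtain ⟨m, hm⟩ : ∃ m, m = x⁻¹ * h * x := ⟨_, rfl⟩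
  rw [← hm] at hx1 hx2
  have hdm := det_eq m
  rw [hx1, hx2, mul_zero, sub_zero] at hdm
  have hm11 : m 1 1 = c⁻¹ := eq_inv_of_mul_eq_one_right hdm
  have hcc' : c - c⁻¹ ≠ 0 := by
    have : c⁻¹ < 1 := inv_lt_one_of_one_lt₀ hc1
    intro h0
    linarith
  refine ⟨x * uu (-(m 0 1) / (c - c⁻¹)), 2 * Real.log c, by have := Real.log_pos hc1; linarith, ?_⟩
  have e0 : 2 * Real.log c / 2 = Real.log c := by ring
  have key : uu (-(m 0 1) / (c - c⁻¹)) * aa (2 * Real.log c) =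
      m * uu (-(m 0 1) / (c - c⁻¹)) := by
    apply ext_entries
    · rw [mul_entries, mul_entries, aa_00, aa_10, hx1, e0, Real.exp_log hc0]; simp
    · rw [mul_entries, mul_entries, aa_01, aa_11, hx1, e0, Real.exp_neg, Real.exp_log hc0]
      simp only [uu_00, uu_01, uu_11, mul_zero, zero_add, mul_one]
      have hc1' : c ^ 2 - 1 ≠ 0 := by nlinarith
      have : c - c⁻¹ = (c ^ 2 - 1) / c := by field_simp
      rw [this]
      field_simp
      ring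
    · rw [mul_entries, mul_entries, aa_00, aa_10, hx2]; simp
    · rw [mul_entries, mul_entries, aa_01, aa_11, hx2, hm11, e0, Real.exp_neg, Real.exp_log hc0]
      simp
  have hmh : h = x * m * x⁻¹ := by rw [hm]; group
  rw [hmh, mul_assoc x (uu _) (aa _), key]
  group

/-- diagonal form of a hyperbolic matrix -/
theorem hyp_form (h : SL(2, ℝ)) (ht : 2 < |t2 h|) :
    ∃ (x : SL(2, ℝ)) (ℓ : ℝ) (s : SL(2, ℝ)), 0 < ℓ ∧ (s = 1 ∨ s = -1) ∧
      h = x * (s * aa ℓ) * x⁻¹ := by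
  rcases lt_abs.1 ht with h1 | h1
  · obtain ⟨x, ℓ, hℓ, he⟩ := hyp_form_pos h h1
    exact ⟨x, ℓ, 1, hℓ, Or.inl rfl, by rw [one_mul]; exact he⟩
  · obtain ⟨x, ℓ, hℓ, he⟩ := hyp_form_pos (-h) (by rw [t2_neg]; exact h1)
    refine ⟨x, ℓ, -1, hℓ, Or.inr rfl, ?_⟩
    have h2 : h = -(x * aa ℓ * x⁻¹) := by rw [← he, neg_neg]
    rw [h2]
    simp

end Pool.Agent.TH623.SA
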