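import Pool.Agent.TH623.SA.Irr
import Pool.Agent.TH623.SA.Iso
import Pool.Agent.TH623.SA.Cone

set_option autoImplicit false

open Matrix UpperHalfPlane Metric Module
open scoped MatrixGroups MonoidAlgebra

namespace Pool.Agent.TH623.SA

/-- the representation given by a homomorphism to matrices -/
noncomputable def repOf {G n : Type*} [Monoid G] [Fintype n] [DecidableEq n]
    (ρ : G →* Matrix n n ℂ) : Representation ℂ G (n → ℂ) where
  toFun g := (ρ g).mulVecLin
  map_one' := by rw [map_one, Matrix.mulVecLin_one]; rfl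
  map_mul' := by intro g h; rw [map_mul, Matrix.mulVecLin_mul]; rfl

theorem repOf_apply {G n : Type*} [Monoid G] [Fintype n] [DecidableEq n]
    (ρ : G →* Matrix n n ℂ) (g : G) (v : n → ℂ) : repOf ρ g v = ρ g *ᵥ v := rfl

variable {Γ : Subgroup SL(2, ℝ)}

/-- the standard representation of a subgroup of `SL(2, ℝ)` on `ℂ²` -/
noncomputable def cxHom (Γ : Subgroup SL(2, ℝ)) : Γ →* Matrix (Fin 2) (Fin 2) ℂ where
  toFun γ := cx γ
  map_one' := cx_one
  map_mul' γ δ := cx_mul γ δ

/-- the block representation -/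
noncomputable def phiHom (Γ : Subgroup SL(2, ℝ)) (j r : ℕ) :
    Γ →* Matrix (Idx j r) (Idx j r) ℂ where
  toFun γ := Phi j r γ
  map_one' := Phi_one j r
  map_mul' γ δ := Phi_mul j r γ δ

theorem irreducible_cx (hΓ : IsSurfaceGroup Γ) : (repOf (cxHom Γ)).IsIrreducible := by
  refine { exists_pair_ne := ⟨⊥, ⊤, ?_⟩, eq_bot_or_eq_top := ?_ }
  · intro h
    have h1 : (⊥ : Submodule ℂ (Fin 2 → ℂ)) = ⊤ := congrArg Subrepresentation.toSubmodule h
    exact bot_ne_top h1
  · intro W
    by_cases h0 : finrank ℂ W.toSubmodule = 0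
    · left
      apply Subrepresentation.toSubmodule_injective
      exact Submodule.finrank_eq_zero.1 h0
    right
    apply Subrepresentation.toSubmodule_injective
    show W.toSubmodule = ⊤
    have hle : finrank ℂ W.toSubmodule ≤ 2 := by
      have := Submodule.finrank_le W.toSubmodule
      rwa [Module.finrank_fin_fun] at this
    by_cases h2 : finrank ℂ W.toSubmodule = 2
    · apply Submodule.eq_top_of_finrank_eq
      rw [h2, Module.finrank_fin_fun]
    exfalso
    have h1 : finrank ℂ W.toSubmodule = 1 := by omega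
    obtain ⟨v, hv, hspan⟩ := finrank_eq_one_iff'.1 h1
    apply no_common_eigenvector hΓ v.1 (fun h => hv (Subtype.ext h))
    intro γ hγ
    obtain ⟨c, hc⟩ := hspan ⟨_, W.apply_mem_toSubmodule ⟨γ, hγ⟩ v.2⟩
    have hc' : c • v.1 = cx γ *ᵥ v.1 := congrArg Subtype.val hc
    refine ⟨c, ?_, ?_⟩
    · have := congrFun hc' 0
      simp only [Pi.smul_apply, smul_eq_mul, Matrix.mulVec, dotProduct, Fin.sum_univ_two] at this
      rw [this]; rfl
    · have := congrFun hc' 1
      simp only [Pi.smul_apply, smul_eq_mul, Matrix.mulVec, dotProduct, Fin.sum_univ_two] at this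
      rw [this]; rfl

/-- the vector supported in one block -/
def blk (j r : ℕ) (i : Fin j) (v : Fin 2 → ℂ) : Idx j r → ℂ
  | Sum.inl p => if p.1 = i then v p.2 else 0
  | Sum.inr _ => 0

theorem Phi_ll (j r : ℕ) (g : SL(2, ℝ)) (i i' : Fin j) (a a' : Fin 2) :
    Phi j r g (Sum.inl (i, a)) (Sum.inl (i', a')) = (if i = i' then 1 else 0) * cx g a a' := rfl

theorem Phi_lr (j r : ℕ) (g : SL(2, ℝ)) (i : Fin j) (a : Fin 2) (b : Fin r) :
    Phi j r g (Sum.inl (i, a)) (Sum.inr b) = 0 := rfl

theorem Phi_rl (j r : ℕ) (g : SL(2, ℝ)) (i : Fin j) (a : Fin 2) (b : Fin r) :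
    Phi j r g (Sum.inr b) (Sum.inl (i, a)) = 0 := rfl

theorem Phi_rr (j r : ℕ) (g : SL(2, ℝ)) (b b' : Fin r) :
    Phi j r g (Sum.inr b) (Sum.inr b') = if b = b' then 1 else 0 := rfl

theorem Phi_mulVec_blk (j r : ℕ) (g : SL(2, ℝ)) (i : Fin j) (v : Fin 2 → ℂ) :
    Phi j r g *ᵥ blk j r i v = blk j r i (cx g *ᵥ v) := by
  ext (⟨i', a⟩ | a)
  · rw [Matrix.mulVec, dotProduct, Fintype.sum_sum_type, Fintype.sum_prod_type]
    simp only [Phi_ll, Phi_lr, blk, Matrix.mulVec, dotProduct, zero_mul, Finset.sum_const_zero,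
      add_zero]
    rw [Finset.sum_eq_single i']
    · by_cases h : i' = i
      · simp [h]
      · simp [h]
    · intro b _ hb
      simp [hb.symm]
    · simp
  · rw [Matrix.mulVec, dotProduct, Fintype.sum_sum_type]
    simp only [blk, mul_zero, Finset.sum_const_zero, add_zero]
    apply Finset.sum_eq_zero
    rintro ⟨i', a'⟩ _
    rw [Phi_rl, zero_mul]

theorem Phi_mulVec_inr (j r : ℕ) (g : SL(2, ℝ)) (b : Fin r) (c : ℂ) :
    Phi j r g *ᵥ Pi.single (Sum.inr b) c = Pi.single (Sum.inr b) c := by
  rw [Matrix.mulVec_single]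
  ext (⟨i', a⟩ | a)
  · simp [Phi_lr]
  · simp only [Pi.smul_apply, Matrix.col_apply, Phi_rr, MulOpposite.smul_eq_mul_unop,
      MulOpposite.unop_op, Pi.single_apply, Sum.inr.injEq]
    split_ifs <;> simp

/-- inclusion of a block -/
noncomputable def blockIn (Γ : Subgroup SL(2, ℝ)) (j r : ℕ) (i : Fin j) :
    (repOf (cxHom Γ)).IntertwiningMap (repOf (phiHom Γ j r)) :=
  LinearMap.intertwiningMap_of_isIntertwiningMap (repOf (cxHom Γ)) (repOf (phiHom Γ j r))
    { toFun := blk j r i
      map_add' := by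
        intro v w
        ext (⟨i', a⟩ | a)
        · simp only [blk, Pi.add_apply]
          split_ifs <;> simp
        · simp [blk]
      map_smul' := by
        intro c v
        ext (⟨i', a⟩ | a)
        · simp only [blk, Pi.smul_apply, RingHom.id_apply]
          split_ifs <;> simp
        · simp [blk] }
    (fun g v => (Phi_mulVec_blk j r g i v).symm)

/-- inclusion of a trivial summand -/
noncomputable def trivIn (Γ : Subgroup SL(2, ℝ)) (j r : ℕ) (b : Fin r) :
    (Representation.trivial ℂ Γ ℂ).IntertwiningMap (repOf (phiHom Γ j r)) :=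
  LinearMap.intertwiningMap_of_isIntertwiningMap (Representation.trivial ℂ Γ ℂ)
    (repOf (phiHom Γ j r)) (LinearMap.single ℂ (fun _ : Idx j r => ℂ) (Sum.inr b))
    (fun g v => (Phi_mulVec_inr j r g b v).symm)

theorem semisimple_trivial (G : Type*) [Group G] :
    (Representation.trivial ℂ G ℂ).IsSemisimpleRepresentation := by
  refine ⟨fun W => ?_⟩
  have h : W.toSubmodule = ⊥ ∨ W.toSubmodule = ⊤ := eq_bot_or_eq_top _
  rcases h with h | h
  · refine ⟨⊤, ?_⟩
    have : W = ⊥ := Subrepresentation.toSubmodule_injective h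
    rw [this]
    exact isCompl_bot_top
  · refine ⟨⊥, ?_⟩
    have : W = ⊤ := Subrepresentation.toSubmodule_injective h
    rw [this]
    exact isCompl_top_bot

theorem semisimple_phi (hΓ : IsSurfaceGroup Γ) (j r : ℕ) :
    (repOf (phiHom Γ j r)).IsSemisimpleRepresentation := by
  rw [Representation.isSemisimpleRepresentation_iff_isSemisimpleModule_asModule]
  have h1 : IsSimpleModule ℂ[Γ] (repOf (cxHom Γ)).asModule :=
    (Representation.irreducible_iff_isSimpleModule_asModule _).1 (irreducible_cx hΓ)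
  have h2 : IsSemisimpleModule ℂ[Γ] (Representation.trivial ℂ Γ ℂ).asModule :=
    (Representation.isSemisimpleRepresentation_iff_isSemisimpleModule_asModule _).1
      (semisimple_trivial Γ)
  let p : Fin j ⊕ Fin r → Submodule ℂ[Γ] (repOf (phiHom Γ j r)).asModule := fun i =>
    match i with
    | Sum.inl i => LinearMap.range
        (Representation.IntertwiningMap.equivLinearMapAsModule _ _ (blockIn Γ j r i))
    | Sum.inr b => LinearMap.range
        (Representation.IntertwiningMap.equivLinearMapAsModule _ _ (trivIn Γ j r b))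
  refine isSemisimpleModule_of_isSemisimpleModule_submodule' (p := p) ?_ ?_
  · rintro (i | b)
    · exact IsSemisimpleModule.range _
    · exact IsSemisimpleModule.range _
  · rw [eq_top_iff]
    intro v _
    set T := (repOf (phiHom Γ j r)).asModuleEquiv with hT
    have hb : ∀ (i : Fin j) (w : Fin 2 → ℂ), T.symm (blk j r i w) ∈ ⨆ i, p i :=
      fun i w => Submodule.mem_iSup_of_mem (Sum.inl i)
        ⟨(repOf (cxHom Γ)).asModuleEquiv.symm w, rfl⟩
    have ht : ∀ (b : Fin r) (c : ℂ), T.symm (Pi.single (Sum.inr b) c : Idx j r → ℂ) ∈ ⨆ i, p i :=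
      fun b c => Submodule.mem_iSup_of_mem (Sum.inr b)
        ⟨(Representation.trivial ℂ Γ ℂ).asModuleEquiv.symm c, rfl⟩
    have hv : T v = (∑ i : Fin j, blk j r i (fun a => (T v) (Sum.inl (i, a)))) +
        ∑ b : Fin r, (Pi.single (Sum.inr b) ((T v) (Sum.inr b)) : Idx j r → ℂ) := by
      generalize T v = u
      ext (⟨i', a⟩ | a)
      · simp [blk, Finset.sum_apply]
      · simp [blk, Finset.sum_apply, Pi.single_apply]
    have hv' : v = T.symm (T v) := (T.symm_apply_apply v).symm
    rw [hv', hv, map_add, map_sum, map_sum]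
    exact Submodule.add_mem _ (Submodule.sum_mem _ fun i _ => hb i _)
      (Submodule.sum_mem _ fun b _ => ht b _)

end Pool.Agent.TH623.SA
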