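import Pool.Agent.TH623.SA.SL2

set_option autoImplicit false

open Matrix UpperHalfPlane Metric
open scoped MatrixGroups

namespace Pool.Agent.TH623.SA

theorem le_two_cosh (x : ℝ) : x ≤ 2 * Real.cosh x := by
  have h1 := Real.add_one_le_exp x
  have h2 := Real.exp_pos (-x)
  rw [Real.cosh_eq]
  linarith

theorem dist_le_of_bd {R : ℝ} {g : SL(2, ℝ)} (h : Bd R g) : dist I (g • I) ≤ 4 * R ^ 2 := by
  have h1 := cosh_dist_I g
  have h2 := le_two_cosh (dist I (g • I))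
  have h3 : ∀ a b, g a b ^ 2 ≤ R ^ 2 := fun a b => by
    rw [← sq_abs]
    exact pow_le_pow_left₀ (abs_nonneg _) (h a b) 2
  have := h3 0 0
  have := h3 0 1
  have := h3 1 0
  have := h3 1 1
  linarith

theorem bd_of_dist_le {r : ℝ} {g : SL(2, ℝ)} (h : dist I (g • I) ≤ r) :
    Bd (2 * Real.cosh r) g := by
  have h1 := cosh_dist_I g
  have h2 : Real.cosh (dist I (g • I)) ≤ Real.cosh r := by
    rw [Real.cosh_le_cosh, abs_of_nonneg dist_nonneg]
    exact h.trans (le_abs_self r)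
  have hr : 1 ≤ Real.cosh r := Real.one_le_cosh r
  have h3 : ∀ a b, g a b ^ 2 ≤ 2 * Real.cosh r := by
    intro a b
    have e1 := sq_nonneg (g 0 0)
    have e2 := sq_nonneg (g 0 1)
    have e3 := sq_nonneg (g 1 0)
    have e4 := sq_nonneg (g 1 1)
    fin_cases a <;> fin_cases b <;> simp only [Fin.zero_eta, Fin.mk_one] <;> linarith
  intro a b
  have h4 : |g a b| ^ 2 ≤ (2 * Real.cosh r) ^ 2 := by
    rw [sq_abs]
    calc g a b ^ 2 ≤ 2 * Real.cosh r := h3 a b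
      _ ≤ (2 * Real.cosh r) ^ 2 := by nlinarith
  exact (sq_le_sq₀ (abs_nonneg _) (by positivity)).1 h4

variable {Γ : Subgroup SL(2, ℝ)}

theorem finite_bd (hΓ : IsSurfaceGroup Γ) (R : ℝ) : {g : SL(2, ℝ) | g ∈ Γ ∧ Bd R g}.Finite := by
  refine (hΓ.discont (closedBall I (4 * R ^ 2)) (isCompact_closedBall _ _)).subset ?_
  rintro g ⟨hg, hb⟩
  refine ⟨hg, I, ?_, ?_⟩
  · rw [mem_closedBall, dist_self]; positivity
  · rw [mem_closedBall, dist_comm]; exact dist_le_of_bd hb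

theorem exists_round (hΓ : IsSurfaceGroup Γ) :
    ∃ R₀ : ℝ, 1 ≤ R₀ ∧ ∀ g : SL(2, ℝ), ∃ γ ∈ Γ, Bd R₀ (γ⁻¹ * g) := by
  obtain ⟨K, hK, hcov⟩ := hΓ.cocompact
  obtain ⟨r, hr⟩ := hK.isBounded.subset_closedBall I
  refine ⟨2 * Real.cosh r, by have := Real.one_le_cosh r; linarith, fun g => ?_⟩
  obtain ⟨γ, hγ, hmem⟩ := hcov (g • I)
  refine ⟨γ⁻¹, Γ.inv_mem hγ, ?_⟩
  rw [inv_inv]
  apply bd_of_dist_le
  have := hr hmem
  rw [mem_closedBall, dist_comm] at this
  rw [mul_smul]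
  exact this

theorem neg_one_notMem (hΓ : IsSurfaceGroup Γ) : (-1 : SL(2, ℝ)) ∉ Γ := by
  intro h
  have h1 := hΓ.free (-1) h I (by
    rw [UpperHalfPlane.ext_iff, coe_specialLinearGroup_apply]
    simp)
  have h2 := congrArg (fun g : SL(2, ℝ) => g 0 0) h1
  have h3 : (-1 : SL(2, ℝ)) 0 0 = -1 := by rw [neg_entries]; simp
  rw [h3] at h2
  have h4 : (1 : SL(2, ℝ)) 0 0 = 1 := one_entries.1
  rw [h4] at h2
  norm_num at h2

/-- Conjugates of nontrivial elements of `Γ` stay away from `1` and `-1`. -/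
theorem exists_eps (hΓ : IsSurfaceGroup Γ) :
    ∃ ε : ℝ, 0 < ε ∧ ∀ g : SL(2, ℝ), ∀ h ∈ Γ, h ≠ 1 → ∀ s : SL(2, ℝ), (s = 1 ∨ s = -1) →
      ∃ a b, ε < |(g⁻¹ * h * g) a b - s a b| := by
  obtain ⟨R₀, hR₀, hround⟩ := exists_round hΓ
  set F : Set SL(2, ℝ) := {g : SL(2, ℝ) | g ∈ Γ ∧ Bd (2 * (2 * R₀ * 2) * R₀) g} \ {1} with hF
  have hFfin : F.Finite := (finite_bd hΓ _).sdiff
  -- a lower bound on the finite set
  have hδ : ∃ δ : ℝ, 0 < δ ∧ ∀ h ∈ F, ∀ s : SL(2, ℝ), (s = 1 ∨ s = -1) →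
      ∃ a b, δ < |h a b - s a b| := by
    have hpos : ∀ h ∈ F, ∃ δ : ℝ, 0 < δ ∧ ∀ s : SL(2, ℝ), (s = 1 ∨ s = -1) →
        ∃ a b, δ < |h a b - s a b| := by
      rintro h ⟨⟨hhΓ, -⟩, hh1⟩
      have hne : ∀ s : SL(2, ℝ), h ≠ s → ∃ δ : ℝ, 0 < δ ∧ ∃ a b, δ < |h a b - s a b| := by
        intro s hs
        have : ∃ a b, h a b ≠ s a b := by
          by_contra hcon
          push Not at hcon
          exact hs (ext_entries (hcon _ _) (hcon _ _) (hcon _ _) (hcon _ _))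
        obtain ⟨a, b, hab⟩ := this
        have h3 : 0 < |h a b - s a b| := abs_pos.2 (sub_ne_zero.2 hab)
        exact ⟨|h a b - s a b| / 2, by positivity, a, b, by linarith⟩
      obtain ⟨δ1, hδ1, a1, b1, h1⟩ := hne 1 (by simpa using hh1)
      obtain ⟨δ2, hδ2, a2, b2, h2⟩ := hne (-1) (fun h3 => neg_one_notMem hΓ (h3 ▸ hhΓ))
      refine ⟨min δ1 δ2, lt_min hδ1 hδ2, ?_⟩
      rintro s (rfl | rfl)
      · exact ⟨a1, b1, lt_of_le_of_lt (min_le_left _ _) h1⟩
      · exact ⟨a2, b2, lt_of_le_of_lt (min_le_right _ _) h2⟩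
    choose! δ hδpos hδ using hpos
    rcases F.eq_empty_or_nonempty with hemp | hne
    · exact ⟨1, one_pos, by rw [hemp]; intro h hh; exact absurd hh (Set.notMem_empty _)⟩
    · obtain ⟨h₀, hh₀, hmin⟩ := hFfin.exists_minimalFor δ F hne
      refine ⟨δ h₀, hδpos h₀ hh₀, fun h hh s hs => ?_⟩
      obtain ⟨a, b, hab⟩ := hδ h hh s hs
      refine ⟨a, b, lt_of_le_of_lt ?_ hab⟩
      rcases le_total (δ h₀) (δ h) with h1 | h1
      · exact h1
      · exact hmin hh h1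
  obtain ⟨δ, hδ0, hδ⟩ := hδ
  refine ⟨min 1 (δ / (4 * R₀ * R₀)), lt_min one_pos (by positivity), ?_⟩
  intro g h hh hh1 s hs
  by_contra hcon
  push Not at hcon
  obtain ⟨γ, hγ, hb⟩ := hround g
  set q := γ⁻¹ * g with hq
  obtain ⟨m, hm⟩ : ∃ m, m = g⁻¹ * h * g := ⟨_, rfl⟩
  rw [← hm] at hcon
  have hs1 : Bd 1 s := by
    obtain ⟨o1, o2, o3, o4⟩ := one_entries
    intro a b
    rcases hs with rfl | rfl
    · fin_cases a <;> fin_cases b <;> simp only [Fin.zero_eta, Fin.mk_one, o1, o2, o3, o4] <;>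
        norm_num
    · rw [neg_entries, abs_neg]
      fin_cases a <;> fin_cases b <;> simp only [Fin.zero_eta, Fin.mk_one, o1, o2, o3, o4] <;>
        norm_num
  have hmb : Bd 2 m := by
    intro a b
    have h1 := hcon a b
    have h2 : |m a b| ≤ |m a b - s a b| + |s a b| := by
      have := abs_add_le (m a b - s a b) (s a b)
      rwa [sub_add_cancel] at this
    have h3 := hs1 a b
    have h4 := min_le_left (1 : ℝ) (δ / (4 * R₀ * R₀))
    linarith
  have hh' : γ⁻¹ * h * γ = q * m * q⁻¹ := by rw [hq, hm]; group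
  have hF' : q * m * q⁻¹ ∈ F := by
    refine ⟨⟨?_, (hb.mul hmb).mul hb.inv⟩, ?_⟩
    · rw [← hh']
      exact Γ.mul_mem (Γ.mul_mem (Γ.inv_mem hγ) hh) hγ
    · intro h1
      rw [Set.mem_singleton_iff, ← hh'] at h1
      apply hh1
      have : h = γ * (γ⁻¹ * h * γ) * γ⁻¹ := by group
      rw [this, h1]; group
  obtain ⟨a, b, hab⟩ := hδ _ hF' s hs
  -- but the entries are close
  have hss : s = q * s * q⁻¹ := by
    rcases hs with rfl | rfl
    · group
    · simp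
  have hdiff : (q * m * q⁻¹) a b - s a b =
      (q a 0 * (m 0 0 - s 0 0) + q a 1 * (m 1 0 - s 1 0)) * q⁻¹ 0 b +
      (q a 0 * (m 0 1 - s 0 1) + q a 1 * (m 1 1 - s 1 1)) * q⁻¹ 1 b := by
    have h1 : s a b = (q * s * q⁻¹) a b := by rw [← hss]
    rw [h1]
    simp only [mul_entries]
    ring
  have he : ∀ a b, |m a b - s a b| ≤ δ / (4 * R₀ * R₀) := fun a b =>
    (hcon a b).trans (min_le_right _ _)
  have hR0 : 0 ≤ R₀ := by linarith
  have hin : ∀ a b, |q a 0 * (m 0 b - s 0 b) + q a 1 * (m 1 b - s 1 b)| ≤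
      2 * R₀ * (δ / (4 * R₀ * R₀)) := by
    intro a b
    calc _ ≤ |q a 0 * (m 0 b - s 0 b)| + |q a 1 * (m 1 b - s 1 b)| := abs_add_le _ _
      _ = |q a 0| * |m 0 b - s 0 b| + |q a 1| * |m 1 b - s 1 b| := by rw [abs_mul, abs_mul]
      _ ≤ R₀ * (δ / (4 * R₀ * R₀)) + R₀ * (δ / (4 * R₀ * R₀)) :=
        add_le_add (mul_le_mul (hb a 0) (he 0 b) (abs_nonneg _) hR0)
          (mul_le_mul (hb a 1) (he 1 b) (abs_nonneg _) hR0)
      _ = _ := by ring
  have hfinal : |(q * m * q⁻¹) a b - s a b| ≤ δ := by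
    rw [hdiff]
    have hbi := hb.inv
    calc _ ≤ |(q a 0 * (m 0 0 - s 0 0) + q a 1 * (m 1 0 - s 1 0)) * q⁻¹ 0 b| +
          |(q a 0 * (m 0 1 - s 0 1) + q a 1 * (m 1 1 - s 1 1)) * q⁻¹ 1 b| := abs_add_le _ _
      _ = |q a 0 * (m 0 0 - s 0 0) + q a 1 * (m 1 0 - s 1 0)| * |q⁻¹ 0 b| +
          |q a 0 * (m 0 1 - s 0 1) + q a 1 * (m 1 1 - s 1 1)| * |q⁻¹ 1 b| := by
        rw [abs_mul, abs_mul]
      _ ≤ 2 * R₀ * (δ / (4 * R₀ * R₀)) * R₀ + 2 * R₀ * (δ / (4 * R₀ * R₀)) * R₀ :=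
        add_le_add (mul_le_mul (hin a 0) (hbi 0 b) (abs_nonneg _) (by positivity))
          (mul_le_mul (hin a 1) (hbi 1 b) (abs_nonneg _) (by positivity))
      _ = δ := by field_simp; ring
  linarith

/-- Nontrivial elements of a surface group are hyperbolic. -/
theorem two_lt_abs_t2 (hΓ : IsSurfaceGroup Γ) {h : SL(2, ℝ)} (hh : h ∈ Γ) (h1 : h ≠ 1) :
    2 < |t2 h| := by
  by_contra hcon
  push Not at hcon
  rcases hcon.lt_or_eq with hlt | heq
  · -- elliptic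
    set G : GL (Fin 2) ℝ := Matrix.SpecialLinearGroup.mapGL ℝ h with hG
    have hval : G.val = h.1 := by
      rw [hG]
      ext a b
      simp
    have hdet : 0 < G.val.det := by rw [hval, h.2]; exact one_pos
    have hell : G.IsElliptic := by
      show G.val.discr < 0
      rw [hval, Matrix.discr_fin_two, Matrix.trace_fin_two, h.2]
      have h2 : t2 h ^ 2 < 2 ^ 2 := by
        rw [← sq_abs]
        exact pow_lt_pow_left₀ hlt (abs_nonneg _) two_ne_zero
      have h3 : t2 h = h.1 0 0 + h.1 1 1 := rfl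
      rw [h3] at h2
      linarith
    have hfix : G • fixedPt G hell = fixedPt G hell :=
      (gl_smul_eq_self_iff_eq_fixedPt hdet hell).2 rfl
    exact h1 (hΓ.free h hh _ hfix)
  · -- parabolic
    obtain ⟨ε, hε, heps⟩ := exists_eps hΓ
    obtain ⟨c, hc, hc2⟩ : ∃ c : ℝ, (c = 1 ∨ c = -1) ∧ t2 h = 2 * c := by
      rcases abs_eq (by norm_num : (0:ℝ) ≤ 2) |>.1 heq with h2 | h2
      · exact ⟨1, Or.inl rfl, by linarith⟩
      · exact ⟨-1, Or.inr rfl, by linarith⟩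
    have hcsq : c ^ 2 = 1 := by rcases hc with rfl | rfl <;> norm_num
    obtain ⟨x, hx1, hx2⟩ := exists_upper h c (by rw [hc2]; linarith)
    obtain ⟨m, hm⟩ : ∃ m, m = x⁻¹ * h * x := ⟨_, rfl⟩
    rw [← hm] at hx1 hx2
    have hm11 : m 1 1 = c := by
      have h3 : t2 m = t2 h := by
        rw [hm]
        have := t2_conj x⁻¹ h
        rwa [inv_inv] at this
      have h4 : t2 m = m 0 0 + m 1 1 := rfl
      rw [h4, hx1, hc2] at h3
      linarith
    -- the sign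
    set s : SL(2, ℝ) := if c = 1 then 1 else -1 with hs
    have hs' : s = 1 ∨ s = -1 := by rw [hs]; split_ifs <;> simp
    obtain ⟨o1, o2, o3, o4⟩ := one_entries
    have hsc : s 0 0 = c ∧ s 0 1 = 0 ∧ s 1 0 = 0 ∧ s 1 1 = c := by
      rcases hc with rfl | rfl
      · rw [hs, if_pos rfl]; exact ⟨o1, o2, o3, o4⟩
      · rw [hs, if_neg (by norm_num)]
        refine ⟨?_, ?_, ?_, ?_⟩ <;> rw [neg_entries] <;> simp [o1, o2, o3, o4]
    -- conjugate far away
    obtain ⟨τ, hτ⟩ : ∃ τ : ℝ, |m 0 1| * Real.exp (-τ) ≤ ε := by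
      refine ⟨Real.log ((|m 0 1| + 1) / ε), ?_⟩
      rw [Real.exp_neg, Real.exp_log (by positivity), inv_div, ← mul_div_assoc,
        div_le_iff₀ (by positivity)]
      nlinarith [abs_nonneg (m 0 1)]
    obtain ⟨a, b, hab⟩ := heps (x * aa τ) h hh h1 s hs'
    have hconj : (x * aa τ)⁻¹ * h * (x * aa τ) = (aa τ)⁻¹ * m * aa τ := by rw [hm]; group
    rw [hconj, ← aa_neg] at hab
    obtain ⟨s1, s2, s3, s4⟩ := hsc
    have hexp : Real.exp (-τ / 2) * Real.exp (τ / 2) = 1 := by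
      rw [← Real.exp_add]
      have : -τ / 2 + τ / 2 = 0 := by ring
      rw [this, Real.exp_zero]
    have hexp2 : Real.exp (-τ / 2) * Real.exp (-(τ / 2)) = Real.exp (-τ) := by
      rw [← Real.exp_add]; congr 1; ring
    have hexp3 : Real.exp (-(-τ / 2)) * Real.exp (-(τ / 2)) = 1 := by
      rw [← Real.exp_add]
      have : -(-τ / 2) + -(τ / 2) = 0 := by ring
      rw [this, Real.exp_zero]
    have hclose : ∀ a b, |(aa (-τ) * m * aa τ) a b - s a b| ≤ ε := by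
      intro a b
      rw [mul_entries, mul_entries, mul_entries]
      fin_cases a <;> fin_cases b <;>
        simp only [Fin.zero_eta, Fin.mk_one, aa_00, aa_01, aa_10, aa_11, hx1, hx2, hm11, s1, s2,
          s3, s4, zero_mul, mul_zero, add_zero, zero_add]
      · have : Real.exp (-τ / 2) * c * Real.exp (τ / 2) - c = 0 := by
          linear_combination c * hexp
        rw [this, abs_zero]; exact hε.le
      · have : Real.exp (-τ / 2) * m 0 1 * Real.exp (-(τ / 2)) - 0 = m 0 1 * Real.exp (-τ) := by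
          rw [← hexp2]; ring
        rw [this, abs_mul, abs_of_pos (Real.exp_pos _)]; exact hτ
      · simp; exact hε.le
      · have : Real.exp (-(-τ / 2)) * c * Real.exp (-(τ / 2)) - c = 0 := by
          linear_combination c * hexp3
        rw [this, abs_zero]; exact hε.le
    exact absurd (hclose a b) (not_le.2 hab)

end Pool.Agent.TH623.SA
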