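import Pool.Agent.TH623.SA.Surf

set_option autoImplicit false

open Matrix UpperHalfPlane Metric
open scoped MatrixGroups

namespace Pool.Agent.TH623.SA

/-- an element displaces every point by at least its translation length -/
theorem le_dist_of_t2 {h : SL(2, ℝ)} {ℓ : ℝ} (hℓ : 0 ≤ ℓ) (ht : 2 * Real.cosh (ℓ / 2) ≤ |t2 h|)
    (p : ℍ) : ℓ ≤ dist p (h • p) := by
  have hx : p = p.toSL2R • I := (toSL2R_smul_I p).symm
  set x := p.toSL2R
  have h1 : dist p (h • p) = dist I ((x⁻¹ * h * x) • I) := by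
    rw [hx, ← dist_smul x I, smul_smul, smul_smul]
    congr 2
    group
  have h2 := cosh_dist_I (x⁻¹ * h * x)
  have h3 : t2 (x⁻¹ * h * x) = t2 h := by
    have := t2_conj x⁻¹ h
    rwa [inv_inv] at this
  have h4 := det_eq (x⁻¹ * h * x)
  obtain ⟨m, hm⟩ : ∃ m, m = x⁻¹ * h * x := ⟨_, rfl⟩
  rw [← hm] at h1 h2 h3 h4
  have h5 : t2 h ^ 2 ≤ 2 * Real.cosh (dist p (h • p)) + 2 := by
    rw [h1, h2, ← h3]
    unfold t2
    nlinarith [sq_nonneg (m 0 1 - m 1 0)]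
  have h6 : (2 * Real.cosh (ℓ / 2)) ^ 2 ≤ t2 h ^ 2 := by
    rw [← sq_abs (t2 h)]
    exact pow_le_pow_left₀ (by have := Real.cosh_pos (ℓ / 2); linarith) ht 2
  have h7 : Real.cosh ℓ = 2 * Real.cosh (ℓ / 2) ^ 2 - 1 := by
    have := Real.cosh_two_mul (ℓ / 2)
    rw [mul_div_cancel₀ ℓ two_ne_zero] at this
    have h8 := Real.cosh_sq (ℓ / 2)
    linarith
  have h8 : Real.cosh ℓ ≤ Real.cosh (dist p (h • p)) := by nlinarith
  rw [Real.cosh_le_cosh, abs_of_nonneg hℓ, abs_of_nonneg dist_nonneg] at h8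
  exact h8

variable {Γ : Subgroup SL(2, ℝ)}

theorem exists_ne_one (hΓ : IsSurfaceGroup Γ) : ∃ h ∈ Γ, h ≠ 1 := by
  by_contra hcon
  push Not at hcon
  obtain ⟨R₀, hR₀, hround⟩ := exists_round hΓ
  obtain ⟨γ, hγ, hb⟩ := hround (uu (R₀ + 1))
  rw [hcon γ hγ, inv_one, one_mul] at hb
  have := hb 0 1
  rw [uu_01, abs_of_pos (by linarith)] at this
  linarith

/-- An element of minimal translation length. -/
theorem exists_systole (hΓ : IsSurfaceGroup Γ) :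
    ∃ h ∈ Γ, h ≠ 1 ∧ ∀ g ∈ Γ, g ≠ 1 → |t2 h| ≤ |t2 g| := by
  obtain ⟨R₀, hR₀, hround⟩ := exists_round hΓ
  obtain ⟨h₀, hh₀, hh₀1⟩ := exists_ne_one hΓ
  set M := |t2 h₀| with hM
  -- every element of small trace is conjugate to one in a finite set
  set F : Set SL(2, ℝ) := {g : SL(2, ℝ) | g ∈ Γ ∧ Bd (2 * (2 * R₀ * M) * R₀) g} \ {1} with hF
  have hFfin : F.Finite := (finite_bd hΓ _).sdiff
  have key : ∀ g ∈ Γ, g ≠ 1 → |t2 g| ≤ M → ∃ g' ∈ F, |t2 g'| = |t2 g| := by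
    intro g hg hg1 hgM
    obtain ⟨x, ℓ, s, hℓ, hs, he⟩ := hyp_form g (two_lt_abs_t2 hΓ hg hg1)
    obtain ⟨γ, hγ, hb⟩ := hround x
    obtain ⟨m, hm⟩ : ∃ m, m = s * aa ℓ := ⟨_, rfl⟩
    have hmt : |t2 m| = |t2 g| := by
      rw [he, ← hm, t2_conj]
    have hmabs : |t2 m| = 2 * Real.cosh (ℓ / 2) := by
      have hc := Real.cosh_pos (ℓ / 2)
      rcases hs with rfl | rfl
      · rw [hm, one_mul, t2_aa, abs_of_pos (by linarith)]
      · rw [hm, neg_mul, one_mul, t2_neg, abs_neg, t2_aa, abs_of_pos (by linarith)]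
    have haab : Bd M (aa ℓ) := by
      have h1 : 2 * Real.cosh (ℓ / 2) ≤ M := by rw [← hmabs, hmt]; exact hgM
      rw [Real.cosh_eq] at h1
      have e1 := Real.exp_pos (ℓ / 2)
      have e2 := Real.exp_pos (-(ℓ / 2))
      intro a b
      fin_cases a <;> fin_cases b <;> simp only [Fin.zero_eta, Fin.mk_one, aa_00, aa_01, aa_10,
        aa_11, abs_zero]
      · rw [abs_of_pos e1]; linarith
      · linarith
      · linarith
      · rw [abs_of_pos e2]; linarith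
    have hmb : Bd M m := by
      rcases hs with rfl | rfl
      · rw [hm, one_mul]; exact haab
      · rw [hm, neg_mul, one_mul]
        intro a b
        rw [neg_entries, abs_neg]
        exact haab a b
    refine ⟨γ⁻¹ * g * γ, ⟨⟨Γ.mul_mem (Γ.mul_mem (Γ.inv_mem hγ) hg) hγ, ?_⟩, ?_⟩, ?_⟩
    · have h1 : γ⁻¹ * g * γ = (γ⁻¹ * x) * m * (γ⁻¹ * x)⁻¹ := by
        rw [he, ← hm]; group
      rw [h1]
      exact (hb.mul hmb).mul hb.inv
    · intro h1
      rw [Set.mem_singleton_iff] at h1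
      apply hg1
      have : g = γ * (γ⁻¹ * g * γ) * γ⁻¹ := by group
      rw [this, h1]; group
    · have := t2_conj γ⁻¹ g
      rw [inv_inv] at this
      rw [this]
  obtain ⟨g₀, hg₀, hg₀'⟩ := key h₀ hh₀ hh₀1 le_rfl
  obtain ⟨h, hh, hmin⟩ := hFfin.exists_minimalFor (fun g => |t2 g|) F ⟨g₀, hg₀⟩
  refine ⟨h, hh.1.1, by simpa using hh.2, fun g hg hg1 => ?_⟩
  have hle : ∀ g' ∈ F, |t2 h| ≤ |t2 g'| := by
    intro g' hg'
    rcases le_total (|t2 h|) (|t2 g'|) with h1 | h1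
    · exact h1
    · exact hmin hg' h1
  rcases le_or_gt (|t2 g|) M with h1 | h1
  · obtain ⟨g', hg', he⟩ := key g hg hg1 h1
    rw [← he]
    exact hle g' hg'
  · have h2 := hle g₀ hg₀
    rw [hg₀'] at h2
    linarith

/-- the vertical geodesic -/
theorem dist_aa_smul_I (s t : ℝ) : dist (aa s • I) (aa t • I) = |s - t| := by
  have h1 : ∀ r : ℝ, ((aa r • I : ℍ) : ℂ) = (Real.exp r : ℂ) * Complex.I := by
    intro r
    rw [coe_specialLinearGroup_apply]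
    simp only [aa_00, aa_01, aa_10, aa_11, map_zero, coe_I, Algebra.algebraMap_self, RingHom.id_apply,
      Complex.ofReal_zero, zero_mul, zero_add, add_zero]
    rw [div_eq_iff (by exact_mod_cast (Real.exp_pos _).ne')]
    have h2 : Real.exp (r / 2) = Real.exp r * Real.exp (-(r / 2)) := by
      rw [← Real.exp_add]; congr 1; ring
    rw [h2]
    push_cast
    ring
  have hre : ∀ r : ℝ, (aa r • I : ℍ).re = 0 := by
    intro r
    have := congrArg Complex.re (h1 r)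
    simpa using this
  have him : ∀ r : ℝ, (aa r • I : ℍ).im = Real.exp r := by
    intro r
    have := congrArg Complex.im (h1 r)
    rw [Complex.im_ofReal_mul, Complex.I_im, mul_one] at this
    exact this
  rw [dist_of_re_eq (by rw [hre, hre]), him, him, Real.log_exp, Real.log_exp, Real.dist_eq]

/-- finite generation: the elements moving the base point by a bounded amount generate -/
theorem exists_generators (hΓ : IsSurfaceGroup Γ) :
    ∃ S : Finset SL(2, ℝ), (∀ s ∈ S, s ∈ Γ) ∧ (∀ s ∈ S, s⁻¹ ∈ S) ∧ 1 ∈ S ∧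
      ∀ γ ∈ Γ, ∃ w : List SL(2, ℝ), (∀ s ∈ w, s ∈ S) ∧ w.prod = γ := by
  obtain ⟨K, hK, hcov⟩ := hΓ.cocompact
  obtain ⟨r, hr⟩ := hK.isBounded.subset_ball I
  have hr0 : 0 < r := by
    obtain ⟨g, -, hg⟩ := hcov I
    exact dist_nonneg.trans_lt (mem_ball.1 (hr hg))
  set S₀ : Set SL(2, ℝ) := {g | g ∈ Γ ∧ ∃ z ∈ closedBall (I : ℍ) r, g • z ∈ closedBall (I : ℍ) r}
    with hS₀
  have hS₀fin : S₀.Finite := hΓ.discont _ (isCompact_closedBall _ _)
  have hS₀inv : ∀ s ∈ S₀, s⁻¹ ∈ S₀ := by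
    rintro s ⟨hs, z, hz, hsz⟩
    exact ⟨Γ.inv_mem hs, s • z, hsz, by rw [inv_smul_smul]; exact hz⟩
  have hS₀1 : (1 : SL(2, ℝ)) ∈ S₀ :=
    ⟨Γ.one_mem, I, mem_closedBall_self hr0.le, by
      rw [one_smul]; exact mem_closedBall_self hr0.le⟩
  -- the subgroup generated
  set H : Subgroup SL(2, ℝ) := Subgroup.closure S₀ with hH
  have hHΓ : H ≤ Γ := (Subgroup.closure_le _).2 fun s hs => hs.1
  set U : Set ℍ := {z | ∃ γ ∈ H, γ⁻¹ • z ∈ ball (I : ℍ) r} with hU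
  set V : Set ℍ := {z | ∃ γ ∈ Γ, γ ∉ H ∧ γ⁻¹ • z ∈ ball (I : ℍ) r} with hV
  have hopen : ∀ γ : SL(2, ℝ), IsOpen {z : ℍ | γ⁻¹ • z ∈ ball (I : ℍ) r} := fun γ =>
    isOpen_ball.preimage (continuous_const_smul γ⁻¹)
  have hUo : IsOpen U := by
    have : U = ⋃ γ ∈ H, {z : ℍ | γ⁻¹ • z ∈ ball (I : ℍ) r} := by
      ext z; simp [U]
    rw [this]
    exact isOpen_biUnion fun γ _ => hopen γ
  have hVo : IsOpen V := by
    have : V = ⋃ γ ∈ {γ : SL(2, ℝ) | γ ∈ Γ ∧ γ ∉ H}, {z : ℍ | γ⁻¹ • z ∈ ball (I : ℍ) r} := by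
      ext z; simp [V, and_assoc]
    rw [this]
    exact isOpen_biUnion fun γ _ => hopen γ
  have hUV : Set.univ ⊆ U ∪ V := by
    intro z _
    obtain ⟨g, hg, hgz⟩ := hcov z
    by_cases hgH : g⁻¹ ∈ H
    · exact Or.inl ⟨g⁻¹, hgH, by rw [inv_inv]; exact hr hgz⟩
    · exact Or.inr ⟨g⁻¹, Γ.inv_mem hg, hgH, by rw [inv_inv]; exact hr hgz⟩
  have hdisj : ¬ (Set.univ ∩ (U ∩ V)).Nonempty := by
    rintro ⟨z, -, ⟨γ, hγ, hz⟩, γ', hγ', hγ'H, hz'⟩
    apply hγ'H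
    have h1 : γ⁻¹ * γ' ∈ S₀ := by
      refine ⟨Γ.mul_mem (Γ.inv_mem (hHΓ hγ)) hγ', γ'⁻¹ • z, ball_subset_closedBall hz', ?_⟩
      rw [mul_smul, smul_inv_smul]
      exact ball_subset_closedBall hz
    have h2 : γ * (γ⁻¹ * γ') ∈ H := H.mul_mem hγ (Subgroup.subset_closure h1)
    rwa [mul_inv_cancel_left] at h2
  have hVemp : V = ∅ := by
    by_contra hne
    have hVne : V.Nonempty := Set.nonempty_iff_ne_empty.2 hne
    have hUne : U.Nonempty := ⟨I, 1, H.one_mem, by rw [inv_one, one_smul]; exact mem_ball_self hr0⟩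
    have hpre : IsPreconnected (Set.univ : Set ℍ) := isPreconnected_univ
    exact hdisj (hpre U V hUo hVo hUV (by simpa using hUne) (by simpa using hVne))
  have hΓH : ∀ γ ∈ Γ, γ ∈ H := by
    intro γ hγ
    by_contra hγH
    have : γ • (I : ℍ) ∈ V := ⟨γ, hγ, hγH, by rw [inv_smul_smul]; exact mem_ball_self hr0⟩
    rw [hVemp] at this
    exact this
  refine ⟨hS₀fin.toFinset, fun s hs => (hS₀fin.mem_toFinset.1 hs).1,
    fun s hs => hS₀fin.mem_toFinset.2 (hS₀inv s (hS₀fin.mem_toFinset.1 hs)),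
    hS₀fin.mem_toFinset.2 hS₀1, fun γ hγ => ?_⟩
  have h1 := hΓH γ hγ
  rw [hH, ← Subgroup.mem_toSubmonoid, Subgroup.closure_toSubmonoid] at h1
  obtain ⟨w, hw, hprod⟩ := Submonoid.exists_list_of_mem_closure h1
  refine ⟨w, fun s hs => hS₀fin.mem_toFinset.2 ?_, hprod⟩
  rcases hw s hs with h2 | h2
  · exact h2
  · have := hS₀inv _ h2
    rwa [inv_inv] at this

end Pool.Agent.TH623.SA
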