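import Pool.Agent.TH623.SA.Defs

set_option autoImplicit false

open Matrix UpperHalfPlane Metric
open scoped MatrixGroups Pointwise

namespace Pool.Agent.TH623.SA

variable {Γ : Subgroup SL(2, ℝ)} {d : ℕ}

instance normal_inner (G : Type*) [Group G] : (MulAut.conj (G := G)).range.Normal := by
  refine ⟨?_⟩
  rintro _ ⟨g, rfl⟩ ψ
  refine ⟨ψ g, ?_⟩
  ext x
  simp [MulAut.conj_apply]

theorem act_mul (ψ φ : MulAut Γ) (x : CharVar Γ d) : act (ψ * φ) x = act ψ (act φ x) := by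
  apply Subtype.ext
  funext γ
  show x.1 ((ψ * φ)⁻¹ γ) = x.1 (φ⁻¹ (ψ⁻¹ γ))
  rw [_root_.mul_inv_rev]
  rfl

theorem act_one (x : CharVar Γ d) : act (1 : MulAut Γ) x = x := by
  apply Subtype.ext
  funext γ
  show x.1 ((1 : MulAut Γ)⁻¹ γ) = x.1 γ
  rw [inv_one]
  rfl

theorem act_inv_act (ψ : MulAut Γ) (x : CharVar Γ d) : act ψ⁻¹ (act ψ x) = x := by
  rw [← act_mul, inv_mul_cancel, act_one]

theorem act_act_inv (ψ : MulAut Γ) (x : CharVar Γ d) : act ψ (act ψ⁻¹ x) = x := by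
  rw [← act_mul, mul_inv_cancel, act_one]

theorem continuous_act (ψ : MulAut Γ) : Continuous (act ψ : CharVar Γ d → CharVar Γ d) := by
  refine Continuous.subtype_mk ?_ _
  refine continuous_pi fun γ => ?_
  exact (continuous_apply (ψ⁻¹ γ)).comp continuous_subtype_val

/-- the union of the translates of a set -/
def sat (N : Set (CharVar Γ d)) : Set (CharVar Γ d) := {y | ∃ ψ : MulAut Γ, act ψ y ∈ N}

theorem isOpen_sat {N : Set (CharVar Γ d)} (hN : IsOpen N) : IsOpen (sat N) := by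
  have : sat N = ⋃ ψ : MulAut Γ, act ψ ⁻¹' N := by
    ext y; simp [sat]
  rw [this]
  exact isOpen_iUnion fun ψ => hN.preimage (continuous_act ψ)

theorem act_mem_sat {N : Set (CharVar Γ d)} (ψ : MulAut Γ) {x : CharVar Γ d} (hx : x ∈ sat N) :
    act ψ x ∈ sat N := by
  obtain ⟨φ, hφ⟩ := hx
  refine ⟨φ * ψ⁻¹, ?_⟩
  rw [act_mul, act_inv_act]
  exact hφ

/-- The union of a domain of discontinuity and of the translates of a set whose orbit is locally
finite in the whole character variety is again a domain of discontinuity. -/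
theorem union_domain {U N : Set (CharVar Γ d)} (hU : IsDomainOfDiscontinuity U) (hN : IsOpen N)
    (hP : ∀ K : Set (CharVar Γ d), IsCompact K →
      {c : OutG Γ | ∃ ψ : MulAut Γ, (ψ : OutG Γ) = c ∧ ∃ x ∈ N, act ψ x ∈ K}.Finite) :
    IsDomainOfDiscontinuity (U ∪ sat N) := by
  obtain ⟨hUo, hUi, hUf⟩ := hU
  refine ⟨hUo.union (isOpen_sat hN), ?_, ?_⟩
  · rintro ψ x (hx | hx)
    · exact Or.inl (hUi ψ x hx)
    · exact Or.inr (act_mem_sat ψ hx)
  · intro K hKU hK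
    set T : Set (OutG Γ) := {c : OutG Γ | ∃ ψ : MulAut Γ, (ψ : OutG Γ) = c ∧
      ∃ x ∈ N, act ψ x ∈ K} with hT
    have hTf : T.Finite := hP K hK
    have hK' : IsCompact (K \ sat N) := hK.diff (isOpen_sat hN)
    have hK'U : K \ sat N ⊆ U := by
      rintro x ⟨hx, hxs⟩
      exact (hKU hx).resolve_right hxs
    have h3 := hUf (K \ sat N) hK'U hK'
    refine ((hTf.mul hTf.inv).union h3).subset ?_
    rintro c ⟨ψ, rfl, x, hx, hψx⟩
    by_cases hxs : x ∈ sat N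
    · left
      obtain ⟨φ, hφ⟩ := hxs
      have h1 : ((ψ * φ⁻¹ : MulAut Γ) : OutG Γ) ∈ T :=
        ⟨ψ * φ⁻¹, rfl, act φ x, hφ, by rw [act_mul, act_inv_act]; exact hψx⟩
      have h2 : ((φ⁻¹ : MulAut Γ) : OutG Γ) ∈ T :=
        ⟨φ⁻¹, rfl, act φ x, hφ, by rw [act_inv_act]; exact hx⟩
      refine ⟨_, h1, _, Set.inv_mem_inv.2 h2, ?_⟩
      show ((ψ * φ⁻¹ : MulAut Γ) : OutG Γ) * ((φ⁻¹ : MulAut Γ) : OutG Γ)⁻¹ = (ψ : OutG Γ)
      rw [← QuotientGroup.mk_inv, ← QuotientGroup.mk_mul, inv_inv, inv_mul_cancel_right]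
    · right
      refine ⟨ψ, rfl, x, ⟨hx, hxs⟩, hψx, fun hcon => hxs ?_⟩
      have := act_mem_sat ψ⁻¹ hcon
      rwa [act_inv_act] at this

end Pool.Agent.TH623.SA
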